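import Pool.Agent.Lib.MP_b0a977_co.Sharp.Iface

/-!
# Statements of the two halves of the second order term for every fixed diameter
-/

namespace Pool.Agent.Lib.MP_b0a977_co.Sharp

open Finset Real

noncomputable section

/-- the weight of a pair in the same class at height `i` -/
def al (d i : ℕ) : ℕ := if 2 * i + 1 = d then 1 else 2

/-- weighted number of ordered pairs in the same class, `1 ≤ i ≤ (d-1)/2` -/
def pairsSum (d N : ℕ) (a : ℕ → Fin N → ℕ) : ℕ :=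
  ∑ i ∈ Icc 1 ((d - 1) / 2), al d i * (univ.filter (fun p : Fin N × Fin N => a i p.1 = a i p.2)).card

/-- weighted number of classes, `1 ≤ i ≤ (d-1)/2` -/
def cellsSum (d N : ℕ) (a : ℕ → Fin N → ℕ) : ℕ :=
  ∑ i ∈ Icc 1 ((d - 1) / 2), 2 * i * (univ.image (a i)).card

/-- `a 1, a 2, …, a ((d-1)/2)` define coarser and coarser partitions of `Fin N` -/
def Nested (d N : ℕ) (a : ℕ → Fin N → ℕ) : Prop :=
  ∀ i, 1 ≤ i → i < (d - 1) / 2 → ∀ x y, a i x = a i y → a (i + 1) x = a (i + 1) y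

/-- the values of the chains of partitions -/
def chainVals (d : ℕ) : Set ℝ :=
  {r | ∃ (N : ℕ) (a : ℕ → Fin N → ℕ), 0 < N ∧ Nested d N a ∧
    r = 2 * √((pairsSum d N a : ℝ) * cellsSum d N a) / N}

/-- the constant `c_d` -/
def cd (d : ℕ) : ℝ := sInf (chainVals d)

/-- the upper bound for the deficiency, `d` fixed -/
def UBD : Prop := ∀ d : ℕ, 3 ≤ d → ∀ ε : ℝ, 0 < ε → ∃ n₀ : ℕ, ∀ n : ℕ, n₀ ≤ n →
  ∃ G : SimpleGraph (Fin n), G.Connected ∧ G.diam = d ∧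
    ∑ x, ∑ y, ((d : ℝ) - G.dist x y) ≤ (cd d + ε) * (n * √n)

/-- the lower bound for the deficiency, `d` fixed, for all graphs of diameter at most `d` -/
def LBD : Prop := ∀ d : ℕ, 4 ≤ d → ∀ ε : ℝ, 0 < ε → ∃ n₀ : ℕ, ∀ n : ℕ, n₀ ≤ n →
  ∀ G : SimpleGraph (Fin n), G.Connected → (∀ x y, G.dist x y ≤ d) →
    (cd d - ε) * (n * √n) ≤ ∑ x, ∑ y, ((d : ℝ) - G.dist x y)

end

end Pool.Agent.Lib.MP_b0a977_co.Sharp
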