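import Pool.Agent.Lib.MP_b0a977_co.Sharp.Pot

/-!
# Statements of the two halves of the sharp asymptotic value
-/

namespace Pool.Agent.Lib.MP_b0a977_co.Sharp

open Finset Real

noncomputable section

/-- `κ = √((175 - √7)/189) = 0.954949…` -/
def kappa : ℝ := √((175 - √7) / 189)

lemma kappa_pos : 0 < kappa := by
  unfold kappa
  apply Real.sqrt_pos.mpr
  linarith [s7_bd.2]

lemma kappa_sq : kappa ^ 2 = (175 - √7) / 189 := by
  unfold kappa
  apply Real.sq_sqrt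
  linarith [s7_bd.2]

/-- `C* = √8 κ` -/
lemma Cs_eq : Cs = √8 * kappa := by
  have h1 : (√8 * kappa) ^ 2 = Cs ^ 2 := by
    rw [mul_pow, Real.sq_sqrt (by norm_num), kappa_sq, Cs_sq]
    unfold qq
    ring
  have h2 : 0 ≤ √8 * kappa := mul_nonneg (Real.sqrt_nonneg _) kappa_pos.le
  nlinarith [Cs_pos]

/-- the upper bound for the deficiency: graphs of diameter `d` whose average distance is large -/
def UBS : Prop := ∀ ε : ℝ, 0 < ε → ∃ K : ℕ, ∀ n d : ℕ, K ≤ d → K * d ≤ n →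
  ∃ G : SimpleGraph (Fin n), G.Connected ∧ G.diam = d ∧
    ∑ x, ∑ y, ((d : ℝ) - G.dist x y) ≤ (kappa + ε) * (d * n) * √(d * n)

/-- the lower bound for the deficiency, for all graphs of diameter at most `d` -/
def LBS : Prop := ∀ ε : ℝ, 0 < ε → ∃ K : ℕ, ∀ n d : ℕ, K ≤ d → K * d ≤ n →
  ∀ G : SimpleGraph (Fin n), G.Connected → (∀ x y, G.dist x y ≤ d) →
    (kappa - ε) * (d * n) * √(d * n) ≤ ∑ x, ∑ y, ((d : ℝ) - G.dist x y)

end

end Pool.Agent.Lib.MP_b0a977_co.Sharp
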