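import Pool.Agent.Lib.MP_b0a977_co.Sharp.Pot

/-!
# The optimum over nested partitions
-/

namespace Pool.Agent.Lib.MP_b0a977_co.Sharp

open Finset Real

noncomputable section

lemma WW_sum {ι : Type*} [DecidableEq ι] (h : ℝ) (g : ι → ℝ) :
    ∀ s : Finset ι, s.Nonempty → (∀ i ∈ s, 0 ≤ g i) → WW (∑ i ∈ s, g i) h ≤ ∑ i ∈ s, WW (g i) h := by
  intro s
  induction s using Finset.induction_on with
  | empty => intro h; exact absurd h Finset.not_nonempty_empty
  | insert a s ha ih =>
    intro _ hg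
    rw [Finset.sum_insert ha, Finset.sum_insert ha]
    rcases s.eq_empty_or_nonempty with h0 | h0
    · subst h0; simp
    · have h1 := ih h0 (fun i hi => hg i (Finset.mem_insert_of_mem hi))
      have h2 : 0 ≤ ∑ i ∈ s, g i := Finset.sum_nonneg fun i hi => hg i (Finset.mem_insert_of_mem hi)
      exact (WW_add (hg a (Finset.mem_insert_self a s)) h2).trans (by linarith)

variable {V : Type*} [DecidableEq V]

/-- the cell of `c` at height `i` -/
def fib (S : Finset V) (a : ℕ → V → V) (i : ℕ) (c : V) : Finset V := S.filter (fun x => a i x = c)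

/-- the number of ordered pairs in the same cell -/
def prs (S : Finset V) (a : ℕ → V → V) (i : ℕ) : ℕ :=
  ((S ×ˢ S).filter (fun p => a i p.1 = a i p.2)).card

lemma fib_pos {S : Finset V} {a : ℕ → V → V} {i : ℕ} {c : V} (hc : c ∈ S.image (a i)) :
    0 < (fib S a i c).card := by
  obtain ⟨x, hx, rfl⟩ := Finset.mem_image.mp hc
  exact Finset.card_pos.mpr ⟨x, Finset.mem_filter.mpr ⟨hx, rfl⟩⟩

lemma sum_fib (S : Finset V) (a : ℕ → V → V) (i : ℕ) :
    ∑ c ∈ S.image (a i), (fib S a i c).card = S.card :=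
  (Finset.card_eq_sum_card_image (a i) S).symm

lemma sum_fib_sq (S : Finset V) (a : ℕ → V → V) (i : ℕ) :
    ∑ c ∈ S.image (a i), (fib S a i c).card ^ 2 = prs S a i := by
  unfold prs
  rw [Finset.card_eq_sum_card_fiberwise (f := fun p : V × V => a i p.1) (t := S.image (a i))]
  · apply Finset.sum_congr rfl
    intro c _
    rw [sq, ← Finset.card_product]
    congr 1
    ext ⟨x, y⟩
    simp only [fib, Finset.mem_product, Finset.mem_filter]
    constructor
    · rintro ⟨⟨h1, h2⟩, h3, h4⟩; exact ⟨⟨⟨h1, h3⟩, h2.trans h4.symm⟩, h2⟩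
    · rintro ⟨⟨⟨h1, h3⟩, h5⟩, h2⟩; exact ⟨⟨h1, h2⟩, h3, h5 ▸ h2⟩
  · intro p hp
    have hp := Finset.mem_coe.mp hp
    rw [Finset.mem_filter, Finset.mem_product] at hp
    exact Finset.mem_coe.mpr (Finset.mem_image_of_mem _ hp.1.1)

/-- the total potential at height `i` -/
def Phi (S : Finset V) (a : ℕ → V → V) (n : ℝ) (i : ℕ) (h : ℝ) : ℝ :=
  ∑ c ∈ S.image (a i), WW ((fib S a i c).card / √n) h

lemma Phi_merge (S : Finset V) (a : ℕ → V → V) (n : ℝ) (i : ℕ)
    (nest : ∀ x ∈ S, ∀ x' ∈ S, a i x = a i x' → a (i + 1) x = a (i + 1) x') (h : ℝ) :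
    Phi S a n (i + 1) h ≤ Phi S a n i h := by
  classical
  obtain ⟨g, hg⟩ : ∃ g : V → V, ∀ x ∈ S, g (a i x) = a (i + 1) x := by
    refine ⟨fun c => if h : ∃ x ∈ S, a i x = c then a (i + 1) h.choose else c, ?_⟩
    intro x hx
    have hex : ∃ x' ∈ S, a i x' = a i x := ⟨x, hx, rfl⟩
    simp only [dif_pos hex]
    exact nest _ hex.choose_spec.1 _ hx hex.choose_spec.2
  unfold Phi
  have hmap : ∀ c ∈ S.image (a i), g c ∈ S.image (a (i + 1)) := by
    intro c hc
    obtain ⟨x, hx, rfl⟩ := Finset.mem_image.mp hc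
    rw [hg x hx]
    exact Finset.mem_image_of_mem _ hx
  rw [← Finset.sum_fiberwise_of_maps_to hmap]
  apply Finset.sum_le_sum
  intro c' hc'
  have hcard : (fib S a (i + 1) c').card
      = ∑ c ∈ (S.image (a i)).filter (fun c => g c = c'), (fib S a i c).card := by
    rw [Finset.card_eq_sum_card_fiberwise (f := a i) (t := (S.image (a i)).filter (fun c => g c = c'))]
    · apply Finset.sum_congr rfl
      intro c hc
      have hc2 := (Finset.mem_filter.mp hc).2
      congr 1
      ext x
      simp only [fib, Finset.mem_filter]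
      constructor
      · rintro ⟨⟨h1, _⟩, h3⟩; exact ⟨h1, h3⟩
      · rintro ⟨h1, h3⟩; exact ⟨⟨h1, by rw [← hg x h1, h3, hc2]⟩, h3⟩
    · intro x hx
      have hx := Finset.mem_coe.mp hx
      rw [fib, Finset.mem_filter] at hx
      exact Finset.mem_coe.mpr (Finset.mem_filter.mpr ⟨Finset.mem_image_of_mem _ hx.1,
        by rw [hg x hx.1, hx.2]⟩)
  rw [hcard]
  push_cast
  rw [Finset.sum_div]
  apply WW_sum
  · obtain ⟨x, hx, rfl⟩ := Finset.mem_image.mp hc'
    exact ⟨a i x, Finset.mem_filter.mpr ⟨Finset.mem_image_of_mem _ hx, hg x hx⟩⟩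
  · intro c _; positivity

lemma Phi_up (S : Finset V) (a : ℕ → V → V) (n : ℝ) (hn : 0 < n) (i : ℕ) (h : ℝ) (hh : 0 ≤ h) :
    Phi S a n i (h + 1) ≤ Phi S a n i h + (2 / n * prs S a i + 2 * (h + 1) * (S.image (a i)).card) := by
  have h1 : ∑ c ∈ S.image (a i), (2 * ((fib S a i c).card / √n) ^ 2 + 2 * (h + 1))
      = 2 / n * prs S a i + 2 * (h + 1) * (S.image (a i)).card := by
    rw [Finset.sum_add_distrib, Finset.sum_const, nsmul_eq_mul, ← sum_fib_sq]
    push_cast
    rw [Finset.mul_sum]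
    congr 1
    · apply Finset.sum_congr rfl
      intro c _
      rw [div_pow, Real.sq_sqrt hn.le]
      ring
    · ring
  rw [← h1]
  unfold Phi
  rw [← Finset.sum_add_distrib]
  apply Finset.sum_le_sum
  intro c hc
  have hc0 := fib_pos hc
  have hm : 0 < ((fib S a i c).card : ℝ) / √n :=
    div_pos (by exact_mod_cast hc0) (Real.sqrt_pos.mpr hn)
  have := WW_step hm hh (by linarith : h ≤ h + 1)
  nlinarith

/-- the optimum over nested partitions -/
theorem nested_bound (S : Finset V) (a : ℕ → V → V) (n : ℝ) (hn : 0 < n) (H : ℕ)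
    (nest : ∀ i, 1 ≤ i → i < H → ∀ x ∈ S, ∀ x' ∈ S, a i x = a i x' → a (i + 1) x = a (i + 1) x') :
    Cs * (H * √H) * (S.card / √n)
      ≤ ∑ i ∈ Finset.Icc 1 H, (2 / n * prs S a i + 2 * i * (S.image (a i)).card : ℝ) := by
  have main : ∀ k : ℕ, 1 ≤ k → k ≤ H → Phi S a n k k
      ≤ ∑ i ∈ Finset.Icc 1 k, (2 / n * prs S a i + 2 * i * (S.image (a i)).card : ℝ) := by
    intro k hk
    induction k, hk using Nat.le_induction with
    | base =>
      intro _
      have h1 := Phi_up S a n hn 1 0 le_rfl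
      have h2 : Phi S a n 1 0 = 0 := by
        unfold Phi; exact Finset.sum_eq_zero fun c _ => WW_zero _
      simp only [Finset.Icc_self, Finset.sum_singleton, Nat.cast_one]
      rw [h2] at h1
      simpa using h1
    | succ k hk ih =>
      intro hkH
      have h1 := ih (by omega)
      have h2 := Phi_merge S a n k (nest k hk (by omega)) k
      have h3 := Phi_up S a n hn (k + 1) k (by positivity)
      rw [Finset.sum_Icc_succ_top (by omega)]
      push_cast
      push_cast at h3
      linarith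
  rcases Nat.eq_zero_or_pos H with h0 | h0
  · subst h0; simp
  · refine le_trans ?_ (main H h0 le_rfl)
    unfold Phi
    have : Cs * (H * √H) * (S.card / √n)
        = ∑ c ∈ S.image (a H), Cs * ((fib S a H c).card / √n) * (H * √H) := by
      rw [← sum_fib S a H]
      push_cast
      rw [← Finset.sum_mul, ← Finset.mul_sum, Finset.sum_div]
      ring
    rw [this]
    apply Finset.sum_le_sum
    intro c _
    exact WW_ge _ _ (by positivity)

end

end Pool.Agent.Lib.MP_b0a977_co.Sharp
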