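import Pool.Agent.Lib.MP_b0a977_co.Sharp.IfaceD
import Pool.Agent.Lib.MP_b0a977_co.Sharp.Nest

/-!
# The constant `c_d` bounds every chain of partitions
-/

namespace Pool.Agent.Lib.MP_b0a977_co.Sharp

open Finset

lemma chainVals_bdd (d : ℕ) : BddBelow (chainVals d) := by
  refine ⟨0, ?_⟩
  rintro r ⟨N, a, hN, _, rfl⟩
  positivity

lemma cd_le {d N : ℕ} {a : ℕ → Fin N → ℕ} (hN : 0 < N) (ha : Nested d N a) :
    cd d ≤ 2 * √((pairsSum d N a : ℝ) * cellsSum d N a) / N :=
  csInf_le (chainVals_bdd d) ⟨N, a, hN, ha, rfl⟩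

lemma cd_nonneg (d : ℕ) : 0 ≤ cd d := by
  apply Real.sInf_nonneg
  rintro r ⟨N, a, hN, _, rfl⟩
  positivity

lemma al_sum (d h : ℕ) (h1 : 1 ≤ h) (h2 : h ≤ (d - 1) / 2) :
    ∑ i ∈ Icc h ((d - 1) / 2), al d i ≤ d - 2 * h := by
  by_cases hodd : 2 * ((d - 1) / 2) + 1 = d
  · have h3 : Icc h ((d - 1) / 2) = insert ((d - 1) / 2) (Ico h ((d - 1) / 2)) := by
      ext i; simp only [Finset.mem_Icc, Finset.mem_insert, Finset.mem_Ico]; omega
    rw [h3, Finset.sum_insert (by simp)]
    have h4 : al d ((d - 1) / 2) = 1 := by unfold al; rw [if_pos hodd]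
    have h5 : ∑ i ∈ Ico h ((d - 1) / 2), al d i ≤ ∑ i ∈ Ico h ((d - 1) / 2), 2 := by
      apply Finset.sum_le_sum
      intro i _
      unfold al; split_ifs <;> omega
    rw [Finset.sum_const, Nat.card_Ico, smul_eq_mul] at h5
    omega
  · have h5 : ∑ i ∈ Icc h ((d - 1) / 2), al d i ≤ ∑ i ∈ Icc h ((d - 1) / 2), 2 := by
      apply Finset.sum_le_sum
      intro i _
      unfold al; split_ifs <;> omega
    rw [Finset.sum_const, Nat.card_Icc, smul_eq_mul] at h5
    omega

/-- every nested chain on a finite set -/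
lemma cd_bound {V : Type*} [Fintype V] [DecidableEq V] (d : ℕ) (S : Finset V) (a : ℕ → V → V)
    (n : ℝ) (hn : 0 < n)
    (nest : ∀ i, 1 ≤ i → i < (d - 1) / 2 → ∀ x ∈ S, ∀ x' ∈ S, a i x = a i x' →
      a (i + 1) x = a (i + 1) x') :
    cd d * (S.card / √n) ≤ ∑ i ∈ Icc 1 ((d - 1) / 2),
      ((al d i : ℝ) / n * prs S a i + 2 * i * (S.image (a i)).card) := by
  rcases S.eq_empty_or_nonempty with h0 | h0
  · subst h0
    simp only [Finset.card_empty, Nat.cast_zero, zero_div, mul_zero]
    apply Finset.sum_nonneg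
    intro i _
    positivity
  have hN : 0 < S.card := Finset.card_pos.mpr h0
  set N := S.card with hNdef
  let e : Fin N ≃ S := S.equivFin.symm
  set b : ℕ → Fin N → ℕ := fun i k => (Fintype.equivFin V (a i (e k))).val with hb
  have hbeq : ∀ i k k', b i k = b i k' ↔ a i (e k) = a i (e k') := by
    intro i k k'
    rw [hb]
    simp only
    rw [← Fin.ext_iff, (Fintype.equivFin V).injective.eq_iff]
  have hnest : Nested d N b := by
    intro i h1 h2 x y hxy
    rw [hbeq] at hxy ⊢
    exact nest i h1 h2 _ (e x).2 _ (e y).2 hxy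
  have hpr : ∀ i, (univ.filter (fun p : Fin N × Fin N => b i p.1 = b i p.2)).card = prs S a i := by
    intro i
    unfold prs
    apply Finset.card_bij (fun p _ => ((e p.1 : V), (e p.2 : V)))
    · intro p hp
      have hp := (Finset.mem_filter.mp hp).2
      rw [hbeq] at hp
      exact Finset.mem_filter.mpr ⟨Finset.mem_product.mpr ⟨(e p.1).2, (e p.2).2⟩, hp⟩
    · intro p _ p' _ h
      simp only [Prod.mk.injEq] at h
      exact Prod.ext (e.injective (Subtype.ext h.1)) (e.injective (Subtype.ext h.2))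
    · rintro ⟨x, x'⟩ hp
      have hp := Finset.mem_filter.mp hp
      have hp1 := Finset.mem_product.mp hp.1
      refine ⟨(e.symm ⟨x, hp1.1⟩, e.symm ⟨x', hp1.2⟩), ?_, ?_⟩
      · refine Finset.mem_filter.mpr ⟨Finset.mem_univ _, ?_⟩
        rw [hbeq]
        simpa using hp.2
      · simp
  have him : ∀ i, (univ.image (b i)).card = (S.image (a i)).card := by
    intro i
    have h1 : univ.image (b i) = (S.image (a i)).image (fun v => (Fintype.equivFin V v).val) := by
      ext m
      simp only [Finset.mem_image, Finset.mem_univ, true_and, exists_exists_and_eq_and]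
      constructor
      · rintro ⟨k, rfl⟩; exact ⟨e k, (e k).2, rfl⟩
      · rintro ⟨x, hx, rfl⟩
        exact ⟨e.symm ⟨x, hx⟩, by rw [hb]; simp⟩
    rw [h1, Finset.card_image_of_injective]
    intro v v' h
    exact (Fintype.equivFin V).injective (Fin.ext h)
  have hcd := cd_le hN hnest
  set Pn : ℝ := (pairsSum d N b : ℝ) with hPn
  set Cn : ℝ := (cellsSum d N b : ℝ) with hCn
  have hP0 : 0 ≤ Pn := Nat.cast_nonneg _
  have hC0 : 0 ≤ Cn := Nat.cast_nonneg _
  have hR : ∑ i ∈ Icc 1 ((d - 1) / 2),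
      ((al d i : ℝ) / n * prs S a i + 2 * i * (S.image (a i)).card) = Pn / n + Cn := by
    rw [Finset.sum_add_distrib, hPn, hCn]
    unfold pairsSum cellsSum
    push_cast
    rw [Finset.sum_div]
    congr 1
    · apply Finset.sum_congr rfl
      intro i _
      rw [hpr]; ring
    · apply Finset.sum_congr rfl
      intro i _
      rw [him]
  rw [hR]
  have hNR : (0 : ℝ) < N := by exact_mod_cast hN
  have hsn : 0 < √n := Real.sqrt_pos.mpr hn
  calc cd d * (N / √n) ≤ (2 * √(Pn * Cn) / N) * (N / √n) :=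
        mul_le_mul_of_nonneg_right hcd (by positivity)
    _ = 2 * √(Pn * Cn) / √n := by field_simp
    _ ≤ Pn / n + Cn := by
        rw [div_le_iff₀ hsn]
        have h1 : 0 ≤ (Pn / n + Cn) * √n := by positivity
        have h2 : 4 * (Pn * Cn) ≤ ((Pn / n + Cn) * √n) ^ 2 := by
          rw [mul_pow, Real.sq_sqrt hn.le]
          have h3 : (Pn / n + Cn) ^ 2 * n = (Pn / n - Cn) ^ 2 * n + 4 * (Pn * Cn) := by
            field_simp; ring
          rw [h3]
          have : 0 ≤ (Pn / n - Cn) ^ 2 * n := by positivity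
          linarith
        have h3 : 2 * √(Pn * Cn) = √(4 * (Pn * Cn)) := by
          rw [Real.sqrt_mul (by norm_num : (0 : ℝ) ≤ 4)]
          congr 1
          rw [show (4 : ℝ) = 2 ^ 2 by norm_num, Real.sqrt_sq (by norm_num)]
        rw [h3]
        exact Real.sqrt_le_iff.mpr ⟨h1, h2⟩

end Pool.Agent.Lib.MP_b0a977_co.Sharp
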