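import Pool.Agent.Lib.MP_b0a977_co.Sharp.Mutual
import Pool.Agent.Lib.MP_b0a977_co.Sharp.Chain

/-!
# Fixed diameter: the assembly of the lower bound
-/

set_option linter.unusedSectionVars false

namespace Pool.Agent.Lib.MP_b0a977_co.Sharp

open Finset

namespace Met

variable {V : Type*} [Fintype V] [DecidableEq V] (M : Met V)

/-- the heights -/
def HH : Finset ℕ := Finset.Icc 1 ((M.d - 1) / 2)

lemma pair_cost_al (y x x' : V) :
    ∑ i ∈ M.HH.filter (fun i => M.anc y i x = M.anc y i x'), al M.d i ≤ M.df x x' := by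
  set F := M.HH.filter (fun i => M.anc y i x = M.anc y i x') with hF
  rcases F.eq_empty_or_nonempty with h0 | h0
  · rw [h0]; simp
  · set i := F.min' h0 with hi
    have h1 : i ∈ F := F.min'_mem h0
    rw [hF, HH, Finset.mem_filter, Finset.mem_Icc] at h1
    have h2 : F ⊆ Finset.Icc i ((M.d - 1) / 2) := by
      intro j hj
      rw [Finset.mem_Icc]
      refine ⟨F.min'_le j hj, ?_⟩
      rw [hF, HH, Finset.mem_filter, Finset.mem_Icc] at hj
      exact hj.1.2
    have h3 : ∑ i ∈ F, al M.d i ≤ M.d - 2 * i :=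
      (Finset.sum_le_sum_of_subset h2).trans (al_sum M.d i h1.1.1 h1.1.2)
    have h4 : M.δ x (M.anc y i x) ≤ i := M.anc_near
    have h5 : M.δ x' (M.anc y i x') ≤ i := M.anc_near
    have h6 := M.tri x (M.anc y i x) x'
    rw [M.symm (M.anc y i x) x', h1.2] at h6
    rw [h1.2] at h4
    have h7 := M.df_add x x'
    omega

lemma mem_core' {A D : ℝ} {y x : V} : x ∈ M.core' A D y ↔ x ∈ M.far A y ∧
    ∀ h ∈ Finset.Icc 1 ((M.d - 1) / 2), D ≤ ((M.kids A y h (M.anc y h x)).card : ℝ) := by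
  simp only [core', Finset.mem_filter]

lemma core'_sub {A D : ℝ} {y x : V} (hx : x ∈ M.core' A D y) :
    x ∈ M.typ A ∧ M.δ x y = M.d := by
  simp only [core', far, Finset.mem_filter] at hx
  exact hx.1

/-- the weight at which `p` is counted by `y` -/
noncomputable def Psi (A D : ℝ) (p : V × V) (y : V) : ℕ :=
  if p.1 ∈ M.core' A D y ∧ p.2 ∈ M.core' A D y then
    ∑ i ∈ M.HH.filter (fun i => M.anc y i p.1 = M.anc y i p.2), al M.d i else 0

lemma Psi_le (A D : ℝ) (p : V × V) (y : V) : M.Psi A D p y ≤ M.df p.1 p.2 := by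
  unfold Psi
  split_ifs
  · exact M.pair_cost_al y p.1 p.2
  · exact Nat.zero_le _

/-- the ancestor pairs and their reverses -/
noncomputable def UU (A D : ℝ) (h : ℕ) : Finset (V × V) :=
  M.EE A D h ∪ (M.EE A D h).image Prod.swap

lemma mem_UU {A D : ℝ} {h : ℕ} {p : V × V} :
    p ∈ M.UU A D h ↔ p ∈ M.EE A D h ∨ (p.2, p.1) ∈ M.EE A D h := by
  unfold UU
  rw [Finset.mem_union, Finset.mem_image]
  constructor
  · rintro (h1 | ⟨q, hq, rfl⟩)
    · exact Or.inl h1
    · exact Or.inr hq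
  · rintro (h1 | h1)
    · exact Or.inl h1
    · exact Or.inr ⟨(p.2, p.1), h1, rfl⟩

lemma UU_card (A D : ℝ) (h : ℕ) :
    (M.UU A D h).card + (M.OO A D h).card = 2 * (M.EE A D h).card := by
  unfold UU
  have h1 : M.OO A D h = M.EE A D h ∩ (M.EE A D h).image Prod.swap := by
    ext p
    unfold OO
    rw [Finset.mem_filter, Finset.mem_inter, Finset.mem_image]
    constructor
    · rintro ⟨h1, h2⟩; exact ⟨h1, (p.2, p.1), h2, rfl⟩
    · rintro ⟨h1, q, hq, rfl⟩; exact ⟨h1, hq⟩
  rw [h1, Finset.card_union_add_card_inter, Finset.card_image_of_injective _ Prod.swap_injective]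
  ring

lemma UU_df {A D : ℝ} {h : ℕ} (hh : h ∈ M.HH) {p : V × V} (hp : p ∈ M.UU A D h) :
    M.df p.1 p.2 = h := by
  have hh' := Finset.mem_Icc.mp hh
  rcases M.mem_UU.mp hp with h1 | h1
  · have h2 := (M.EE_prop (w := p.1) (y := p.2) hh h1).2.1
    unfold df; omega
  · have h2 := (M.EE_prop (w := p.2) (y := p.1) hh h1).2.1
    rw [M.symm] at h2
    unfold df; omega

lemma UU_disj (A D : ℝ) : (M.HH : Set ℕ).PairwiseDisjoint (M.UU A D) := by
  intro j hj j' hj' hne
  apply Finset.disjoint_left.mpr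
  intro p hp hp'
  exact hne ((M.UU_df hj hp).symm.trans (M.UU_df hj' hp'))

lemma EE_card (A D : ℝ) (h : ℕ) :
    (M.EE A D h).card = ∑ y ∈ M.typ A, ((M.core' A D y).image (M.anc y h)).card := by
  rw [Finset.card_eq_sum_card_fiberwise (f := fun p : V × V => p.2) (t := M.typ A)]
  · apply Finset.sum_congr rfl
    intro y hy
    apply Finset.card_bij (fun p _ => p.1)
    · intro p hp
      simp only [EE, Finset.mem_filter, Finset.mem_univ, true_and] at hp
      obtain ⟨⟨_, h2⟩, h3⟩ := hp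
      rw [h3] at h2
      exact h2
    · intro p hp p' hp' h
      exact Prod.ext h ((Finset.mem_filter.mp hp).2.trans (Finset.mem_filter.mp hp').2.symm)
    · intro w hw
      refine ⟨(w, y), ?_, rfl⟩
      simp only [EE, Finset.mem_filter, Finset.mem_univ, true_and]
      exact ⟨⟨hy, hw⟩, trivial⟩
  · intro p hp
    have hp := Finset.mem_coe.mp hp
    simp only [EE, Finset.mem_filter, Finset.mem_univ, true_and] at hp
    exact Finset.mem_coe.mpr hp.1

/-- the pairs counted by `Psi` -/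
lemma Psi_total (A D : ℝ) :
    ∑ p : V × V, ∑ y ∈ M.typ A, M.Psi A D p y
      = ∑ y ∈ M.typ A, ∑ i ∈ M.HH, al M.d i * prs (M.core' A D y) (M.anc y) i := by
  rw [Finset.sum_comm]
  apply Finset.sum_congr rfl
  intro y _
  have h1 : ∀ p : V × V, M.Psi A D p y = ∑ i ∈ M.HH,
      if (p ∈ (M.core' A D y ×ˢ M.core' A D y).filter (fun p => M.anc y i p.1 = M.anc y i p.2))
      then al M.d i else 0 := by
    intro p
    unfold Psi
    by_cases h2 : p.1 ∈ M.core' A D y ∧ p.2 ∈ M.core' A D y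
    · rw [if_pos h2, Finset.sum_filter]
      apply Finset.sum_congr rfl
      intro i _
      simp only [Finset.mem_filter, Finset.mem_product, h2, true_and, and_self]
    · rw [if_neg h2]
      symm
      apply Finset.sum_eq_zero
      intro i _
      rw [if_neg]
      intro h3
      exact h2 (Finset.mem_product.mp (Finset.mem_filter.mp h3).1)
  simp_rw [h1]
  rw [Finset.sum_comm]
  apply Finset.sum_congr rfl
  intro i _
  rw [← Finset.sum_filter, Finset.sum_const, smul_eq_mul, mul_comm]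
  unfold prs
  congr 2
  ext p
  simp

/-- the counted pairs inside the ancestor pairs -/
lemma Psi_UU (A D : ℝ) :
    ∑ p ∈ M.HH.biUnion (M.UU A D), ∑ y ∈ M.typ A, M.Psi A D p y
      ≤ 4 * ∑ j ∈ M.HH, ∑ i ∈ M.HH, (M.KC A D j i).card := by
  have hal : ∀ i, al M.d i ≤ 2 := by intro i; unfold al; split_ifs <;> omega
  -- the triples
  set T : ℕ → ℕ → Finset (V × V × V) := fun j i => univ.filter (fun t =>
    (t.1, t.2.1) ∈ M.UU A D j ∧ t.2.2 ∈ M.typ A ∧ t.1 ∈ M.core' A D t.2.2 ∧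
      t.2.1 ∈ M.core' A D t.2.2 ∧ M.anc t.2.2 i t.1 = M.anc t.2.2 i t.2.1) with hT
  have hTc : ∀ j i, (T j i).card ≤ 2 * (M.KC A D j i).card := by
    intro j i
    have h1 : T j i ⊆ M.KC A D j i ∪ (M.KC A D j i).image (fun t => (t.2.1, t.1, t.2.2)) := by
      rintro ⟨x, x', y⟩ ht
      rw [hT] at ht
      simp only [Finset.mem_filter, Finset.mem_univ, true_and] at ht
      obtain ⟨h2, _, h4, h5, h6⟩ := ht
      have h7 := M.core'_sub h4
      have h8 := M.core'_sub h5
      rcases M.mem_UU.mp h2 with h3 | h3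
      · apply Finset.mem_union_left
        simp only [KC, Finset.mem_filter, Finset.mem_univ, true_and]
        exact ⟨h3, h7.1, h7.2, h8.2, h6⟩
      · apply Finset.mem_union_right
        refine Finset.mem_image.mpr ⟨(x', x, y), ?_, rfl⟩
        simp only [KC, Finset.mem_filter, Finset.mem_univ, true_and]
        exact ⟨h3, h8.1, h8.2, h7.2, h6.symm⟩
    calc (T j i).card ≤ _ := Finset.card_le_card h1
      _ ≤ _ := Finset.card_union_le _ _
      _ ≤ (M.KC A D j i).card + (M.KC A D j i).card :=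
          Nat.add_le_add_left Finset.card_image_le _
      _ = _ := by ring
  have hfib : ∀ j i, (T j i).card = ∑ p ∈ M.UU A D j, ((M.typ A).filter (fun y =>
      p.1 ∈ M.core' A D y ∧ p.2 ∈ M.core' A D y ∧ M.anc y i p.1 = M.anc y i p.2)).card := by
    intro j i
    rw [Finset.card_eq_sum_card_fiberwise (f := fun t : V × V × V => (t.1, t.2.1))
      (t := M.UU A D j)]
    · apply Finset.sum_congr rfl
      rintro ⟨x, x'⟩ hp
      apply Finset.card_bij (fun t _ => t.2.2)
      · rintro ⟨z, z', y⟩ ht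
        obtain ⟨ht2, heq⟩ := Finset.mem_filter.mp ht
        rw [hT] at ht2
        simp only [Finset.mem_filter, Finset.mem_univ, true_and] at ht2
        simp only [Prod.mk.injEq] at heq
        obtain ⟨_, h3, h4, h5, h6⟩ := ht2
        rw [heq.1, heq.2] at *
        exact Finset.mem_filter.mpr ⟨h3, h4, h5, h6⟩
      · rintro ⟨z, z', y⟩ ht ⟨u, u', y'⟩ ht' heq
        have e1 := (Finset.mem_filter.mp ht).2
        have e2 := (Finset.mem_filter.mp ht').2
        simp only [Prod.mk.injEq] at e1 e2 heq ⊢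
        exact ⟨e1.1.trans e2.1.symm, e1.2.trans e2.2.symm, heq⟩
      · intro y hy
        obtain ⟨h3, h4, h5, h6⟩ := Finset.mem_filter.mp hy
        refine ⟨(x, x', y), ?_, rfl⟩
        refine Finset.mem_filter.mpr ⟨?_, rfl⟩
        rw [hT]
        simp only [Finset.mem_filter, Finset.mem_univ, true_and]
        exact ⟨hp, h3, h4, h5, h6⟩
    · rintro t ht
      have ht := Finset.mem_coe.mp ht
      rw [hT] at ht
      simp only [Finset.mem_filter, Finset.mem_univ, true_and] at ht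
      exact Finset.mem_coe.mpr ht.1
  have hPsi : ∀ p : V × V, ∑ y ∈ M.typ A, M.Psi A D p y
      ≤ 2 * ∑ i ∈ M.HH, ((M.typ A).filter (fun y =>
      p.1 ∈ M.core' A D y ∧ p.2 ∈ M.core' A D y ∧ M.anc y i p.1 = M.anc y i p.2)).card := by
    intro p
    have h1 : ∀ i, ((M.typ A).filter (fun y =>
      p.1 ∈ M.core' A D y ∧ p.2 ∈ M.core' A D y ∧ M.anc y i p.1 = M.anc y i p.2)).card
      = ∑ y ∈ M.typ A, if (p.1 ∈ M.core' A D y ∧ p.2 ∈ M.core' A D y ∧
        M.anc y i p.1 = M.anc y i p.2) then 1 else 0 := by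
      intro i; rw [Finset.card_filter]
    simp_rw [h1]
    rw [Finset.sum_comm, Finset.mul_sum]
    apply Finset.sum_le_sum
    intro y _
    unfold Psi
    split_ifs with h2
    · rw [Finset.sum_filter, Finset.mul_sum]
      apply Finset.sum_le_sum
      intro i _
      by_cases h3 : M.anc y i p.1 = M.anc y i p.2
      · rw [if_pos h3, if_pos ⟨h2.1, h2.2, h3⟩]
        have := hal i
        omega
      · rw [if_neg h3]; exact Nat.zero_le _
    · exact Nat.zero_le _
  calc ∑ p ∈ M.HH.biUnion (M.UU A D), ∑ y ∈ M.typ A, M.Psi A D p y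
      = ∑ j ∈ M.HH, ∑ p ∈ M.UU A D j, ∑ y ∈ M.typ A, M.Psi A D p y :=
        Finset.sum_biUnion (M.UU_disj A D)
    _ ≤ ∑ j ∈ M.HH, ∑ p ∈ M.UU A D j, 2 * ∑ i ∈ M.HH, ((M.typ A).filter (fun y =>
      p.1 ∈ M.core' A D y ∧ p.2 ∈ M.core' A D y ∧ M.anc y i p.1 = M.anc y i p.2)).card :=
        Finset.sum_le_sum fun j _ => Finset.sum_le_sum fun p _ => hPsi p
    _ = ∑ j ∈ M.HH, 2 * ∑ i ∈ M.HH, (T j i).card := by
        apply Finset.sum_congr rfl
        intro j _
        rw [← Finset.mul_sum, Finset.sum_comm]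
        congr 1
        apply Finset.sum_congr rfl
        intro i _
        rw [hfib]
    _ ≤ ∑ j ∈ M.HH, 2 * ∑ i ∈ M.HH, 2 * (M.KC A D j i).card := by
        apply Finset.sum_le_sum
        intro j _
        apply Nat.mul_le_mul_left
        exact Finset.sum_le_sum fun i _ => hTc j i
    _ = _ := by
        simp_rw [← Finset.mul_sum]
        ring

/-- the exact inequality over the naturals -/
lemma asm_nat (A D : ℝ) :
    Fintype.card V * ∑ h ∈ M.HH, h * (M.UU A D h).card
      + ∑ y ∈ M.typ A, ∑ i ∈ M.HH, al M.d i * prs (M.core' A D y) (M.anc y) i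
      ≤ Fintype.card V * M.Th + 4 * ∑ j ∈ M.HH, ∑ i ∈ M.HH, (M.KC A D j i).card := by
  have hTh : M.Th = ∑ p : V × V, M.df p.1 p.2 := by
    unfold Th cost
    rw [Fintype.sum_prod_type]
    exact Finset.sum_comm
  have h1 : ∑ h ∈ M.HH, h * (M.UU A D h).card = ∑ p ∈ M.HH.biUnion (M.UU A D), M.df p.1 p.2 := by
    rw [Finset.sum_biUnion (M.UU_disj A D)]
    apply Finset.sum_congr rfl
    intro h hh
    rw [Finset.sum_congr rfl (fun p hp => M.UU_df hh hp), Finset.sum_const, smul_eq_mul, mul_comm]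
  set U := M.HH.biUnion (M.UU A D) with hU
  have h2 : ∑ p : V × V, M.df p.1 p.2 = ∑ p ∈ U, M.df p.1 p.2 + ∑ p ∈ Uᶜ, M.df p.1 p.2 :=
    (Finset.sum_add_sum_compl U _).symm
  have h3 : ∑ p : V × V, ∑ y ∈ M.typ A, M.Psi A D p y
      = ∑ p ∈ U, ∑ y ∈ M.typ A, M.Psi A D p y + ∑ p ∈ Uᶜ, ∑ y ∈ M.typ A, M.Psi A D p y :=
    (Finset.sum_add_sum_compl U _).symm
  have h4 : ∑ p ∈ Uᶜ, ∑ y ∈ M.typ A, M.Psi A D p y ≤ Fintype.card V * ∑ p ∈ Uᶜ, M.df p.1 p.2 := by
    rw [Finset.mul_sum]
    apply Finset.sum_le_sum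
    intro p _
    calc ∑ y ∈ M.typ A, M.Psi A D p y ≤ ∑ y ∈ M.typ A, M.df p.1 p.2 :=
          Finset.sum_le_sum fun y _ => M.Psi_le A D p y
      _ = (M.typ A).card * M.df p.1 p.2 := by rw [Finset.sum_const, smul_eq_mul]
      _ ≤ _ := Nat.mul_le_mul_right _ (Finset.card_le_univ _)
  rw [← M.Psi_total A D, h3, h1, hTh, h2, Nat.mul_add]
  have h5 := M.Psi_UU A D
  rw [← hU] at h5
  omega

/-- the assembled inequality -/
theorem asm (A D : ℝ) (hn : 0 < Fintype.card V) :
    cd M.d / √(Fintype.card V : ℝ) * ∑ y ∈ M.typ A, ((M.core' A D y).card : ℝ)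
      ≤ M.Th + ∑ h ∈ M.HH, h * ((M.OO A D h).card : ℝ)
        + 4 / (Fintype.card V : ℝ) * ∑ j ∈ M.HH, ∑ i ∈ M.HH, ((M.KC A D j i).card : ℝ) := by
  set n : ℝ := (Fintype.card V : ℝ) with hndef
  have hn0 : (0 : ℝ) < n := by rw [hndef]; exact_mod_cast hn
  -- chain bound
  have h1 : ∀ y ∈ M.typ A, cd M.d / √n * ((M.core' A D y).card : ℝ)
      ≤ ∑ i ∈ M.HH, ((al M.d i : ℝ) / n * prs (M.core' A D y) (M.anc y) i
        + 2 * i * ((M.core' A D y).image (M.anc y i)).card) := by
    intro y _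
    have h2 := cd_bound M.d (M.core' A D y) (M.anc y) n hn0 (by
      intro i _ _ x hx x' hx' heq
      have h3 := M.df_zero (M.core'_sub hx).2
      have h4 := M.df_zero (M.core'_sub hx').2
      exact M.anc_nest (by omega) (by omega) (by omega) heq)
    calc _ = cd M.d * (((M.core' A D y).card : ℝ) / √n) := by ring
      _ ≤ _ := h2
  have h2 : cd M.d / √n * ∑ y ∈ M.typ A, ((M.core' A D y).card : ℝ)
      ≤ ∑ y ∈ M.typ A, ∑ i ∈ M.HH, ((al M.d i : ℝ) / n * prs (M.core' A D y) (M.anc y) i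
        + 2 * i * ((M.core' A D y).image (M.anc y i)).card) := by
    rw [Finset.mul_sum]
    exact Finset.sum_le_sum h1
  refine h2.trans ?_
  have h3 : ∑ y ∈ M.typ A, ∑ i ∈ M.HH, ((al M.d i : ℝ) / n * prs (M.core' A D y) (M.anc y) i
        + 2 * i * ((M.core' A D y).image (M.anc y i)).card)
      = (∑ y ∈ M.typ A, ∑ i ∈ M.HH, (al M.d i : ℝ) * prs (M.core' A D y) (M.anc y) i) / n
        + ∑ i ∈ M.HH, 2 * (i : ℝ) * ((M.EE A D i).card : ℝ) := by
    simp_rw [Finset.sum_add_distrib]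
    congr 1
    · rw [Finset.sum_div]
      apply Finset.sum_congr rfl
      intro y _
      rw [Finset.sum_div]
      apply Finset.sum_congr rfl
      intro i _
      ring
    · rw [Finset.sum_comm]
      apply Finset.sum_congr rfl
      intro i _
      rw [M.EE_card, ← Finset.mul_sum]
      push_cast
      rfl
  rw [h3]
  have h4 : ∑ i ∈ M.HH, 2 * (i : ℝ) * ((M.EE A D i).card : ℝ)
      = ∑ h ∈ M.HH, (h : ℝ) * ((M.UU A D h).card : ℝ) + ∑ h ∈ M.HH, (h : ℝ) * ((M.OO A D h).card : ℝ) := by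
    rw [← Finset.sum_add_distrib]
    apply Finset.sum_congr rfl
    intro h _
    have h5 : ((M.UU A D h).card : ℝ) + ((M.OO A D h).card : ℝ) = 2 * ((M.EE A D h).card : ℝ) := by
      exact_mod_cast M.UU_card A D h
    calc _ = (h : ℝ) * (2 * ((M.EE A D h).card : ℝ)) := by ring
      _ = _ := by rw [← h5]; ring
  rw [h4]
  have h5 : n * ∑ h ∈ M.HH, (h : ℝ) * ((M.UU A D h).card : ℝ)
      + ∑ y ∈ M.typ A, ∑ i ∈ M.HH, (al M.d i : ℝ) * prs (M.core' A D y) (M.anc y) i
      ≤ n * M.Th + 4 * ∑ j ∈ M.HH, ∑ i ∈ M.HH, ((M.KC A D j i).card : ℝ) := by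
    rw [hndef]; exact_mod_cast M.asm_nat A D
  have h6 : ∑ h ∈ M.HH, (h : ℝ) * ((M.UU A D h).card : ℝ)
      + (∑ y ∈ M.typ A, ∑ i ∈ M.HH, (al M.d i : ℝ) * prs (M.core' A D y) (M.anc y) i) / n
      ≤ M.Th + 4 / n * ∑ j ∈ M.HH, ∑ i ∈ M.HH, ((M.KC A D j i).card : ℝ) := by
    have h7 : n * (∑ h ∈ M.HH, (h : ℝ) * ((M.UU A D h).card : ℝ)
        + (∑ y ∈ M.typ A, ∑ i ∈ M.HH, (al M.d i : ℝ) * prs (M.core' A D y) (M.anc y) i) / n)
        ≤ n * (M.Th + 4 / n * ∑ j ∈ M.HH, ∑ i ∈ M.HH, ((M.KC A D j i).card : ℝ)) := by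
      have e1 : ∀ X Y : ℝ, n * (X + Y / n) = n * X + Y := by intro X Y; field_simp
      have e2 : ∀ X Y : ℝ, n * (X + 4 / n * Y) = n * X + 4 * Y := by intro X Y; field_simp
      rw [e1, e2]
      exact h5
    exact le_of_mul_le_mul_left h7 hn0
  linarith

/-- few far points are outside the core -/
lemma core'_card (A D : ℝ) (hD : 0 ≤ D) (y : V) (hy : y ∈ M.typ A) :
    ((M.typ A).card : ℝ) - M.cost y - D * A ≤ ((M.core' A D y).card : ℝ) := by
  classical
  have hcy := M.mem_typ.mp hy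
  -- the far points
  have h1 : (M.typ A).card ≤ (M.far A y).card + M.cost y := by
    have h2 : (M.typ A).card = (M.far A y).card
        + ((M.typ A).filter (fun x => ¬ M.δ x y = M.d)).card := by
      unfold far
      exact (Finset.card_filter_add_card_filter_not _).symm
    have h3 : ((M.typ A).filter (fun x => ¬ M.δ x y = M.d)).card ≤ M.cost y := by
      calc _ = ∑ x ∈ (M.typ A).filter (fun x => ¬ M.δ x y = M.d), 1 := by simp
        _ ≤ ∑ x ∈ (M.typ A).filter (fun x => ¬ M.δ x y = M.d), M.df x y := by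
            apply Finset.sum_le_sum
            intro x hx
            have h4 := (Finset.mem_filter.mp hx).2
            have h5 := M.le x y
            unfold df; omega
        _ ≤ _ := Finset.sum_le_sum_of_subset (Finset.subset_univ _)
    omega
  -- the far points outside the core
  have hsub : M.core' A D y ⊆ M.far A y := fun x hx => (M.mem_core'.mp hx).1
  set B := M.far A y \ M.core' A D y with hB
  have h2 : (M.far A y).card = (M.core' A D y).card + B.card := by
    rw [hB, Finset.card_sdiff_of_subset hsub]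
    have := Finset.card_le_card hsub
    omega
  set W : ℕ → Finset V := fun h => univ.filter (fun w => M.df w y = h ∧
    ¬ D ≤ ((M.kids A y h w).card : ℝ)) with hW
  have h3 : (B.card : ℝ) ≤ D * M.cost y := by
    have h4 : B ⊆ M.HH.biUnion (fun h => (W h).biUnion (fun w => M.kids A y h w)) := by
      intro x hx
      obtain ⟨hx1, hx2⟩ := Finset.mem_sdiff.mp hx
      have hx2' : ¬ ∀ h ∈ Finset.Icc 1 ((M.d - 1) / 2),
          D ≤ ((M.kids A y h (M.anc y h x)).card : ℝ) := by
        intro hall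
        exact hx2 (M.mem_core'.mpr ⟨hx1, hall⟩)
      push Not at hx2'
      obtain ⟨h, hh, hlt⟩ := hx2'
      have hx3 : M.δ x y = M.d := (Finset.mem_filter.mp hx1).2
      refine Finset.mem_biUnion.mpr ⟨h, hh, Finset.mem_biUnion.mpr ⟨M.anc y h x, ?_, ?_⟩⟩
      · rw [hW]
        refine Finset.mem_filter.mpr ⟨Finset.mem_univ _, ?_, not_le.mpr hlt⟩
        apply M.anc_df
        · rw [M.df_zero hx3]; omega
        · have := Finset.mem_Icc.mp hh; omega
      · exact Finset.mem_filter.mpr ⟨hx1, rfl⟩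
    have h5 : (B.card : ℝ) ≤ ∑ h ∈ M.HH, ∑ w ∈ W h, ((M.kids A y h w).card : ℝ) := by
      have h6 : B.card ≤ ∑ h ∈ M.HH, ∑ w ∈ W h, (M.kids A y h w).card := by
        refine (Finset.card_le_card h4).trans ?_
        refine Finset.card_biUnion_le.trans ?_
        exact Finset.sum_le_sum fun h _ => Finset.card_biUnion_le
      exact_mod_cast h6
    refine h5.trans ?_
    have h6 : ∑ h ∈ M.HH, ∑ w ∈ W h, ((M.kids A y h w).card : ℝ)
        ≤ ∑ h ∈ M.HH, D * ((h * (W h).card : ℕ) : ℝ) := by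
      apply Finset.sum_le_sum
      intro h hh
      have hh1 := (Finset.mem_Icc.mp hh).1
      calc ∑ w ∈ W h, ((M.kids A y h w).card : ℝ) ≤ ∑ w ∈ W h, D := by
            apply Finset.sum_le_sum
            intro w hw
            rw [hW] at hw
            exact (not_le.mp (Finset.mem_filter.mp hw).2.2).le
        _ = D * ((1 * (W h).card : ℕ) : ℝ) := by
            rw [Finset.sum_const, nsmul_eq_mul, one_mul, mul_comm]
        _ ≤ _ := by
            apply mul_le_mul_of_nonneg_left _ hD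
            exact_mod_cast Nat.mul_le_mul_right _ hh1
    refine h6.trans ?_
    rw [← Finset.mul_sum]
    apply mul_le_mul_of_nonneg_left _ hD
    have h7 := M.level_cost y univ M.HH W (by
      intro h _ w hw
      rw [hW] at hw
      exact ⟨(Finset.mem_filter.mp hw).2.1, Finset.mem_univ _⟩)
    exact_mod_cast h7
  have h4 : D * M.cost y ≤ D * A := mul_le_mul_of_nonneg_left hcy hD
  have h5 : ((M.typ A).card : ℝ) ≤ ((M.core' A D y).card : ℝ) + B.card + M.cost y := by
    rw [h2] at h1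
    exact_mod_cast h1
  linarith

/-- the total size of the cores -/
lemma core'_total (A D : ℝ) (hA : 0 ≤ A) (hD : 0 ≤ D) :
    ((M.typ A).card : ℝ) ^ 2 - M.Th - (Fintype.card V : ℝ) * (D * A)
      ≤ ∑ y ∈ M.typ A, ((M.core' A D y).card : ℝ) := by
  have h1 : ∑ y ∈ M.typ A, (((M.typ A).card : ℝ) - M.cost y - D * A)
      ≤ ∑ y ∈ M.typ A, ((M.core' A D y).card : ℝ) :=
    Finset.sum_le_sum fun y hy => M.core'_card A D hD y hy
  refine le_trans ?_ h1
  rw [Finset.sum_sub_distrib, Finset.sum_sub_distrib, Finset.sum_const, Finset.sum_const,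
    nsmul_eq_mul, nsmul_eq_mul]
  have h2 : ∑ y ∈ M.typ A, (M.cost y : ℝ) ≤ M.Th := by
    unfold Th
    push_cast
    exact Finset.sum_le_sum_of_subset_of_nonneg (Finset.subset_univ _)
      (fun _ _ _ => Nat.cast_nonneg _)
  have h3 : ((M.typ A).card : ℝ) * (D * A) ≤ (Fintype.card V : ℝ) * (D * A) := by
    apply mul_le_mul_of_nonneg_right _ (by positivity)
    exact_mod_cast Finset.card_le_univ _
  nlinarith

/-- few points are not typical -/
lemma typ_card (A : ℝ) (hA : 0 < A) : (Fintype.card V : ℝ) - M.Th / A ≤ ((M.typ A).card : ℝ) := by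
  have h1 : A * (((M.typ A)ᶜ).card : ℝ) ≤ M.Th := by
    calc A * (((M.typ A)ᶜ).card : ℝ) = ∑ y ∈ (M.typ A)ᶜ, A := by
          rw [Finset.sum_const, nsmul_eq_mul, mul_comm]
      _ ≤ ∑ y ∈ (M.typ A)ᶜ, (M.cost y : ℝ) := by
          apply Finset.sum_le_sum
          intro y hy
          rw [Finset.mem_compl, mem_typ, not_le] at hy
          exact hy.le
      _ ≤ ∑ y : V, (M.cost y : ℝ) := Finset.sum_le_sum_of_subset_of_nonneg (Finset.subset_univ _)
          (fun _ _ _ => Nat.cast_nonneg _)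
      _ = _ := by unfold Th; push_cast; rfl
  have h2 : ((M.typ A).card : ℝ) + (((M.typ A)ᶜ).card : ℝ) = Fintype.card V := by
    exact_mod_cast Finset.card_add_card_compl (M.typ A)
  have h3 : (((M.typ A)ᶜ).card : ℝ) ≤ M.Th / A := by
    rw [le_div_iff₀ hA, mul_comm]; exact h1
  linarith

end Met

end Pool.Agent.Lib.MP_b0a977_co.Sharp
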