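import Pool.Agent.Lib.MP_b0a977_co.Sharp.Core
import Pool.Agent.Lib.MP_b0a977_co.Sharp.Iface

/-!
# The lower bound for the deficiency
-/

namespace Pool.Agent.Lib.MP_b0a977_co.Sharp

open Finset

lemma kappa_le_one : kappa ≤ 1 := by
  have h1 := kappa_sq
  have h2 := kappa_pos
  have h3 := s7_bd.1
  nlinarith

/-- the lower bound with an explicit error -/
lemma lb_met {V : Type*} [Fintype V] [DecidableEq V] (M : Met V) (p : ℕ) (hp : 200 ≤ p)
    (hd : p ≤ M.d) (s t : ℝ) (hs : 0 < s) (ht : 0 < t) (hs2 : s ^ 2 = M.d)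
    (ht2 : t ^ 2 = (Fintype.card V : ℝ)) (hst : (p : ℝ) ^ 10 * s ≤ t) :
    (kappa - 103 / p) * (s ^ 3 * t ^ 3) ≤ M.Th := by
  have hp0 : (0 : ℝ) < p := by positivity
  have hp200 : (200 : ℝ) ≤ p := by exact_mod_cast hp
  have hk1 := kappa_le_one
  have hk0 := kappa_pos
  by_cases hbig : s ^ 3 * t ^ 3 ≤ M.Th
  · refine le_trans ?_ hbig
    have h1 : 0 ≤ s ^ 3 * t ^ 3 := by positivity
    have h2 : kappa - 103 / p ≤ 1 := by
      have : (0 : ℝ) ≤ 103 / p := by positivity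
      linarith
    calc _ ≤ 1 * (s ^ 3 * t ^ 3) := mul_le_mul_of_nonneg_right h2 h1
      _ = _ := one_mul _
  have hTh : (M.Th : ℝ) ≤ s ^ 3 * t ^ 3 := (not_le.mp hbig).le
  have hTh0 : (0 : ℝ) ≤ M.Th := Nat.cast_nonneg _
  have hn : 0 < Fintype.card V := by
    have : (0 : ℝ) < (Fintype.card V : ℝ) := by rw [← ht2]; positivity
    exact_mod_cast this
  -- the scale `e`
  set e : ℕ := M.d / p with he
  have he1 : 1 ≤ e := by
    rw [he]; exact Nat.div_pos hd (by omega)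
  have hep : e * p ≤ M.d := Nat.div_mul_le_self _ _
  have hdp : M.d < e * p + p := Nat.lt_div_mul_add (by omega)
  have hd2 : M.d < 2 * (e * p) := by
    have : p ≤ e * p := Nat.le_mul_of_pos_left p he1
    omega
  have he0 : (0 : ℝ) < e := by exact_mod_cast he1
  have hepR : (e : ℝ) * p ≤ s ^ 2 := by rw [hs2]; exact_mod_cast hep
  have hd2R : s ^ 2 ≤ 2 * (e * p) := by
    rw [hs2]
    have : (M.d : ℝ) < 2 * (e * p) := by exact_mod_cast hd2
    exact this.le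
  -- the height `H`
  set H : ℕ := M.d / 2 - 22 * e with hH
  have h44 : 44 * e ≤ M.d := by
    calc 44 * e = e * 44 := by ring
      _ ≤ e * p := Nat.mul_le_mul_left e (by omega)
      _ ≤ M.d := hep
  have hHd : 2 * H + 44 * e ≤ M.d := by omega
  have hH1 : M.d ≤ 2 * H + 44 * e + 1 := by omega
  have hHe : H / e + 1 ≤ p := by
    have h1 : H < p * e := by
      have : 2 * H < 2 * (p * e) := by
        rw [mul_comm p e]; omega
      omega
    have h2 : H / e < p := (Nat.div_lt_iff_lt_mul (by omega)).mpr h1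
    omega
  -- the parameters
  set D : ℝ := s * t / p ^ 3 with hD
  set T : ℝ := s ^ 3 * t * p with hT
  set F : ℝ := t ^ 2 / p ^ 2 with hF
  have hD0 : 0 < D := by positivity
  have hT0 : 0 < T := by positivity
  have hF0 : 0 ≤ F := by positivity
  have he2 : s ^ 4 ≤ 4 * p ^ 2 * (e : ℝ) ^ 2 := by
    have : (s ^ 2) ^ 2 ≤ (2 * (e * p)) ^ 2 := pow_le_pow_left₀ (by positivity) hd2R 2
    calc s ^ 4 = (s ^ 2) ^ 2 := by ring
      _ ≤ _ := this
      _ = _ := by ring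
  have hFF : T * M.Th ≤ F ^ 2 * (20 * (e : ℝ) ^ 2 * D) := by
    have h1 : T * M.Th ≤ T * (s ^ 3 * t ^ 3) := mul_le_mul_of_nonneg_left hTh hT0.le
    refine h1.trans ?_
    have h2 : F ^ 2 * (20 * (e : ℝ) ^ 2 * D) = 5 * (4 * p ^ 2 * (e : ℝ) ^ 2) * (s * t ^ 5) / p ^ 9 := by
      rw [hF, hD]; field_simp; ring
    rw [h2, le_div_iff₀ (by positivity)]
    calc T * (s ^ 3 * t ^ 3) * p ^ 9 = (s ^ 5 * t ^ 4) * (p ^ 10 * s) := by rw [hT]; ring
      _ ≤ (s ^ 5 * t ^ 4) * t := mul_le_mul_of_nonneg_left hst (by positivity)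
      _ ≤ 5 * (s ^ 4) * (s * t ^ 5) := by
          have : 0 ≤ s ^ 5 * t ^ 5 := by positivity
          nlinarith
      _ ≤ _ := by
          apply mul_le_mul_of_nonneg_right _ (by positivity)
          linarith
  have hcore := M.core e he1 D T F hD0 hT0 hF0 H hHd hFF hn
  rw [← ht2, Real.sqrt_sq ht.le] at hcore
  -- the error terms
  have hTe : (M.Th : ℝ) / e ≤ t ^ 4 / p := by
    rw [div_le_div_iff₀ he0 hp0]
    calc (M.Th : ℝ) * p ≤ (s ^ 3 * t ^ 3) * p := mul_le_mul_of_nonneg_right hTh hp0.le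
      _ = (s * t ^ 3 * p) * s ^ 2 := by ring
      _ ≤ (s * t ^ 3 * p) * (2 * (e * p)) := mul_le_mul_of_nonneg_left hd2R (by positivity)
      _ = (t ^ 3 * e) * (2 * p ^ 2 * s) := by ring
      _ ≤ (t ^ 3 * e) * (p ^ 10 * s) := by
          apply mul_le_mul_of_nonneg_left _ (by positivity)
          apply mul_le_mul_of_nonneg_right _ hs.le
          have h8 : (2 : ℝ) ≤ p ^ 8 := by
            calc (2 : ℝ) ≤ p := by linarith
              _ = p ^ 1 := (pow_one _).symm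
              _ ≤ p ^ 8 := pow_le_pow_right₀ (by linarith) (by norm_num)
          calc 2 * (p : ℝ) ^ 2 ≤ p ^ 8 * p ^ 2 := mul_le_mul_of_nonneg_right h8 (by positivity)
            _ = _ := by ring
      _ ≤ (t ^ 3 * e) * t := mul_le_mul_of_nonneg_left hst (by positivity)
      _ = t ^ 4 * e := by ring
  have hZ : t ^ 2 * (M.thin e D).card ≤ 5 * (t ^ 4 / p) := by
    have h1 := M.thin_total e D hD0.le (by omega)
    rw [← ht2] at h1
    have h2 : (D + e) * M.Th ≤ (e : ℝ) ^ 2 * (5 * (t ^ 4 / p)) := by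
      have h3 : D * M.Th ≤ (e : ℝ) ^ 2 * (4 * (t ^ 4 / p)) := by
        calc D * M.Th ≤ D * (s ^ 3 * t ^ 3) := mul_le_mul_of_nonneg_left hTh hD0.le
          _ = s ^ 4 * (t ^ 4 / p ^ 3) := by rw [hD]; ring
          _ ≤ (4 * p ^ 2 * (e : ℝ) ^ 2) * (t ^ 4 / p ^ 3) :=
              mul_le_mul_of_nonneg_right he2 (by positivity)
          _ = _ := by field_simp
      have h4 : (e : ℝ) * M.Th ≤ (e : ℝ) ^ 2 * (t ^ 4 / p) := by
        have h5 : (e : ℝ) * M.Th = e ^ 2 * (M.Th / e) := by field_simp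
        rw [h5]
        exact mul_le_mul_of_nonneg_left hTe (by positivity)
      calc (D + e) * M.Th = D * M.Th + e * M.Th := by ring
        _ ≤ (e : ℝ) ^ 2 * (4 * (t ^ 4 / p)) + (e : ℝ) ^ 2 * (t ^ 4 / p) := add_le_add h3 h4
        _ = _ := by ring
    have h3 : (0 : ℝ) < (e : ℝ) ^ 2 := by positivity
    exact le_of_mul_le_mul_left (h1.trans h2) h3
  have hTT : t ^ 2 * (M.Th / T) ≤ t ^ 4 / p := by
    have h1 : (M.Th : ℝ) / T ≤ (s ^ 3 * t ^ 3) / T := div_le_div_of_nonneg_right hTh hT0.le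
    calc t ^ 2 * (M.Th / T) ≤ t ^ 2 * ((s ^ 3 * t ^ 3) / T) :=
          mul_le_mul_of_nonneg_left h1 (by positivity)
      _ = t ^ 4 / p := by rw [hT]; field_simp
  have hFt : t ^ 2 * (((H / e + 1 : ℕ) : ℝ) * F) ≤ t ^ 4 / p := by
    have h1 : ((H / e + 1 : ℕ) : ℝ) ≤ p := by exact_mod_cast hHe
    calc t ^ 2 * (((H / e + 1 : ℕ) : ℝ) * F) ≤ t ^ 2 * (p * F) := by
          apply mul_le_mul_of_nonneg_left _ (by positivity)
          exact mul_le_mul_of_nonneg_right h1 hF0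
      _ = t ^ 4 / p := by rw [hF]; field_simp
  -- the main term
  set u : ℝ := 1 - 45 / p with hu
  have hu0 : 0 < u := by
    rw [hu, sub_pos, div_lt_one hp0]; linarith
  have hu1 : u ≤ 1 := by
    rw [hu]
    have : (0 : ℝ) ≤ 45 / p := by positivity
    linarith
  have hHu : u * s ^ 2 ≤ 2 * H := by
    have h1 : (M.d : ℝ) ≤ 2 * H + 44 * e + 1 := by exact_mod_cast hH1
    rw [← hs2] at h1
    have h2 : (e : ℝ) ≤ s ^ 2 / p := by rw [le_div_iff₀ hp0]; exact hepR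
    have h3 : (1 : ℝ) ≤ s ^ 2 / p := by
      rw [le_div_iff₀ hp0, one_mul, hs2]; exact_mod_cast hd
    have h4 : u * s ^ 2 = s ^ 2 - 45 * (s ^ 2 / p) := by rw [hu]; ring
    rw [h4]; linarith
  have hH0 : (0 : ℝ) ≤ H := Nat.cast_nonneg _
  have hsq : 2 * u * s ≤ √8 * √(H : ℝ) := by
    rw [← Real.sqrt_mul (by norm_num : (0 : ℝ) ≤ 8)]
    apply Real.le_sqrt_of_sq_le
    calc (2 * u * s) ^ 2 = 4 * u * (u * s ^ 2) := by ring
      _ ≤ 4 * u * (2 * H) := mul_le_mul_of_nonneg_left hHu (by positivity)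
      _ ≤ 4 * 1 * (2 * H) := by
          apply mul_le_mul_of_nonneg_right _ (by positivity)
          linarith
      _ = 8 * H := by ring
  have hmain : kappa * (u ^ 2 * s ^ 3) ≤ Cs * (H * √(H : ℝ)) := by
    rw [Cs_eq]
    calc kappa * (u ^ 2 * s ^ 3) = kappa * ((u * s ^ 2) / 2 * (2 * u * s)) := by ring
      _ ≤ kappa * (H * (√8 * √(H : ℝ))) := by
          apply mul_le_mul_of_nonneg_left _ hk0.le
          apply mul_le_mul _ hsq (by positivity) hH0
          linarith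
      _ = _ := by ring
  have hX : t ^ 3 * (1 - 13 / p) ≤ ((t ^ 2) ^ 2 - 2 * (t ^ 2 * (M.thin e D).card) - t ^ 2 * (M.Th / T)
      - t ^ 2 * (((H / e + 1 : ℕ) : ℝ) * F) - M.Th / e) / t := by
    rw [le_div_iff₀ ht]
    have h1 : t ^ 3 * (1 - 13 / p) * t = t ^ 4 - 13 * (t ^ 4 / p) := by ring
    rw [h1]
    have h2 : (t ^ 2) ^ 2 = t ^ 4 := by ring
    rw [h2]
    linarith
  have h13 : (0 : ℝ) ≤ 1 - 13 / p := by
    rw [sub_nonneg, div_le_one hp0]; linarith
  have hfin : kappa * (u ^ 2 * s ^ 3) * (t ^ 3 * (1 - 13 / p)) ≤ M.Th := by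
    refine le_trans ?_ hcore
    apply mul_le_mul hmain hX (by positivity)
    have := Cs_pos
    positivity
  refine le_trans ?_ hfin
  -- `κ - 103/p ≤ κ u² (1 - 13/p)`
  have h1 : kappa - 103 / p ≤ kappa * (u ^ 2 * (1 - 13 / p)) := by
    have h2 : 1 - 90 / p ≤ u ^ 2 := by
      rw [hu]
      have : (1 - 45 / (p : ℝ)) ^ 2 = 1 - 90 / p + (45 / p) ^ 2 := by ring
      rw [this]
      have := sq_nonneg (45 / (p : ℝ))
      linarith
    have h3 : 1 - 103 / (p : ℝ) ≤ u ^ 2 * (1 - 13 / p) := by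
      have h4 : (1 - 90 / (p : ℝ)) * (1 - 13 / p) ≤ u ^ 2 * (1 - 13 / p) :=
        mul_le_mul_of_nonneg_right h2 h13
      have h5 : (1 - 90 / (p : ℝ)) * (1 - 13 / p) = 1 - 103 / p + (90 / p) * (13 / p) := by ring
      have h6 : (0 : ℝ) ≤ (90 / p) * (13 / p) := by positivity
      linarith
    have h4 : kappa * (1 - 103 / (p : ℝ)) ≤ kappa * (u ^ 2 * (1 - 13 / p)) :=
      mul_le_mul_of_nonneg_left h3 hk0.le
    have h5 : kappa * (103 / (p : ℝ)) ≤ 1 * (103 / p) :=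
      mul_le_mul_of_nonneg_right hk1 (by positivity)
    linarith
  calc (kappa - 103 / p) * (s ^ 3 * t ^ 3) ≤ kappa * (u ^ 2 * (1 - 13 / p)) * (s ^ 3 * t ^ 3) :=
        mul_le_mul_of_nonneg_right h1 (by positivity)
    _ = _ := by ring

/-- the lower bound for the deficiency -/
theorem lb : LBS := by
  intro ε hε
  obtain ⟨p, hp, hpε⟩ : ∃ p : ℕ, 200 ≤ p ∧ 103 / (p : ℝ) ≤ ε := by
    obtain ⟨p0, hp0⟩ := exists_nat_gt (103 / ε)
    refine ⟨p0 + 200, by omega, ?_⟩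
    rw [div_le_iff₀ (by positivity)]
    rw [div_lt_iff₀ hε] at hp0
    push_cast
    nlinarith
  refine ⟨p ^ 20, fun n d hKd hKn G hc hd => ?_⟩
  obtain ⟨M, hM1, hM2⟩ := exists_met G hc d hd
  have hpd : p ≤ d := by
    exact (Nat.le_self_pow (by norm_num) p).trans hKd
  have hd0 : 0 < d := by omega
  have hn0 : 0 < n := by
    have : 0 < p ^ 20 * d := Nat.mul_pos (by positivity) hd0
    omega
  have hd0R : (0 : ℝ) < d := by exact_mod_cast hd0
  have hn0R : (0 : ℝ) < n := by exact_mod_cast hn0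
  have h1 := lb_met M p (by omega) (by rw [hM2]; exact hpd) √(d : ℝ) √(n : ℝ)
    (Real.sqrt_pos.mpr hd0R) (Real.sqrt_pos.mpr hn0R) (by rw [Real.sq_sqrt hd0R.le, hM2])
    (by rw [Real.sq_sqrt hn0R.le, Fintype.card_fin]) (by
      have h2 : (p : ℝ) ^ 10 * √(d : ℝ) = √((p : ℝ) ^ 20 * d) := by
        rw [Real.sqrt_mul (by positivity)]
        congr 1
        rw [show (p : ℝ) ^ 20 = (p ^ 10) ^ 2 by ring, Real.sqrt_sq (by positivity)]
      rw [h2]
      apply Real.sqrt_le_sqrt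
      exact_mod_cast hKn)
  rw [Met.Th_eq, hM1, hM2] at h1
  refine le_trans ?_ h1
  have h2 : √(d : ℝ) ^ 3 * √(n : ℝ) ^ 3 = (d * n) * √(d * n : ℝ) := by
    rw [Real.sqrt_mul hd0R.le]
    have h3 : √(d : ℝ) ^ 3 = d * √(d : ℝ) := by
      rw [pow_succ, Real.sq_sqrt hd0R.le]
    have h4 : √(n : ℝ) ^ 3 = n * √(n : ℝ) := by
      rw [pow_succ, Real.sq_sqrt hn0R.le]
    rw [h3, h4]; ring
  rw [h2, mul_assoc]
  apply mul_le_mul_of_nonneg_right _ (by positivity)
  linarith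

end Pool.Agent.Lib.MP_b0a977_co.Sharp
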