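import Pool.Agent.Lib.MP_b0a977_co.Sharp.LbD
import Pool.Agent.Lib.MP_b0a977_co.Sharp.LB
import Pool.Agent.Lib.MP_b0a977_co.H62.Ub

/-!
# Facts on the constants `c_d`
-/

namespace Pool.Agent.Lib.MP_b0a977_co.Sharp

open Finset

/-- Cauchy-Schwarz for the classes of a partition -/
lemma pairs_cells {N : ℕ} (f : Fin N → ℕ) :
    (N : ℝ) ^ 2 ≤ ((univ.filter (fun p : Fin N × Fin N => f p.1 = f p.2)).card : ℝ)
      * ((univ.image f).card : ℝ) := by
  have h1 : (N : ℝ) = ∑ c ∈ univ.image f, ((univ.filter (fun x => f x = c)).card : ℝ) := by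
    have := Finset.card_eq_sum_card_image f (univ : Finset (Fin N))
    rw [Finset.card_univ, Fintype.card_fin] at this
    exact_mod_cast this
  have h2 : ((univ.filter (fun p : Fin N × Fin N => f p.1 = f p.2)).card : ℝ)
      = ∑ c ∈ univ.image f, ((univ.filter (fun x => f x = c)).card : ℝ) ^ 2 := by
    have h3 : (univ.filter (fun p : Fin N × Fin N => f p.1 = f p.2)).card
        = ∑ c ∈ univ.image f, (univ.filter (fun x => f x = c)).card ^ 2 := by
      rw [Finset.card_eq_sum_card_fiberwise (f := fun p : Fin N × Fin N => f p.1)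
        (t := univ.image f)]
      · apply Finset.sum_congr rfl
        intro c _
        rw [sq, ← Finset.card_product]
        congr 1
        ext ⟨x, y⟩
        simp only [Finset.mem_product, Finset.mem_filter, Finset.mem_univ, true_and]
        constructor
        · rintro ⟨h1, h2⟩; exact ⟨h2, h1 ▸ h2⟩
        · rintro ⟨h1, h2⟩; exact ⟨h1.trans h2.symm, h1⟩
      · intro p _
        exact Finset.mem_coe.mpr (Finset.mem_image_of_mem _ (Finset.mem_univ _))
    exact_mod_cast h3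
  rw [h2]
  nth_rewrite 1 [h1]
  rw [mul_comm]
  exact sq_sum_le_card_mul_sum_sq

/-- a lower bound for the value of every chain gives a lower bound for `c_d` -/
lemma le_cd {d : ℕ} {c : ℝ}
    (h : ∀ (N : ℕ) (a : ℕ → Fin N → ℕ), 0 < N → Nested d N a →
      (c / 2) ^ 2 * (N : ℝ) ^ 2 ≤ (pairsSum d N a : ℝ) * cellsSum d N a) : c ≤ cd d := by
  apply le_csInf
  · exact ⟨_, 1, fun _ _ => 0, Nat.one_pos, fun _ _ _ _ _ _ => rfl, rfl⟩
  · rintro r ⟨N, a, hN, ha, rfl⟩
    have hN0 : (0 : ℝ) < N := by exact_mod_cast hN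
    have h1 : c / 2 * N ≤ √((pairsSum d N a : ℝ) * cellsSum d N a) := by
      apply Real.le_sqrt_of_sq_le
      rw [mul_pow]
      exact h N a hN ha
    rw [le_div_iff₀ hN0]
    linarith

/-- the linear lower bound -/
lemma cd_ge (d : ℕ) : (d : ℝ) - 2 ≤ cd d := by
  rcases Nat.lt_or_ge d 3 with h0 | h0
  · have h1 := cd_nonneg d
    have h2 : (d : ℝ) ≤ 2 := by exact_mod_cast (by omega : d ≤ 2)
    linarith
  set k := (d - 1) / 2 with hk
  have hk1 : 1 ≤ k := by omega
  have hkd : (d : ℝ) - 2 ≤ 2 * k := by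
    have : d ≤ 2 * k + 2 := by omega
    have h1 : (d : ℝ) ≤ 2 * k + 2 := by exact_mod_cast this
    linarith
  refine hkd.trans ?_
  apply le_cd
  intro N a hN ha
  have hal : ∀ i, (1 : ℝ) ≤ al d i := by
    intro i
    unfold al
    split_ifs <;> norm_num
  -- the top partition
  set p : ℕ → ℝ := fun i => ((univ.filter (fun q : Fin N × Fin N => a i q.1 = a i q.2)).card : ℝ)
    with hp
  set c : ℕ → ℝ := fun i => ((univ.image (a i)).card : ℝ) with hc
  have hp0 : ∀ i, 0 ≤ p i := fun i => Nat.cast_nonneg _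
  have hc0 : ∀ i, 0 ≤ c i := fun i => Nat.cast_nonneg _
  have hpc : ∀ i, (N : ℝ) ^ 2 ≤ p i * c i := fun i => pairs_cells (a i)
  have hP : (pairsSum d N a : ℝ) = ∑ i ∈ Icc 1 k, (al d i : ℝ) * p i := by
    unfold pairsSum; push_cast; rfl
  have hC : (cellsSum d N a : ℝ) = ∑ i ∈ Icc 1 k, 2 * (i : ℝ) * c i := by
    unfold cellsSum; push_cast; rfl
  rw [hP, hC]
  have h1 : ∑ i ∈ Icc 1 k, (al d i : ℝ) * p i * (2 * i * c i)
      ≤ (∑ i ∈ Icc 1 k, (al d i : ℝ) * p i) * ∑ i ∈ Icc 1 k, 2 * (i : ℝ) * c i := by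
    rw [Finset.sum_mul]
    apply Finset.sum_le_sum
    intro i hi
    apply mul_le_mul_of_nonneg_left _ (mul_nonneg (by linarith [hal i]) (hp0 i))
    exact Finset.single_le_sum (f := fun i : ℕ => 2 * (i : ℝ) * c i)
      (fun j _ => mul_nonneg (by positivity) (hc0 j)) hi
  refine le_trans ?_ h1
  have h2 : ∀ i ∈ Icc 1 k, 2 * (i : ℝ) * (N : ℝ) ^ 2 ≤ (al d i : ℝ) * p i * (2 * i * c i) := by
    intro i _
    have e1 : (N : ℝ) ^ 2 ≤ al d i * (p i * c i) := by
      have := mul_le_mul (hal i) (hpc i) (by positivity) (by linarith [hal i])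
      linarith
    calc 2 * (i : ℝ) * (N : ℝ) ^ 2 ≤ 2 * i * (al d i * (p i * c i)) :=
          mul_le_mul_of_nonneg_left e1 (by positivity)
      _ = _ := by ring
  refine le_trans ?_ (Finset.sum_le_sum h2)
  have h3 : ∑ i ∈ Icc 1 k, 2 * (i : ℝ) * (N : ℝ) ^ 2 = (k * (k + 1)) * (N : ℝ) ^ 2 := by
    rw [← Finset.sum_mul]
    congr 1
    have h4 : ∀ m : ℕ, ∑ i ∈ Icc 1 m, 2 * (i : ℝ) = m * (m + 1) := by
      intro m
      induction m with
      | zero => simp
      | succ m ih =>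
        rw [Finset.sum_Icc_succ_top (by omega), ih]
        push_cast; ring
    exact h4 k
  rw [h3]
  apply mul_le_mul_of_nonneg_right _ (by positivity)
  have : (0 : ℝ) ≤ k := Nat.cast_nonneg _
  nlinarith

lemma cd_ge_half {d : ℕ} (hd : 4 ≤ d) : (d : ℝ) / 2 ≤ cd d := by
  have h1 := cd_ge d
  have h2 : (4 : ℝ) ≤ d := by exact_mod_cast hd
  linarith

lemma cd_pos {d : ℕ} (hd : 4 ≤ d) : 0 < cd d := by
  have h1 := cd_ge_half hd
  have h2 : (4 : ℝ) ≤ d := by exact_mod_cast hd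
  linarith

/-- `c_4 = 4` -/
lemma cd_four : cd 4 = 4 := by
  apply le_antisymm
  · have h1 := cd_le (d := 4) (N := 1) (a := fun _ _ => 0) Nat.one_pos (fun _ _ _ _ _ _ => rfl)
    refine h1.trans ?_
    have h2 : pairsSum 4 1 (fun _ _ => 0) = 2 := by decide
    have h3 : cellsSum 4 1 (fun _ _ => 0) = 2 := by decide
    rw [h2, h3]
    have : √(((2 : ℕ) : ℝ) * ((2 : ℕ) : ℝ)) = 2 := by
      rw [show (((2 : ℕ) : ℝ) * ((2 : ℕ) : ℝ)) = 2 ^ 2 by norm_num, Real.sqrt_sq (by norm_num)]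
    rw [this]; norm_num
  · apply le_cd
    intro N a hN ha
    have h1 := pairs_cells (a 1)
    unfold pairsSum cellsSum al
    norm_num
    nlinarith

/-- `c_5 = 8` -/
lemma cd_five : cd 5 = 8 := by
  apply le_antisymm
  · have h1 := cd_le (d := 5) (N := 2) (a := fun i x => if i = 1 then x.val else 0) (by norm_num)
      (by
        intro i h1 h2 x y hxy
        have : i = 1 := by omega
        subst this
        simp)
    refine h1.trans ?_
    have h2 : pairsSum 5 2 (fun i x => if i = 1 then x.val else 0) = 8 := by decide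
    have h3 : cellsSum 5 2 (fun i x => if i = 1 then x.val else 0) = 8 := by decide
    rw [h2, h3]
    have : √(((8 : ℕ) : ℝ) * ((8 : ℕ) : ℝ)) = 8 := by
      rw [show (((8 : ℕ) : ℝ) * ((8 : ℕ) : ℝ)) = 8 ^ 2 by norm_num, Real.sqrt_sq (by norm_num)]
    rw [this]; norm_num
  · apply le_cd
    intro N a hN ha
    have h1 := pairs_cells (a 1)
    have h2 := pairs_cells (a 2)
    have hP : (pairsSum 5 N a : ℝ)
        = 2 * ((univ.filter (fun q : Fin N × Fin N => a 1 q.1 = a 1 q.2)).card : ℝ)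
          + ((univ.filter (fun q : Fin N × Fin N => a 2 q.1 = a 2 q.2)).card : ℝ) := by
      unfold pairsSum al
      rw [show Icc 1 ((5 - 1) / 2) = ({1, 2} : Finset ℕ) by decide, Finset.sum_pair (by norm_num)]
      push_cast
      norm_num
    have hC : (cellsSum 5 N a : ℝ) = 2 * ((univ.image (a 1)).card : ℝ)
        + 4 * ((univ.image (a 2)).card : ℝ) := by
      unfold cellsSum
      rw [show Icc 1 ((5 - 1) / 2) = ({1, 2} : Finset ℕ) by decide, Finset.sum_pair (by norm_num)]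
      push_cast
      ring
    rw [hP, hC]
    set p1 : ℝ := ((univ.filter (fun q : Fin N × Fin N => a 1 q.1 = a 1 q.2)).card : ℝ)
    set p2 : ℝ := ((univ.filter (fun q : Fin N × Fin N => a 2 q.1 = a 2 q.2)).card : ℝ)
    set c1 : ℝ := ((univ.image (a 1)).card : ℝ)
    set c2 : ℝ := ((univ.image (a 2)).card : ℝ)
    have hp1 : 0 ≤ p1 := Nat.cast_nonneg _
    have hp2 : 0 ≤ p2 := Nat.cast_nonneg _
    have hc1 : 0 ≤ c1 := Nat.cast_nonneg _
    have hc2 : 0 ≤ c2 := Nat.cast_nonneg _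
    have hN2 : (0 : ℝ) ≤ (N : ℝ) ^ 2 := by positivity
    -- `8 p1 c2 + 2 p2 c1 ≥ 8 N²`
    have h3 : (N : ℝ) ^ 2 * (N : ℝ) ^ 2 ≤ (p1 * c1) * (p2 * c2) :=
      mul_le_mul h1 h2 hN2 (by positivity)
    have h4 : 8 * (N : ℝ) ^ 2 ≤ 8 * (p1 * c2) + 2 * (p2 * c1) := by
      have e1 : (8 * (N : ℝ) ^ 2) ^ 2 ≤ (8 * (p1 * c2) + 2 * (p2 * c1)) ^ 2 := by
        nlinarith [sq_nonneg (8 * (p1 * c2) - 2 * (p2 * c1))]
      exact abs_le_of_sq_le_sq' e1 (by positivity) |>.2
    nlinarith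

end Pool.Agent.Lib.MP_b0a977_co.Sharp
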