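import Pool.Agent.Lib.MP_b0a977_co.Sharp.Lower

/-!
# The lower bound: the core inequality
-/

set_option linter.unusedSectionVars false

namespace Pool.Agent.Lib.MP_b0a977_co.Sharp

open Finset

namespace Met

variable {V : Type*} [Fintype V] [DecidableEq V] (M : Met V)

/-- the good points with respect to `y` -/
noncomputable def good (e : ℕ) (D : ℝ) (H : ℕ) (y : V) : Finset V :=
  univ.filter (fun x => x ∉ M.thin e D ∧ M.df x y ≤ e ∧
    ∀ i ∈ Finset.Icc 1 H, M.anc y (10 * e + i) x ∈ M.thin e D)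

/-- the deficiency among the pairs of points that are not thin -/
noncomputable def thick2 (e : ℕ) (D : ℝ) : ℕ :=
  ∑ x ∈ (M.thin e D)ᶜ, ∑ x' ∈ (M.thin e D)ᶜ, M.df x x'

lemma bracket (e : ℕ) (he : 1 ≤ e) (D : ℝ) (H : ℕ) (hd : 2 * H + 44 * e ≤ M.d) (y : V)
    (hn : 0 < Fintype.card V) :
    Cs * (H * √H) * ((M.good e D H y).card / √(Fintype.card V : ℝ))
      ≤ 1 / (Fintype.card V : ℝ) * M.thick2 e D + 2 * ∑ w ∈ M.thin e D, (M.df w y : ℝ) := by
  set X := M.good e D H y with hX
  have hXm : ∀ x ∈ X, x ∉ M.thin e D ∧ M.df x y ≤ e ∧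
      ∀ i ∈ Finset.Icc 1 H, M.anc y (10 * e + i) x ∈ M.thin e D := by
    intro x hx
    exact (Finset.mem_filter.mp hx).2
  have hn0 : (0 : ℝ) < (Fintype.card V : ℝ) := by exact_mod_cast hn
  have h1 := nested_bound X (fun i => M.anc y (10 * e + i)) (Fintype.card V : ℝ) hn0 H (by
    intro i hi _ x hx x' hx' heq
    have h2 := (hXm x hx).2.1
    have h3 := (hXm x' hx').2.1
    exact M.anc_nest (h := 10 * e + i) (by omega) (by omega) (by omega) heq)
  refine h1.trans ?_
  rw [Finset.sum_add_distrib]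
  apply add_le_add
  · -- pairs
    rw [← Finset.mul_sum]
    have h2 : ∑ i ∈ Finset.Icc 1 H, 2 * prs X (fun i => M.anc y (10 * e + i)) i ≤ M.thick2 e D := by
      have h3 : ∀ i, prs X (fun i => M.anc y (10 * e + i)) i
          = ∑ p ∈ X ×ˢ X, if M.anc y (10 * e + i) p.1 = M.anc y (10 * e + i) p.2 then 1 else 0 := by
        intro i
        unfold prs
        rw [Finset.card_filter]
      have h4 : ∑ i ∈ Finset.Icc 1 H, 2 * prs X (fun i => M.anc y (10 * e + i)) i
          = ∑ p ∈ X ×ˢ X, 2 * ((Finset.Icc 1 H).filter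
              (fun i => M.anc y (10 * e + i) p.1 = M.anc y (10 * e + i) p.2)).card := by
        simp_rw [h3, ← Finset.mul_sum]
        rw [Finset.sum_comm]
        simp_rw [Finset.card_filter]
      rw [h4]
      unfold thick2
      rw [← Finset.sum_product' (f := fun x x' => M.df x x')]
      calc ∑ p ∈ X ×ˢ X, 2 * ((Finset.Icc 1 H).filter
              (fun i => M.anc y (10 * e + i) p.1 = M.anc y (10 * e + i) p.2)).card
          ≤ ∑ p ∈ X ×ˢ X, M.df p.1 p.2 :=
            Finset.sum_le_sum fun p _ => M.pair_cost y p.1 p.2 (10 * e) H (by omega)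
        _ ≤ _ := by
            apply Finset.sum_le_sum_of_subset
            apply Finset.product_subset_product <;>
            · intro x hx
              rw [Finset.mem_compl]
              exact (hXm x hx).1
    have h3 : (∑ i ∈ Finset.Icc 1 H, 2 * (prs X (fun i => M.anc y (10 * e + i)) i : ℝ))
        ≤ M.thick2 e D := by exact_mod_cast h2
    calc 2 / (Fintype.card V : ℝ) * ∑ i ∈ Finset.Icc 1 H, (prs X (fun i => M.anc y (10 * e + i)) i : ℝ)
        = 1 / (Fintype.card V : ℝ) *
          ∑ i ∈ Finset.Icc 1 H, 2 * (prs X (fun i => M.anc y (10 * e + i)) i : ℝ) := by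
          rw [← Finset.mul_sum]; ring
      _ ≤ _ := mul_le_mul_of_nonneg_left h3 (by positivity)
  · -- levels
    have h2 := M.level_cost y (M.thin e D) (Finset.Icc (10 * e + 1) (10 * e + H))
      (fun h => X.image (M.anc y h)) (by
      intro h hh w hw
      rw [Finset.mem_Icc] at hh
      obtain ⟨x, hx, rfl⟩ := Finset.mem_image.mp hw
      have h3 := hXm x hx
      refine ⟨M.anc_df (by omega) (by omega), ?_⟩
      have h4 := h3.2.2 (h - 10 * e) (by rw [Finset.mem_Icc]; omega)
      rwa [show 10 * e + (h - 10 * e) = h by omega] at h4)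
    have h3 : ∑ i ∈ Finset.Icc 1 H, i * (X.image (M.anc y (10 * e + i))).card
        ≤ ∑ h ∈ Finset.Icc (10 * e + 1) (10 * e + H), h * (X.image (M.anc y h)).card := by
      have h4 : Finset.Icc (10 * e + 1) (10 * e + H) = (Finset.Icc 1 H).map (addLeftEmbedding (10 * e)) := by
        ext h
        simp only [Finset.mem_Icc, Finset.mem_map, addLeftEmbedding_apply]
        constructor
        · rintro ⟨h5, h6⟩; exact ⟨h - 10 * e, ⟨by omega, by omega⟩, by omega⟩
        · rintro ⟨a, ⟨h5, h6⟩, rfl⟩; exact ⟨by omega, by omega⟩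
      rw [h4, Finset.sum_map]
      apply Finset.sum_le_sum
      intro i _
      rw [addLeftEmbedding_apply]
      exact Nat.mul_le_mul_right _ (by omega)
    have h4 : (∑ i ∈ Finset.Icc 1 H, (i : ℝ) * (X.image (M.anc y (10 * e + i))).card)
        ≤ ∑ w ∈ M.thin e D, (M.df w y : ℝ) := by exact_mod_cast h3.trans h2
    calc ∑ i ∈ Finset.Icc 1 H, 2 * (i : ℝ) * (X.image (M.anc y (10 * e + i))).card
        = 2 * ∑ i ∈ Finset.Icc 1 H, (i : ℝ) * (X.image (M.anc y (10 * e + i))).card := by
          rw [Finset.mul_sum]; exact Finset.sum_congr rfl fun i _ => by ring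
      _ ≤ _ := by linarith

/-- splitting the total deficiency -/
lemma split_Th (e : ℕ) (D : ℝ) :
    (M.thick2 e D : ℝ) + 2 * ∑ y ∈ (M.thin e D)ᶜ, ∑ w ∈ M.thin e D, (M.df w y : ℝ) ≤ M.Th := by
  set Z := M.thin e D with hZ
  have h1 : M.Th = (∑ y ∈ Z, ∑ x ∈ Z, M.df x y + ∑ y ∈ Z, ∑ x ∈ Zᶜ, M.df x y)
      + (∑ y ∈ Zᶜ, ∑ x ∈ Z, M.df x y + ∑ y ∈ Zᶜ, ∑ x ∈ Zᶜ, M.df x y) := by
    unfold Th cost
    rw [← Finset.sum_add_distrib, ← Finset.sum_add_distrib]
    simp_rw [Finset.sum_add_sum_compl]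
  have h2 : ∑ y ∈ Z, ∑ x ∈ Zᶜ, M.df x y = ∑ y ∈ Zᶜ, ∑ x ∈ Z, M.df x y := by
    rw [Finset.sum_comm]
    exact Finset.sum_congr rfl fun y _ => Finset.sum_congr rfl fun x _ => M.df_symm _ _
  have h3 : ∑ y ∈ Zᶜ, ∑ x ∈ Zᶜ, M.df x y = M.thick2 e D := by
    unfold thick2
    rw [Finset.sum_comm]
  have h4 : M.thick2 e D + 2 * ∑ y ∈ Zᶜ, ∑ w ∈ Z, M.df w y ≤ M.Th := by
    rw [h1, h2, h3]; omega
  exact_mod_cast h4

/-- every point is thin, close, under a thick ancestor, or good -/
lemma cover (e : ℕ) (he : 1 ≤ e) (D T F : ℝ) (hD : 0 < D) (hF : 0 ≤ F) (H : ℕ)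
    (hd : 2 * H + 44 * e ≤ M.d) (hFF : T * M.Th ≤ F ^ 2 * (20 * (e : ℝ) ^ 2 * D))
    (y : V) (hy : (M.cost y : ℝ) ≤ T) :
    (Fintype.card V : ℝ) ≤ (M.thin e D).card + ((univ.filter (fun x => e + 1 ≤ M.df x y)).card : ℝ)
      + ((H / e + 1 : ℕ) : ℝ) * F + (M.good e D H y).card := by
  have h1 : (univ : Finset V) ⊆ ((M.thin e D ∪ univ.filter (fun x => e + 1 ≤ M.df x y))
      ∪ (Finset.range (H / e + 1)).biUnion (fun j => M.fat e D y (10 * e + j * e)))
      ∪ M.good e D H y := by
    intro x _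
    by_cases h1 : x ∈ M.thin e D
    · simp [h1]
    by_cases h2 : e + 1 ≤ M.df x y
    · exact Finset.mem_union_left _ (Finset.mem_union_left _ (Finset.mem_union_right _
        (Finset.mem_filter.mpr ⟨Finset.mem_univ _, h2⟩)))
    by_cases h3 : ∀ i ∈ Finset.Icc 1 H, M.anc y (10 * e + i) x ∈ M.thin e D
    · apply Finset.mem_union_right
      exact Finset.mem_filter.mpr ⟨Finset.mem_univ _, h1, by omega, h3⟩
    · apply Finset.mem_union_left
      apply Finset.mem_union_right
      push Not at h3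
      obtain ⟨i, hi, h3⟩ := h3
      rw [Finset.mem_Icc] at hi
      have hj : i / e * e ≤ i := Nat.div_mul_le_self i e
      have hj2 : i < i / e * e + e := by
        have := Nat.lt_div_mul_add (a := i) (b := e) (by omega)
        exact this
      rw [Finset.mem_biUnion]
      refine ⟨i / e, ?_, ?_⟩
      · rw [Finset.mem_range]
        have := Nat.div_le_div_right (c := e) hi.2
        omega
      · refine Finset.mem_filter.mpr ⟨Finset.mem_univ _, by omega, ?_⟩
        have h4 : D ≤ ((M.ball (M.anc y (10 * e + i) x) (4 * e)).card : ℝ) := by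
          by_contra hcon
          exact h3 (Finset.mem_filter.mpr ⟨Finset.mem_univ _, not_le.mp hcon⟩)
        refine h4.trans ?_
        have h5 : M.ball (M.anc y (10 * e + i) x) (4 * e)
            ⊆ M.ball (M.anc y (10 * e + i / e * e) x) (5 * e) := by
          intro z hz
          rw [mem_ball] at hz ⊢
          have h6 : M.δ (M.anc y (10 * e + i / e * e) x) (M.anc y (10 * e + i) x)
              ≤ (10 * e + i) - (10 * e + i / e * e) := M.anc_diff (by omega) (by omega)
          have h7 := M.tri (M.anc y (10 * e + i / e * e) x) (M.anc y (10 * e + i) x) z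
          omega
        exact_mod_cast Finset.card_le_card h5
  have h2 : Fintype.card V ≤ (M.thin e D).card + (univ.filter (fun x => e + 1 ≤ M.df x y)).card
      + ∑ j ∈ Finset.range (H / e + 1), (M.fat e D y (10 * e + j * e)).card
      + (M.good e D H y).card := by
    rw [← Finset.card_univ]
    refine (Finset.card_le_card h1).trans ?_
    refine (Finset.card_union_le _ _).trans (Nat.add_le_add_right ?_ _)
    refine (Finset.card_union_le _ _).trans ?_
    exact Nat.add_le_add (Finset.card_union_le _ _) Finset.card_biUnion_le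
  have h3 : ∀ j ∈ Finset.range (H / e + 1), ((M.fat e D y (10 * e + j * e)).card : ℝ) ≤ F := by
    intro j hj
    rw [Finset.mem_range] at hj
    have hje : j * e ≤ H := by
      have h4 : j ≤ H / e := by omega
      exact (Nat.mul_le_mul_right e h4).trans (Nat.div_mul_le_self H e)
    have h4 := M.fat_cost e D hD.le y (10 * e + j * e) (by omega) (by omega)
    have h5 : (M.cost y : ℝ) * M.Th ≤ T * M.Th := mul_le_mul_of_nonneg_right hy (Nat.cast_nonneg _)
    have h6 : (0 : ℝ) < 20 * (e : ℝ) ^ 2 * D := by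
      have : (0 : ℝ) < e := by exact_mod_cast he
      positivity
    have h7 : ((M.fat e D y (10 * e + j * e)).card : ℝ) ^ 2 ≤ F ^ 2 := by
      have := h4.trans (h5.trans hFF)
      exact le_of_mul_le_mul_right this h6
    exact abs_le_of_sq_le_sq' h7 hF |>.2
  have h4 : (∑ j ∈ Finset.range (H / e + 1), ((M.fat e D y (10 * e + j * e)).card : ℝ))
      ≤ ((H / e + 1 : ℕ) : ℝ) * F := by
    refine (Finset.sum_le_sum h3).trans ?_
    rw [Finset.sum_const, Finset.card_range, nsmul_eq_mul]
  have h5 : (Fintype.card V : ℝ) ≤ (M.thin e D).card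
      + ((univ.filter (fun x => e + 1 ≤ M.df x y)).card : ℝ)
      + (∑ j ∈ Finset.range (H / e + 1), ((M.fat e D y (10 * e + j * e)).card : ℝ))
      + (M.good e D H y).card := by exact_mod_cast h2
  linarith

/-- the core inequality -/
theorem core (e : ℕ) (he : 1 ≤ e) (D T F : ℝ) (hD : 0 < D) (hT : 0 < T) (hF : 0 ≤ F) (H : ℕ)
    (hd : 2 * H + 44 * e ≤ M.d) (hFF : T * M.Th ≤ F ^ 2 * (20 * (e : ℝ) ^ 2 * D))
    (hn : 0 < Fintype.card V) :
    Cs * (H * √H) * (((Fintype.card V : ℝ) ^ 2 - 2 * ((Fintype.card V : ℝ) * (M.thin e D).card)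
        - (Fintype.card V : ℝ) * (M.Th / T)
        - (Fintype.card V : ℝ) * (((H / e + 1 : ℕ) : ℝ) * F)
        - M.Th / e) / √(Fintype.card V : ℝ)) ≤ M.Th := by
  set n : ℝ := (Fintype.card V : ℝ) with hn_def
  have hn0 : 0 < n := by rw [hn_def]; exact_mod_cast hn
  have hsn : 0 < √n := Real.sqrt_pos.mpr hn0
  have he0 : (0 : ℝ) < e := by exact_mod_cast he
  set Z := M.thin e D with hZ
  set Y : Finset V := univ.filter (fun y => y ∉ Z ∧ (M.cost y : ℝ) ≤ T) with hY
  have hYm : ∀ y ∈ Y, y ∉ Z ∧ (M.cost y : ℝ) ≤ T := fun y hy => (Finset.mem_filter.mp hy).2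
  have hYn : (Y.card : ℝ) ≤ n := by
    rw [hn_def]; exact_mod_cast Finset.card_le_univ Y
  -- the brackets
  have h1 : ∑ y ∈ Y, Cs * (H * √H) * ((M.good e D H y).card / √n) ≤ M.Th := by
    calc ∑ y ∈ Y, Cs * (H * √H) * ((M.good e D H y).card / √n)
        ≤ ∑ y ∈ Y, (1 / n * M.thick2 e D + 2 * ∑ w ∈ Z, (M.df w y : ℝ)) :=
          Finset.sum_le_sum fun y _ => M.bracket e he D H hd y hn
      _ = Y.card * (1 / n * M.thick2 e D) + 2 * ∑ y ∈ Y, ∑ w ∈ Z, (M.df w y : ℝ) := by
          rw [Finset.sum_add_distrib, Finset.sum_const, nsmul_eq_mul, Finset.mul_sum]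
      _ ≤ M.thick2 e D + 2 * ∑ y ∈ Zᶜ, ∑ w ∈ Z, (M.df w y : ℝ) := by
          apply add_le_add
          · calc Y.card * (1 / n * M.thick2 e D) = (Y.card / n) * M.thick2 e D := by ring
              _ ≤ 1 * M.thick2 e D := by
                  apply mul_le_mul_of_nonneg_right _ (Nat.cast_nonneg _)
                  rw [div_le_one hn0]; exact hYn
              _ = _ := one_mul _
          · apply mul_le_mul_of_nonneg_left _ (by norm_num)
            apply Finset.sum_le_sum_of_subset_of_nonneg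
            · intro y hy
              rw [Finset.mem_compl]
              exact (hYm y hy).1
            · intro y _ _
              exact Finset.sum_nonneg fun w _ => Nat.cast_nonneg _
      _ ≤ _ := M.split_Th e D
  -- the number of `y`
  have h2 : n ≤ Y.card + Z.card + M.Th / T := by
    set B : Finset V := univ.filter (fun y => T < (M.cost y : ℝ)) with hB
    have h3 : Fintype.card V ≤ Y.card + Z.card + B.card := by
      rw [← Finset.card_univ]
      have : (univ : Finset V) ⊆ (Y ∪ Z) ∪ B := by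
        intro y _
        by_cases h3 : y ∈ Z
        · simp [h3]
        by_cases h4 : (M.cost y : ℝ) ≤ T
        · apply Finset.mem_union_left
          apply Finset.mem_union_left
          exact Finset.mem_filter.mpr ⟨Finset.mem_univ _, h3, h4⟩
        · apply Finset.mem_union_right
          exact Finset.mem_filter.mpr ⟨Finset.mem_univ _, not_le.mp h4⟩
      refine (Finset.card_le_card this).trans ?_
      exact (Finset.card_union_le _ _).trans (Nat.add_le_add_right (Finset.card_union_le _ _) _)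
    have h4 : (B.card : ℝ) ≤ M.Th / T := by
      rw [le_div_iff₀ hT]
      calc (B.card : ℝ) * T = ∑ y ∈ B, T := by rw [Finset.sum_const, nsmul_eq_mul]
        _ ≤ ∑ y ∈ B, (M.cost y : ℝ) :=
            Finset.sum_le_sum fun y hy => (Finset.mem_filter.mp hy).2.le
        _ ≤ ∑ y, (M.cost y : ℝ) :=
            Finset.sum_le_sum_of_subset_of_nonneg (Finset.subset_univ _)
              fun y _ _ => Nat.cast_nonneg _
        _ = M.Th := by unfold Th; push_cast; rfl
    have h5 : n ≤ Y.card + Z.card + B.card := by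
      rw [hn_def]; exact_mod_cast h3
    linarith
  -- the good pairs
  have h3 : n ^ 2 - 2 * (n * Z.card) - n * (M.Th / T) - n * (((H / e + 1 : ℕ) : ℝ) * F) - M.Th / e
      ≤ ∑ y ∈ Y, ((M.good e D H y).card : ℝ) := by
    have h4 : ∑ y ∈ Y, (n - (Z.card + ((univ.filter (fun x => e + 1 ≤ M.df x y)).card : ℝ)
        + ((H / e + 1 : ℕ) : ℝ) * F)) ≤ ∑ y ∈ Y, ((M.good e D H y).card : ℝ) := by
      apply Finset.sum_le_sum
      intro y hy
      have := M.cover e he D T F hD hF H hd hFF y (hYm y hy).2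
      linarith
    refine le_trans ?_ h4
    rw [Finset.sum_sub_distrib, Finset.sum_add_distrib, Finset.sum_add_distrib, Finset.sum_const,
      Finset.sum_const, Finset.sum_const, nsmul_eq_mul, nsmul_eq_mul, nsmul_eq_mul]
    have h5 : ∑ y ∈ Y, ((univ.filter (fun x => e + 1 ≤ M.df x y)).card : ℝ) ≤ M.Th / e := by
      have h6 : ∑ y ∈ Y, ((univ.filter (fun x => e + 1 ≤ M.df x y)).card : ℝ)
          ≤ (M.near (e + 1)).card := by
        rw [M.near_card]
        push_cast
        exact Finset.sum_le_sum_of_subset_of_nonneg (Finset.subset_univ _)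
              fun y _ _ => Nat.cast_nonneg _
      have h7 : ((e : ℝ) + 1) * (M.near (e + 1)).card ≤ M.Th := by
        exact_mod_cast M.near_le (e + 1)
      rw [le_div_iff₀ he0]
      have h8 : (0 : ℝ) ≤ (M.near (e + 1)).card := Nat.cast_nonneg _
      nlinarith
    have h6 : (0 : ℝ) ≤ Z.card := Nat.cast_nonneg _
    have h7 : (0 : ℝ) ≤ ((H / e + 1 : ℕ) : ℝ) * F := mul_nonneg (Nat.cast_nonneg _) hF
    have h8 : (Y.card : ℝ) * Z.card ≤ n * Z.card := mul_le_mul_of_nonneg_right hYn h6
    have h9 : (Y.card : ℝ) * (((H / e + 1 : ℕ) : ℝ) * F) ≤ n * (((H / e + 1 : ℕ) : ℝ) * F) :=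
      mul_le_mul_of_nonneg_right hYn h7
    have h10 : n * n ≤ n * (Y.card + Z.card + M.Th / T) := mul_le_mul_of_nonneg_left h2 hn0.le
    nlinarith
  -- conclusion
  have hC : 0 ≤ Cs * (H * √H) := by
    have := Cs_pos
    positivity
  calc _ ≤ Cs * (H * √H) * ((∑ y ∈ Y, ((M.good e D H y).card : ℝ)) / √n) := by
        apply mul_le_mul_of_nonneg_left _ hC
        exact div_le_div_of_nonneg_right h3 hsn.le
    _ = ∑ y ∈ Y, Cs * (H * √H) * ((M.good e D H y).card / √n) := by
        rw [Finset.sum_div, Finset.mul_sum]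
    _ ≤ _ := h1

end Met

end Pool.Agent.Lib.MP_b0a977_co.Sharp
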