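import Pool.Agent.Lib.MP_b0a977_co.Sharp.Asm

/-!
# The lower bound for every fixed diameter at least 4
-/

namespace Pool.Agent.Lib.MP_b0a977_co.Sharp

open Finset

lemma lbD_met {V : Type*} [Fintype V] [DecidableEq V] (M : Met V) (hd : 4 ≤ M.d) (C : ℝ)
    (hC : 0 < C) (hC2 : cd M.d ≤ C) (m L : ℕ) (hm : 1 ≤ m) (hL : 2 * C ^ 3 * m ^ 5 ≤ L)
    (t : ℝ) (ht : 0 < t) (ht2 : t ^ 2 = (Fintype.card V : ℝ)) (h1 : C * m ≤ t)
    (h2 : 2 * L * C ^ 4 * m ^ 6 ≤ t) (h3 : 4 * C ^ 4 * m ^ 5 ≤ t) (hTh : (M.Th : ℝ) ≤ C * t ^ 3) :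
    (cd M.d - (4 * C + 3 * M.d ^ 2) / m) * t ^ 3 ≤ M.Th := by
  have hm0 : (0 : ℝ) < m := by exact_mod_cast hm
  have hm1 : (1 : ℝ) ≤ m := by exact_mod_cast hm
  have hn : 0 < Fintype.card V := by
    have : (0 : ℝ) < (Fintype.card V : ℝ) := by rw [← ht2]; positivity
    exact_mod_cast this
  have hL0 : (0 : ℝ) < L := lt_of_lt_of_le (by positivity) hL
  have hTh0 : (0 : ℝ) ≤ M.Th := Nat.cast_nonneg _
  set A : ℝ := C * m * t with hA
  set D : ℝ := t / (C * m ^ 2) with hD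
  have hA0 : 0 < A := by positivity
  have hD0 : 0 < D := by positivity
  have hDA : D * A = t ^ 2 / m := by rw [hA, hD]; field_simp
  have hasm := M.asm A D hn
  rw [← ht2, Real.sqrt_sq ht.le] at hasm
  -- the cores
  have htyp := M.typ_card A hA0
  rw [← ht2] at htyp
  have h4 : t ^ 2 * (1 - 1 / m) ≤ ((M.typ A).card : ℝ) := by
    have h5 : (M.Th : ℝ) / A ≤ t ^ 2 / m := by
      rw [div_le_iff₀ hA0]
      calc (M.Th : ℝ) ≤ C * t ^ 3 := hTh
        _ = t ^ 2 / m * A := by rw [hA]; field_simp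
    have h6 : t ^ 2 * (1 - 1 / m) = t ^ 2 - t ^ 2 / m := by ring
    rw [h6]; linarith
  have h5 := M.core'_total A D hA0.le hD0.le
  rw [← ht2, hDA] at h5
  have hm' : (0 : ℝ) ≤ 1 - 1 / m := by
    rw [sub_nonneg, div_le_one hm0]; exact hm1
  have h6 : t ^ 4 * (1 - 2 / m) ≤ ((M.typ A).card : ℝ) ^ 2 := by
    have h7 : (t ^ 2 * (1 - 1 / m)) ^ 2 ≤ ((M.typ A).card : ℝ) ^ 2 :=
      pow_le_pow_left₀ (by positivity) h4 2
    refine le_trans ?_ h7
    have h8 : (t ^ 2 * (1 - 1 / (m : ℝ))) ^ 2 = t ^ 4 * (1 - 2 / m) + t ^ 4 * (1 / m) ^ 2 := by ring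
    rw [h8]
    have : (0 : ℝ) ≤ t ^ 4 * (1 / m) ^ 2 := by positivity
    linarith
  have h7 : (M.Th : ℝ) ≤ t ^ 4 / m := by
    refine hTh.trans ?_
    rw [le_div_iff₀ hm0]
    calc C * t ^ 3 * m = t ^ 3 * (C * m) := by ring
      _ ≤ t ^ 3 * t := mul_le_mul_of_nonneg_left h1 (by positivity)
      _ = t ^ 4 := by ring
  have h8 : t ^ 4 * (1 - 4 / m) ≤ ∑ y ∈ M.typ A, ((M.core' A D y).card : ℝ) := by
    refine le_trans ?_ h5
    have h9 : t ^ 4 * (1 - 4 / (m : ℝ)) = t ^ 4 * (1 - 2 / m) - t ^ 4 / m - t ^ 2 * (t ^ 2 / m) := by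
      ring
    rw [h9]
    linarith
  -- the mutual pairs
  have h9 : ∀ h ∈ M.HH, ((M.OO A D h).card : ℝ) ≤ 2 * (t ^ 3 / m) := by
    intro h hh
    have hh' := Finset.mem_Icc.mp hh
    have e1 := M.OO1_le A D L h hh (by omega)
    have e2 := M.OO2_le A D hA0.le hD0.le L h hh (by omega)
    rw [← ht2] at e1
    set o1 : ℝ := (((M.OO A D h).filter
      (fun p => ¬ D / 2 ≤ ((M.goodKids A L p.2 h p.1).card : ℝ))).card : ℝ) with ho1
    set o2 : ℝ := (((M.OO A D h).filter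
      (fun p => D / 2 ≤ ((M.goodKids A L p.2 h p.1).card : ℝ))).card : ℝ) with ho2
    have e3 : ((M.OO A D h).card : ℝ) = o2 + o1 := by
      rw [ho1, ho2]
      exact_mod_cast (Finset.card_filter_add_card_filter_not (s := M.OO A D h)
        (fun p => D / 2 ≤ ((M.goodKids A L p.2 h p.1).card : ℝ))).symm
    have e4 : o1 ≤ t ^ 3 / m := by
      have e5 : (L : ℝ) * (D / 2) * o1 ≤ (L : ℝ) * (D / 2) * (t ^ 3 / m) := by
        refine e1.trans ?_
        calc t ^ 2 * A ^ 2 = (2 * C ^ 3 * m ^ 5) * (t ^ 4 / (2 * C * m ^ 3)) := by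
              rw [hA]; field_simp
          _ ≤ L * (t ^ 4 / (2 * C * m ^ 3)) := mul_le_mul_of_nonneg_right hL (by positivity)
          _ = _ := by rw [hD]; field_simp
      exact le_of_mul_le_mul_left e5 (by positivity)
    have e5 : o2 ≤ t ^ 3 / m := by
      have e6 : (D / 2) * D * o2 ≤ (D / 2) * D * (t ^ 3 / m) := by
        refine e2.trans ?_
        calc (L : ℝ) * A * M.Th ≤ L * A * (C * t ^ 3) :=
              mul_le_mul_of_nonneg_left hTh (by positivity)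
          _ = (2 * L * C ^ 4 * m ^ 6) * (t ^ 4 / (2 * C ^ 2 * m ^ 5)) := by
              rw [hA]; field_simp
          _ ≤ t * (t ^ 4 / (2 * C ^ 2 * m ^ 5)) := mul_le_mul_of_nonneg_right h2 (by positivity)
          _ = _ := by rw [hD]; field_simp
      exact le_of_mul_le_mul_left e6 (by positivity)
    rw [e3]; linarith
  -- the cells
  have h10 : ∀ j ∈ M.HH, ∀ i ∈ M.HH, ((M.KC A D j i).card : ℝ) ≤ C ^ 4 * m ^ 4 * t ^ 4 := by
    intro j hj i hi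
    have hj' := Finset.mem_Icc.mp hj
    have e1 := M.KC_le A D j i hj (by omega) hi
    have e2 : D * ((M.KC A D j i).card : ℝ) ≤ D * (C ^ 4 * m ^ 4 * t ^ 4) := by
      refine e1.trans ?_
      calc A ^ 2 * M.Th ≤ A ^ 2 * (C * t ^ 3) := mul_le_mul_of_nonneg_left hTh (by positivity)
        _ = _ := by rw [hA, hD]; field_simp
    exact le_of_mul_le_mul_left e2 hD0
  have hHc : (M.HH.card : ℝ) ≤ M.d := by
    have : M.HH.card ≤ M.d := by
      unfold Met.HH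
      rw [Nat.card_Icc]; omega
    exact_mod_cast this
  have hHd : ∀ h ∈ M.HH, (h : ℝ) ≤ M.d := by
    intro h hh
    have hh' := Finset.mem_Icc.mp hh
    have : h ≤ M.d := by omega
    exact_mod_cast this
  have hd0 : (0 : ℝ) ≤ M.d := Nat.cast_nonneg _
  have h11 : ∑ h ∈ M.HH, h * ((M.OO A D h).card : ℝ) ≤ 2 * M.d ^ 2 / m * t ^ 3 := by
    calc ∑ h ∈ M.HH, h * ((M.OO A D h).card : ℝ) ≤ ∑ h ∈ M.HH, M.d * (2 * (t ^ 3 / m)) := by
          apply Finset.sum_le_sum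
          intro h hh
          exact mul_le_mul (hHd h hh) (h9 h hh) (Nat.cast_nonneg _) hd0
      _ = M.HH.card * (M.d * (2 * (t ^ 3 / m))) := by rw [Finset.sum_const, nsmul_eq_mul]
      _ ≤ M.d * (M.d * (2 * (t ^ 3 / m))) := mul_le_mul_of_nonneg_right hHc (by positivity)
      _ = _ := by ring
  have h12 : 4 / t ^ 2 * ∑ j ∈ M.HH, ∑ i ∈ M.HH, ((M.KC A D j i).card : ℝ)
      ≤ M.d ^ 2 / m * t ^ 3 := by
    calc 4 / t ^ 2 * ∑ j ∈ M.HH, ∑ i ∈ M.HH, ((M.KC A D j i).card : ℝ)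
        ≤ 4 / t ^ 2 * ∑ j ∈ M.HH, ∑ i ∈ M.HH, (C ^ 4 * m ^ 4 * t ^ 4) := by
          apply mul_le_mul_of_nonneg_left _ (by positivity)
          exact Finset.sum_le_sum fun j hj => Finset.sum_le_sum fun i hi => h10 j hj i hi
      _ = 4 / t ^ 2 * (M.HH.card * (M.HH.card * (C ^ 4 * m ^ 4 * t ^ 4))) := by
          simp only [Finset.sum_const, nsmul_eq_mul]
      _ ≤ 4 / t ^ 2 * (M.d * (M.d * (C ^ 4 * m ^ 4 * t ^ 4))) := by
          apply mul_le_mul_of_nonneg_left _ (by positivity)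
          apply mul_le_mul hHc _ (by positivity) hd0
          exact mul_le_mul_of_nonneg_right hHc (by positivity)
      _ = (4 * C ^ 4 * m ^ 5) * (M.d ^ 2 * t ^ 2 / m) := by field_simp
      _ ≤ t * (M.d ^ 2 * t ^ 2 / m) := mul_le_mul_of_nonneg_right h3 (by positivity)
      _ = _ := by ring
  have hcd0 := cd_nonneg M.d
  have h13 : cd M.d / t * (t ^ 4 * (1 - 4 / m))
      ≤ cd M.d / t * ∑ y ∈ M.typ A, ((M.core' A D y).card : ℝ) :=
    mul_le_mul_of_nonneg_left h8 (by positivity)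
  have h14 : cd M.d / t * (t ^ 4 * (1 - 4 / m)) = cd M.d * t ^ 3 - 4 * cd M.d / m * t ^ 3 := by
    field_simp
  have h15 : 4 * cd M.d / m * t ^ 3 ≤ 4 * C / m * t ^ 3 := by
    apply mul_le_mul_of_nonneg_right _ (by positivity)
    apply div_le_div_of_nonneg_right _ hm0.le
    linarith
  have h16 : (cd M.d - (4 * C + 3 * M.d ^ 2) / m) * t ^ 3
      = cd M.d * t ^ 3 - 4 * C / m * t ^ 3 - 2 * M.d ^ 2 / m * t ^ 3 - M.d ^ 2 / m * t ^ 3 := by
    ring
  rw [h16]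
  linarith

/-- the lower bound for the deficiency, `d ≥ 4` fixed -/
theorem lbD : LBD := by
  intro d hd ε hε
  set C : ℝ := cd d + 1 with hC
  have hcd0 := cd_nonneg d
  have hC0 : 0 < C := by positivity
  obtain ⟨m, hm, hmε⟩ : ∃ m : ℕ, 1 ≤ m ∧ (4 * C + 3 * (d : ℝ) ^ 2) / m ≤ ε := by
    obtain ⟨p0, hp0⟩ := exists_nat_gt ((4 * C + 3 * (d : ℝ) ^ 2) / ε)
    refine ⟨p0 + 1, by omega, ?_⟩
    rw [div_le_iff₀ (by positivity)]
    rw [div_lt_iff₀ hε] at hp0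
    push_cast
    nlinarith
  set L : ℕ := ⌈2 * C ^ 3 * (m : ℝ) ^ 5⌉₊ with hL
  have hL1 : 2 * C ^ 3 * (m : ℝ) ^ 5 ≤ L := Nat.le_ceil _
  set T : ℝ := C * m + 2 * L * C ^ 4 * m ^ 6 + 4 * C ^ 4 * m ^ 5 + 1 with hT
  have hT0 : 0 < T := by positivity
  refine ⟨⌈T ^ 2⌉₊, fun n hn G hc hG => ?_⟩
  obtain ⟨M, hM1, hM2⟩ := exists_met G hc d hG
  have hnT : T ^ 2 ≤ n := (Nat.le_ceil _).trans (by exact_mod_cast hn)
  have hn0 : (0 : ℝ) < n := lt_of_lt_of_le (by positivity) hnT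
  have htT : T ≤ √(n : ℝ) := Real.le_sqrt_of_sq_le hnT
  have ht0 : 0 < √(n : ℝ) := Real.sqrt_pos.mpr hn0
  have ht3 : √(n : ℝ) ^ 3 = n * √(n : ℝ) := by rw [pow_succ, Real.sq_sqrt hn0.le]
  have hgoal : (cd d - ε) * √(n : ℝ) ^ 3 ≤ M.Th := by
    by_cases hbig : C * √(n : ℝ) ^ 3 ≤ M.Th
    · refine le_trans ?_ hbig
      apply mul_le_mul_of_nonneg_right _ (by positivity)
      rw [hC]; linarith
    · have hTh := (not_le.mp hbig).le
      have e1 : 0 ≤ C * (m : ℝ) := by positivity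
      have e2 : 0 ≤ 2 * L * C ^ 4 * (m : ℝ) ^ 6 := by positivity
      have e3 : 0 ≤ 4 * C ^ 4 * (m : ℝ) ^ 5 := by positivity
      have h1 := lbD_met M (by omega) C hC0 (by rw [hM2, hC]; linarith) m L hm hL1 √(n : ℝ) ht0
        (by rw [Real.sq_sqrt hn0.le, Fintype.card_fin]) (by linarith) (by linarith) (by linarith) hTh
      rw [hM2] at h1
      refine le_trans ?_ h1
      apply mul_le_mul_of_nonneg_right _ (by positivity)
      linarith
  rw [Met.Th_eq, hM1, hM2, ht3] at hgoal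
  exact hgoal

end Pool.Agent.Lib.MP_b0a977_co.Sharp
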