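import Pool.Agent.Lib.MP_b0a977_co.Sharp.Met

/-!
# The lower bound: thin vertices, thick ancestors, brackets
-/

set_option linter.unusedSectionVars false

namespace Pool.Agent.Lib.MP_b0a977_co.Sharp

open Finset

namespace Met

variable {V : Type*} [Fintype V] [DecidableEq V] (M : Met V)

/-- vertices with a small ball -/
noncomputable def thin (e : ℕ) (D : ℝ) : Finset V :=
  univ.filter (fun w => ((M.ball w (4 * e)).card : ℝ) < D)

/-- thin vertices far from `y` are expensive -/
lemma thin_cost (e : ℕ) (D : ℝ) (hD : 0 ≤ D) (y : V) (hd : 2 * e ≤ M.d) :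
    (e : ℝ) ^ 2 * (((M.thin e D).filter (fun x => M.df x y ≤ e)).card : ℝ) ≤ D * M.cost y := by
  set S := (M.thin e D).filter (fun x => M.df x y ≤ e) with hS
  have hSm : ∀ x ∈ S, x ∈ M.thin e D ∧ M.df x y ≤ e := fun x hx => Finset.mem_filter.mp hx
  have h1 : ∀ h ∈ Finset.Ico e (2 * e), (S.card : ℝ) ≤ D * ((S.image (M.anc y h)).card : ℝ) := by
    intro h hh
    rw [Finset.mem_Ico] at hh
    have h2 : (S.card : ℝ) = ∑ c ∈ S.image (M.anc y h), ((S.filter (fun x => M.anc y h x = c)).card : ℝ) := by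
      rw [Finset.card_eq_sum_card_image (M.anc y h) S]
      push_cast
      rfl
    rw [h2]
    have h3 : ∀ c ∈ S.image (M.anc y h), ((S.filter (fun x => M.anc y h x = c)).card : ℝ) ≤ D := by
      intro c hc
      obtain ⟨w, hw, rfl⟩ := Finset.mem_image.mp hc
      have hw1 := (Finset.mem_filter.mp (hSm w hw).1).2
      have h4 : S.filter (fun x => M.anc y h x = M.anc y h w) ⊆ M.ball w (4 * e) := by
        intro z hz
        have hz := (Finset.mem_filter.mp hz).2
        rw [mem_ball]
        have h5 : M.δ w (M.anc y h w) ≤ h := M.anc_near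
        have h6 : M.δ z (M.anc y h z) ≤ h := M.anc_near
        rw [hz] at h6
        have h7 := M.tri w (M.anc y h w) z
        rw [M.symm (M.anc y h w) z] at h7
        omega
      have h5 : ((S.filter (fun x => M.anc y h x = M.anc y h w)).card : ℝ)
          ≤ ((M.ball w (4 * e)).card : ℝ) := by exact_mod_cast Finset.card_le_card h4
      linarith
    calc _ ≤ ∑ c ∈ S.image (M.anc y h), D := Finset.sum_le_sum h3
      _ = _ := by rw [Finset.sum_const, nsmul_eq_mul, mul_comm]
  have h2 := M.level_cost y univ (Finset.Ico e (2 * e)) (fun h => S.image (M.anc y h)) (by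
    intro h hh w hw
    rw [Finset.mem_Ico] at hh
    obtain ⟨x, hx, rfl⟩ := Finset.mem_image.mp hw
    exact ⟨M.anc_df ((hSm x hx).2.trans hh.1) (by omega), Finset.mem_univ _⟩)
  have h3 : (∑ h ∈ Finset.Ico e (2 * e), (h : ℝ) * ((S.image (M.anc y h)).card : ℝ)) ≤ M.cost y := by
    have : M.cost y = ∑ w, M.df w y := rfl
    rw [this]
    exact_mod_cast h2
  have h4 : ∑ h ∈ Finset.Ico e (2 * e), (e : ℝ) * S.card
      ≤ D * ∑ h ∈ Finset.Ico e (2 * e), (h : ℝ) * ((S.image (M.anc y h)).card : ℝ) := by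
    rw [Finset.mul_sum]
    apply Finset.sum_le_sum
    intro h hh
    have h5 := h1 h hh
    rw [Finset.mem_Ico] at hh
    have h6 : (e : ℝ) ≤ h := by exact_mod_cast hh.1
    calc (e : ℝ) * S.card ≤ h * S.card := mul_le_mul_of_nonneg_right h6 (Nat.cast_nonneg _)
      _ ≤ h * (D * ((S.image (M.anc y h)).card : ℝ)) :=
          mul_le_mul_of_nonneg_left h5 (Nat.cast_nonneg _)
      _ = _ := by ring
  rw [Finset.sum_const, Nat.card_Ico, nsmul_eq_mul, show 2 * e - e = e by omega] at h4
  calc (e : ℝ) ^ 2 * (S.card : ℝ) = e * (e * S.card) := by ring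
    _ ≤ _ := h4
    _ ≤ _ := mul_le_mul_of_nonneg_left h3 hD

lemma thin_total (e : ℕ) (D : ℝ) (hD : 0 ≤ D) (hd : 2 * e ≤ M.d) :
    (e : ℝ) ^ 2 * ((Fintype.card V : ℝ) * (M.thin e D).card) ≤ (D + e) * M.Th := by
  set Z := M.thin e D with hZ
  have h1 : ∀ y : V, (Z.card : ℝ) ≤ ((Z.filter (fun x => M.df x y ≤ e)).card : ℝ)
      + ((univ.filter (fun x => e + 1 ≤ M.df x y)).card : ℝ) := by
    intro y
    have : Z.card ≤ (Z.filter (fun x => M.df x y ≤ e)).card
        + (univ.filter (fun x => e + 1 ≤ M.df x y)).card := by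
      rw [← Finset.card_filter_add_card_filter_not (s := Z) (fun x => M.df x y ≤ e)]
      apply Nat.add_le_add_left
      apply Finset.card_le_card
      intro x hx
      rw [Finset.mem_filter] at hx ⊢
      exact ⟨Finset.mem_univ _, by omega⟩
    exact_mod_cast this
  have h2 : (Fintype.card V : ℝ) * Z.card ≤ ∑ y, ((Z.filter (fun x => M.df x y ≤ e)).card : ℝ)
      + (M.near (e + 1)).card := by
    rw [M.near_card (e + 1)]
    push_cast
    rw [← Finset.sum_add_distrib]
    calc (Fintype.card V : ℝ) * Z.card = ∑ y : V, (Z.card : ℝ) := by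
          rw [Finset.sum_const, nsmul_eq_mul, Finset.card_univ]
      _ ≤ _ := Finset.sum_le_sum fun y _ => h1 y
  have h3 : (e : ℝ) ^ 2 * ∑ y, ((Z.filter (fun x => M.df x y ≤ e)).card : ℝ) ≤ D * M.Th := by
    unfold Th
    push_cast
    rw [Finset.mul_sum, Finset.mul_sum]
    exact Finset.sum_le_sum fun y _ => M.thin_cost e D hD y hd
  have h4 : ((e : ℝ) + 1) * (M.near (e + 1)).card ≤ M.Th := by
    exact_mod_cast M.near_le (e + 1)
  have h5 : (e : ℝ) ^ 2 * (M.near (e + 1)).card ≤ e * M.Th := by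
    have h6 : (0 : ℝ) ≤ (M.near (e + 1)).card := Nat.cast_nonneg _
    have h7 : (0 : ℝ) ≤ e := Nat.cast_nonneg _
    calc (e : ℝ) ^ 2 * (M.near (e + 1)).card = e * (e * (M.near (e + 1)).card) := by ring
      _ ≤ e * (((e : ℝ) + 1) * (M.near (e + 1)).card) := by
          apply mul_le_mul_of_nonneg_left _ h7
          nlinarith
      _ ≤ _ := mul_le_mul_of_nonneg_left h4 h7
  calc (e : ℝ) ^ 2 * ((Fintype.card V : ℝ) * Z.card)
      ≤ (e : ℝ) ^ 2 * (∑ y, ((Z.filter (fun x => M.df x y ≤ e)).card : ℝ)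
      + (M.near (e + 1)).card) := mul_le_mul_of_nonneg_left h2 (by positivity)
    _ ≤ _ := by rw [mul_add]; linarith

lemma exists_packing (R : ℕ) (Q : Finset V) : ∃ C ⊆ Q,
    (∀ c ∈ C, ∀ c' ∈ C, c ≠ c' → R < M.δ c c') ∧ ∀ q ∈ Q, ∃ c ∈ C, M.δ q c ≤ R := by
  induction Q using Finset.induction_on with
  | empty => exact ⟨∅, by simp, by simp, by simp⟩
  | insert a Q ha ih =>
    obtain ⟨C, hC, h1, h2⟩ := ih
    by_cases h : ∃ c ∈ C, M.δ a c ≤ R
    · refine ⟨C, hC.trans (Finset.subset_insert _ _), h1, ?_⟩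
      intro q hq
      rcases Finset.mem_insert.mp hq with rfl | hq
      · exact h
      · exact h2 q hq
    · push Not at h
      refine ⟨insert a C, Finset.insert_subset_insert _ hC, ?_, ?_⟩
      · intro c hc c' hc' hne
        rcases Finset.mem_insert.mp hc with e1 | e1 <;> rcases Finset.mem_insert.mp hc' with e2 | e2
        · exact absurd (e1.trans e2.symm) hne
        · rw [e1]; exact h c' e2
        · rw [e2, M.symm]; exact h c e1
        · exact h1 c e1 c' e2 hne
      · intro q hq
        rcases Finset.mem_insert.mp hq with rfl | hq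
        · exact ⟨q, Finset.mem_insert_self _ _, by rw [M.self]; omega⟩
        · obtain ⟨c, hc, hc2⟩ := h2 q hq
          exact ⟨c, Finset.mem_insert_of_mem hc, hc2⟩

/-- the points whose ancestor at height `h` is thick -/
noncomputable def fat (e : ℕ) (D : ℝ) (y : V) (h : ℕ) : Finset V :=
  univ.filter (fun x => M.df x y ≤ h ∧ D ≤ ((M.ball (M.anc y h x) (5 * e)).card : ℝ))

lemma fat_cost (e : ℕ) (D : ℝ) (hD : 0 ≤ D) (y : V) (h : ℕ) (hh : 10 * e ≤ h)
    (hd : 2 * h + 24 * e ≤ M.d) :
    ((M.fat e D y h).card : ℝ) ^ 2 * (20 * (e : ℝ) ^ 2 * D) ≤ M.cost y * M.Th := by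
  obtain ⟨C, hC, h1, h2⟩ := M.exists_packing (10 * e) ((M.fat e D y h).image (M.anc y h))
  -- the packing is small
  have hpack : (C.card : ℝ) * (5 * e * D) ≤ M.cost y := by
    have h3 : ∑ c ∈ C, 5 * e * (M.ball c (5 * e)).card ≤ M.cost y := by
      have h4 : ∀ c ∈ C, 5 * e * (M.ball c (5 * e)).card ≤ ∑ v ∈ M.ball c (5 * e), M.df v y := by
        intro c hc
        obtain ⟨x, hx, rfl⟩ := Finset.mem_image.mp (hC hc)
        have hx2 := (Finset.mem_filter.mp hx).2.1
        have : ∑ v ∈ M.ball (M.anc y h x) (5 * e), 5 * e ≤ ∑ v ∈ M.ball (M.anc y h x) (5 * e), M.df v y := by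
          apply Finset.sum_le_sum
          intro v hv
          rw [mem_ball] at hv
          have h5 := M.anc_dist hx2
          have h6 := M.tri v (M.anc y h x) y
          rw [M.symm v (M.anc y h x)] at h6
          have h7 := M.df_add v y
          omega
        rw [Finset.sum_const, smul_eq_mul, mul_comm] at this
        exact this
      refine (Finset.sum_le_sum h4).trans ?_
      rw [← Finset.sum_biUnion]
      · exact Finset.sum_le_sum_of_subset (Finset.subset_univ _)
      · intro c hc c' hc' hne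
        apply Finset.disjoint_left.mpr
        intro v hv hv'
        rw [mem_ball] at hv hv'
        have h5 := h1 c hc c' hc' hne
        have h6 := M.tri c v c'
        rw [M.symm v c'] at h6
        omega
    have h4 : ∀ c ∈ C, D ≤ ((M.ball c (5 * e)).card : ℝ) := by
      intro c hc
      obtain ⟨x, hx, rfl⟩ := Finset.mem_image.mp (hC hc)
      exact (Finset.mem_filter.mp hx).2.2
    calc (C.card : ℝ) * (5 * e * D) = ∑ c ∈ C, 5 * e * D := by
          rw [Finset.sum_const, nsmul_eq_mul]
      _ ≤ ∑ c ∈ C, (5 * e * (M.ball c (5 * e)).card : ℝ) :=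
          Finset.sum_le_sum fun c hc => mul_le_mul_of_nonneg_left (h4 c hc) (by positivity)
      _ ≤ _ := by exact_mod_cast h3
  -- the map to the packing
  have h3 : ∀ x : V, ∃ c : V, x ∈ M.fat e D y h → c ∈ C ∧ M.δ (M.anc y h x) c ≤ 10 * e := by
    intro x
    by_cases hx : x ∈ M.fat e D y h
    · obtain ⟨c, hc, hc2⟩ := h2 _ (Finset.mem_image_of_mem _ hx)
      exact ⟨c, fun _ => ⟨hc, hc2⟩⟩
    · exact ⟨x, fun h => absurd h hx⟩
  choose f hf using h3
  have h4 : (M.fat e D y h).card ^ 2 ≤ C.card * (M.near (4 * e)).card := by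
    have h5 : (M.fat e D y h).card = ∑ c ∈ C, (fib (M.fat e D y h) (fun _ => f) 0 c).card := by
      unfold fib
      exact Finset.card_eq_sum_card_fiberwise (f := f) fun x hx =>
        Finset.mem_coe.mpr (hf x (Finset.mem_coe.mp hx)).1
    have h6 : ∑ c ∈ C, (fib (M.fat e D y h) (fun _ => f) 0 c).card ^ 2 ≤ (M.near (4 * e)).card := by
      have h7 : ∀ c ∈ C, (fib (M.fat e D y h) (fun _ => f) 0 c).card ^ 2
          = ((M.fat e D y h ×ˢ M.fat e D y h).filter (fun p => f p.1 = c ∧ f p.2 = c)).card := by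
        intro c _
        rw [sq, ← Finset.card_product]
        congr 1
        ext ⟨a, b⟩
        simp only [fib, Finset.mem_product, Finset.mem_filter]
        tauto
      rw [Finset.sum_congr rfl h7, ← Finset.card_biUnion]
      · apply Finset.card_le_card
        intro p hp
        obtain ⟨c, hc, hp⟩ := Finset.mem_biUnion.mp hp
        rw [Finset.mem_filter, Finset.mem_product] at hp
        obtain ⟨⟨ha, hb⟩, ha2, hb2⟩ := hp
        have h8 := (hf _ ha).2
        have h9 := (hf _ hb).2
        rw [ha2] at h8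
        rw [hb2] at h9
        have h10 : M.δ p.1 (M.anc y h p.1) ≤ h := M.anc_near
        have h11 : M.δ p.2 (M.anc y h p.2) ≤ h := M.anc_near
        have h12 := M.tri p.1 (M.anc y h p.1) c
        have h13 := M.tri p.2 (M.anc y h p.2) c
        have h14 := M.tri p.1 c p.2
        rw [M.symm c p.2] at h14
        have h15 := M.df_add p.1 p.2
        simp only [near, Finset.mem_filter, Finset.mem_univ, true_and]
        omega
      · intro c _ c' _ hne
        apply Finset.disjoint_left.mpr
        intro p hp hp'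
        rw [Finset.mem_filter] at hp hp'
        exact hne (hp.2.1.symm.trans hp'.2.1)
    calc (M.fat e D y h).card ^ 2 = (∑ c ∈ C, (fib (M.fat e D y h) (fun _ => f) 0 c).card) ^ 2 := by
          rw [← h5]
      _ ≤ C.card * ∑ c ∈ C, (fib (M.fat e D y h) (fun _ => f) 0 c).card ^ 2 :=
          sq_sum_le_card_mul_sum_sq
      _ ≤ _ := Nat.mul_le_mul_left _ h6
  have h5 : ((M.fat e D y h).card : ℝ) ^ 2 ≤ C.card * (M.near (4 * e)).card := by exact_mod_cast h4
  have h6 : 4 * (e : ℝ) * (M.near (4 * e)).card ≤ M.Th := by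
    have := M.near_le (4 * e)
    exact_mod_cast this
  calc ((M.fat e D y h).card : ℝ) ^ 2 * (20 * (e : ℝ) ^ 2 * D)
      ≤ (C.card * (M.near (4 * e)).card) * (20 * (e : ℝ) ^ 2 * D) :=
        mul_le_mul_of_nonneg_right h5 (by positivity)
    _ = (C.card * (5 * e * D)) * (4 * (e : ℝ) * (M.near (4 * e)).card) := by ring
    _ ≤ _ := mul_le_mul hpack h6 (by positivity) (by positivity)

end Met

end Pool.Agent.Lib.MP_b0a977_co.Sharp
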