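import Pool.Agent.Lib.MP_b0a977_co.Sharp.Nest

/-!
# Integer metrics with parent functions
-/

set_option linter.unusedSectionVars false

namespace Pool.Agent.Lib.MP_b0a977_co.Sharp

open Finset

/-- an integer metric with values at most `d` and with parent functions toward every point -/
structure Met (V : Type*) where
  /-- the metric -/
  δ : V → V → ℕ
  self : ∀ x, δ x x = 0
  symm : ∀ x y, δ x y = δ y x
  tri : ∀ x y z, δ x z ≤ δ x y + δ y z
  /-- `P y x` is the parent of `x` toward `y` -/
  P : V → V → V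
  step : ∀ y x, δ x (P y x) ≤ 1
  down : ∀ y x, δ (P y x) y = δ x y - 1
  /-- the bound -/
  d : ℕ
  le : ∀ x y, δ x y ≤ d

namespace Met

variable {V : Type*} (M : Met V)

/-- the deficiency of a pair -/
def df (x y : V) : ℕ := M.d - M.δ x y

lemma df_symm (x y : V) : M.df x y = M.df y x := by unfold df; rw [M.symm]

lemma df_add (x y : V) : M.df x y + M.δ x y = M.d := by
  unfold df; have := M.le x y; omega

lemma iter_dist (y : V) (k : ℕ) (x : V) : M.δ ((M.P y)^[k] x) y = M.δ x y - k := by
  induction k with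
  | zero => simp
  | succ k ih => rw [Function.iterate_succ_apply', M.down, ih]; omega

lemma iter_step (y : V) (k : ℕ) (x : V) : M.δ x ((M.P y)^[k] x) ≤ k := by
  induction k with
  | zero => simp [M.self]
  | succ k ih =>
    rw [Function.iterate_succ_apply']
    have h1 := M.tri x ((M.P y)^[k] x) (M.P y ((M.P y)^[k] x))
    have h2 := M.step y ((M.P y)^[k] x)
    omega

/-- the ancestor of `x` at height `h` (distance `d - h` from `y`) -/
def anc (y : V) (h : ℕ) (x : V) : V := (M.P y)^[M.δ x y - (M.d - h)] x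

lemma anc_dist {y x : V} {h : ℕ} (hx : M.df x y ≤ h) : M.δ (M.anc y h x) y = M.d - h := by
  unfold anc
  rw [iter_dist]
  have := M.df_add x y
  omega

lemma anc_df {y x : V} {h : ℕ} (hx : M.df x y ≤ h) (hh : h ≤ M.d) : M.df (M.anc y h x) y = h := by
  unfold df
  rw [anc_dist M hx]
  omega

lemma anc_near {y x : V} {h : ℕ} : M.δ x (M.anc y h x) ≤ h := by
  unfold anc
  have h1 := M.iter_step y (M.δ x y - (M.d - h)) x
  have h2 := M.le x y
  omega

lemma anc_anc {y x : V} {h h' : ℕ} (hx : M.df x y ≤ h) (hh : h ≤ h') :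
    M.anc y h' (M.anc y h x) = M.anc y h' x := by
  have h1 := M.anc_dist hx
  have h2 := M.df_add x y
  unfold anc at h1 ⊢
  rw [h1, ← Function.iterate_add_apply]
  congr 1
  rcases Nat.lt_or_ge M.d h' with h3 | h3 <;> omega

lemma anc_nest {y x x' : V} {h h' : ℕ} (hx : M.df x y ≤ h) (hx' : M.df x' y ≤ h) (hh : h ≤ h')
    (heq : M.anc y h x = M.anc y h x') : M.anc y h' x = M.anc y h' x' := by
  rw [← M.anc_anc hx hh, ← M.anc_anc hx' hh, heq]

lemma anc_diff {y x : V} {h h' : ℕ} (hx : M.df x y ≤ h) (hh : h ≤ h') :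
    M.δ (M.anc y h x) (M.anc y h' x) ≤ h' - h := by
  rw [← M.anc_anc hx hh]
  have h1 : M.δ (M.anc y h x) ((M.P y)^[M.δ (M.anc y h x) y - (M.d - h')] (M.anc y h x))
      ≤ M.δ (M.anc y h x) y - (M.d - h') := M.iter_step _ _ _
  have h2 := M.anc_dist hx
  have h3 := M.df_add x y
  have : M.anc y h' (M.anc y h x)
    = (M.P y)^[M.δ (M.anc y h x) y - (M.d - h')] (M.anc y h x) := rfl
  rw [this]
  omega

variable [Fintype V]

/-- the cost of a point -/
def cost (y : V) : ℕ := ∑ x, M.df x y

/-- the total deficiency -/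
def Th : ℕ := ∑ y, M.cost y

lemma Th_eq : (M.Th : ℝ) = ∑ x, ∑ y, ((M.d : ℝ) - M.δ x y) := by
  unfold Th cost
  push_cast
  apply Finset.sum_congr rfl
  intro x _
  apply Finset.sum_congr rfl
  intro y _
  have h1 := M.df_add y x
  rw [M.symm x y]
  have : ((M.df y x + M.δ y x : ℕ) : ℝ) = M.d := by rw [h1]
  push_cast at this
  linarith

variable [DecidableEq V]

/-- the ball -/
def ball (x : V) (r : ℕ) : Finset V := univ.filter (fun z => M.δ x z ≤ r)

lemma mem_ball {x z : V} {r : ℕ} : z ∈ M.ball x r ↔ M.δ x z ≤ r := by simp [ball]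

/-- the ordered pairs with deficiency at least `k` -/
def near (k : ℕ) : Finset (V × V) := univ.filter (fun p => k ≤ M.df p.1 p.2)

lemma near_le (k : ℕ) : k * (M.near k).card ≤ M.Th := by
  have h1 : M.Th = ∑ p : V × V, M.df p.1 p.2 := by
    unfold Th cost
    rw [Fintype.sum_prod_type]
    exact Finset.sum_comm
  rw [h1]
  have h2 : ∑ p ∈ M.near k, k ≤ ∑ p ∈ M.near k, M.df p.1 p.2 :=
    Finset.sum_le_sum fun p hp => (Finset.mem_filter.mp hp).2
  rw [Finset.sum_const, smul_eq_mul, mul_comm] at h2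
  exact h2.trans (Finset.sum_le_sum_of_subset (Finset.subset_univ _))

lemma near_card (k : ℕ) : (M.near k).card = ∑ y, (univ.filter (fun x => k ≤ M.df x y)).card := by
  rw [Finset.card_eq_sum_card_fiberwise (f := fun p : V × V => p.2) (t := univ) (by simp)]
  apply Finset.sum_congr rfl
  intro y _
  apply Finset.card_bij (fun p _ => p.1)
  · intro p hp
    simp only [near, Finset.mem_filter, Finset.mem_univ, true_and] at hp ⊢
    rw [← hp.2]; exact hp.1
  · intro p hp p' hp' h
    simp only [near, Finset.mem_filter, Finset.mem_univ, true_and] at hp hp'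
    exact Prod.ext h (hp.2.trans hp'.2.symm)
  · intro x hx
    simp only [near, Finset.mem_filter, Finset.mem_univ, true_and] at hx ⊢
    exact ⟨(x, y), ⟨hx, rfl⟩, rfl⟩

/-- vertices on different levels pay separately -/
lemma level_cost (y : V) (Z : Finset V) (S : Finset ℕ) (I : ℕ → Finset V)
    (hI : ∀ h ∈ S, ∀ w ∈ I h, M.df w y = h ∧ w ∈ Z) :
    ∑ h ∈ S, h * (I h).card ≤ ∑ w ∈ Z, M.df w y := by
  have h1 : ∑ h ∈ S, h * (I h).card = ∑ h ∈ S, ∑ w ∈ I h, M.df w y := by
    apply Finset.sum_congr rfl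
    intro h hh
    rw [Finset.sum_congr rfl (fun w hw => (hI h hh w hw).1), Finset.sum_const, smul_eq_mul,
      mul_comm]
  rw [h1, ← Finset.sum_biUnion]
  · apply Finset.sum_le_sum_of_subset
    intro w hw
    obtain ⟨h, hh, hw⟩ := Finset.mem_biUnion.mp hw
    exact (hI h hh w hw).2
  · intro h hh h' hh' hne
    apply Finset.disjoint_left.mpr
    intro w hw hw'
    exact hne ((hI h hh w hw).1.symm.trans (hI h' hh' w hw').1)

/-- pairs pay for the heights at which they are together -/
lemma pair_cost (y x x' : V) (a H : ℕ) (hH : 2 * (a + H) + 2 ≤ M.d) :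
    2 * ((Finset.Icc 1 H).filter (fun i => M.anc y (a + i) x = M.anc y (a + i) x')).card
      ≤ M.df x x' := by
  set F := (Finset.Icc 1 H).filter (fun i => M.anc y (a + i) x = M.anc y (a + i) x') with hF
  rcases F.eq_empty_or_nonempty with h0 | h0
  · rw [h0]; simp
  · set i := F.min' h0 with hi
    have h1 : i ∈ F := F.min'_mem h0
    rw [hF, Finset.mem_filter, Finset.mem_Icc] at h1
    have h2 : F ⊆ Finset.Icc i H := by
      intro j hj
      rw [Finset.mem_Icc]
      refine ⟨F.min'_le j hj, ?_⟩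
      rw [hF, Finset.mem_filter, Finset.mem_Icc] at hj
      exact hj.1.2
    have h3 := Finset.card_le_card h2
    rw [Nat.card_Icc] at h3
    have h4 : M.δ x (M.anc y (a + i) x) ≤ a + i := M.anc_near
    have h5 : M.δ x' (M.anc y (a + i) x') ≤ a + i := M.anc_near
    have h6 := M.tri x (M.anc y (a + i) x) x'
    rw [M.symm (M.anc y (a + i) x) x', h1.2] at h6
    rw [h1.2] at h4
    have h7 := M.df_add x x'
    omega

end Met

/-- the metric of a connected graph -/
lemma exists_met {V : Type*} (G : SimpleGraph V) (hc : G.Connected) (d : ℕ)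
    (hd : ∀ x y, G.dist x y ≤ d) : ∃ M : Met V, M.δ = G.dist ∧ M.d = d := by
  have hpar : ∀ y x : V, ∃ z, G.dist x z ≤ 1 ∧ G.dist z y = G.dist x y - 1 := by
    intro y x
    by_cases h : x = y
    · subst h; exact ⟨x, by simp, by simp⟩
    · obtain ⟨q, hq⟩ := hc.exists_walk_length_eq_dist x y
      cases q with
      | nil => exact absurd rfl h
      | @cons _ z _ hadj q =>
        refine ⟨z, ?_, ?_⟩
        · rw [SimpleGraph.dist_eq_one_iff_adj.mpr hadj]
        · rw [SimpleGraph.Walk.length_cons] at hq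
          have h1 := SimpleGraph.dist_le q
          have h2 : G.dist x y ≤ G.dist x z + G.dist z y := hc.dist_triangle
          rw [SimpleGraph.dist_eq_one_iff_adj.mpr hadj] at h2
          omega
  choose P hP1 hP2 using hpar
  exact ⟨{ δ := G.dist, self := fun x => SimpleGraph.dist_self, symm := fun x y => SimpleGraph.dist_comm,
           tri := fun x y z => hc.dist_triangle, P := P, step := hP1, down := hP2, d := d, le := hd },
         rfl, rfl⟩

end Pool.Agent.Lib.MP_b0a977_co.Sharp
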