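import Pool.Agent.Lib.MP_b0a977_co.Sharp.Typ

/-!
# Fixed diameter: mutual ancestor pairs are rare
-/

set_option linter.unusedSectionVars false

namespace Pool.Agent.Lib.MP_b0a977_co.Sharp

open Finset

namespace Met

variable {V : Type*} [Fintype V] [DecidableEq V] (M : Met V)

/-- the mutual ancestor pairs -/
noncomputable def OO (A D : ℝ) (h : ℕ) : Finset (V × V) :=
  (M.EE A D h).filter (fun p => (p.2, p.1) ∈ M.EE A D h)

/-- the number of possible typical ancestors -/
noncomputable def mult (A : ℝ) (y : V) (h : ℕ) (x : V) : ℕ :=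
  ((M.typ A).filter (fun w => M.δ w y ≤ M.d - h ∧ M.δ x w ≤ h)).card

/-- the children with few possible ancestors -/
noncomputable def goodKids (A : ℝ) (L : ℕ) (y : V) (h : ℕ) (w : V) : Finset V :=
  (M.kids A y h w).filter (fun x => M.mult A y h x ≤ L)

lemma mult_sum (A : ℝ) (y : V) (hy : y ∈ M.typ A) (h : ℕ) (h1 : 1 ≤ h) (h2 : h < M.d) :
    ((∑ x, M.mult A y h x : ℕ) : ℝ) ≤ A ^ 2 := by
  have hA : 0 ≤ A := by
    have := M.ball_card_le hy h2
    exact le_trans (Nat.cast_nonneg _) this
  have e1 : ∑ x, M.mult A y h x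
      = ∑ w ∈ (M.typ A).filter (fun w => M.δ w y ≤ M.d - h), (M.ball w h).card := by
    have e2 : ∀ x, M.mult A y h x = ∑ w ∈ (M.typ A).filter (fun w => M.δ w y ≤ M.d - h),
        if M.δ w x ≤ h then 1 else 0 := by
      intro x
      unfold mult
      rw [← Finset.card_filter, Finset.filter_filter]
      congr 1
      ext w
      simp only [Finset.mem_filter]
      rw [M.symm x w]
    simp_rw [e2]
    rw [Finset.sum_comm]
    apply Finset.sum_congr rfl
    intro w _
    rw [← Finset.card_filter]
    rfl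
  rw [e1]
  push_cast
  calc ∑ w ∈ (M.typ A).filter (fun w => M.δ w y ≤ M.d - h), ((M.ball w h).card : ℝ)
      ≤ ∑ w ∈ (M.typ A).filter (fun w => M.δ w y ≤ M.d - h), A := by
        apply Finset.sum_le_sum
        intro w hw
        exact M.ball_card_le (Finset.mem_filter.mp hw).1 h2
    _ = (((M.typ A).filter (fun w => M.δ w y ≤ M.d - h)).card : ℝ) * A := by
        rw [Finset.sum_const, nsmul_eq_mul]
    _ ≤ A * A := by
        apply mul_le_mul_of_nonneg_right _ hA
        have e3 : (M.typ A).filter (fun w => M.δ w y ≤ M.d - h) ⊆ M.ball y (M.d - h) := by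
          intro w hw
          rw [mem_ball, M.symm]
          exact (Finset.mem_filter.mp hw).2
        have e4 := Finset.card_le_card e3
        have e5 := M.ball_card_le hy (r := M.d - h) (by omega)
        have e6 : (((M.typ A).filter (fun w => M.δ w y ≤ M.d - h)).card : ℝ)
            ≤ ((M.ball y (M.d - h)).card : ℝ) := by exact_mod_cast e4
        linarith
    _ = _ := by ring

lemma OO1_le (A D : ℝ) (L : ℕ) (h : ℕ) (hh : h ∈ Finset.Icc 1 ((M.d - 1) / 2)) (hhd : h < M.d) :
    (L : ℝ) * (D / 2) * (((M.OO A D h).filter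
      (fun p => ¬ D / 2 ≤ ((M.goodKids A L p.2 h p.1).card : ℝ))).card : ℝ)
      ≤ (Fintype.card V : ℝ) * A ^ 2 := by
  set O1 := (M.OO A D h).filter
      (fun p => ¬ D / 2 ≤ ((M.goodKids A L p.2 h p.1).card : ℝ)) with hO1
  have hL0 : (0 : ℝ) ≤ L := Nat.cast_nonneg _
  have e1 : O1.card = ∑ y : V, (O1.filter (fun p => p.2 = y)).card := by
    apply Finset.card_eq_sum_card_fiberwise
    intro q _
    exact Finset.mem_coe.mpr (Finset.mem_univ _)
  have e2 : ∀ y : V, (L : ℝ) * (D / 2) * ((O1.filter (fun p => p.2 = y)).card : ℝ) ≤ A ^ 2 := by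
    intro y
    rcases (O1.filter (fun p => p.2 = y)).eq_empty_or_nonempty with h0 | ⟨p0, hp0⟩
    · rw [h0]; simp; positivity
    have hy : y ∈ M.typ A := by
      rw [hO1] at hp0
      simp only [Finset.mem_filter, OO] at hp0
      obtain ⟨⟨⟨h3, _⟩, _⟩, h5⟩ := hp0
      have := (M.EE_prop (w := p0.1) (y := p0.2) hh h3).1
      rwa [h5] at this
    set B := univ.filter (fun x => L < M.mult A y h x) with hB
    have e3 : (L : ℝ) * B.card ≤ A ^ 2 := by
      have e4 : L * B.card ≤ ∑ x, M.mult A y h x := by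
        calc L * B.card = ∑ x ∈ B, L := by rw [Finset.sum_const, smul_eq_mul, mul_comm]
          _ ≤ ∑ x ∈ B, M.mult A y h x :=
              Finset.sum_le_sum fun x hx => (Finset.mem_filter.mp hx).2.le
          _ ≤ _ := Finset.sum_le_sum_of_subset (Finset.subset_univ _)
      have e5 : (L : ℝ) * B.card ≤ ((∑ x, M.mult A y h x : ℕ) : ℝ) := by exact_mod_cast e4
      rw [Finset.mem_Icc] at hh
      exact e5.trans (M.mult_sum A y hy h hh.1 hhd)
    have e4 : (D / 2) * ((O1.filter (fun p => p.2 = y)).card : ℝ) ≤ B.card := by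
      have e5 : ∀ p ∈ O1.filter (fun p => p.2 = y),
          D / 2 ≤ (((M.kids A y h p.1).filter (fun x => L < M.mult A y h x)).card : ℝ) := by
        intro p hp
        rw [hO1] at hp
        simp only [Finset.mem_filter, OO] at hp
        obtain ⟨⟨⟨h3, _⟩, h4⟩, h5⟩ := hp
        have h6 := (M.EE_prop (w := p.1) (y := p.2) hh h3).2.2
        rw [h5] at h4 h6
        have h7 : (M.kids A y h p.1).card = (M.goodKids A L y h p.1).card
            + ((M.kids A y h p.1).filter (fun x => L < M.mult A y h x)).card := by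
          unfold goodKids
          rw [← Finset.card_filter_add_card_filter_not (s := M.kids A y h p.1)
            (fun x => M.mult A y h x ≤ L)]
          simp only [not_le]
        have h8 : ((M.kids A y h p.1).card : ℝ) = (M.goodKids A L y h p.1).card
            + ((M.kids A y h p.1).filter (fun x => L < M.mult A y h x)).card := by
          exact_mod_cast h7
        have h9 := not_le.mp h4
        linarith
      calc (D / 2) * ((O1.filter (fun p => p.2 = y)).card : ℝ)
          = ∑ p ∈ O1.filter (fun p => p.2 = y), D / 2 := by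
            rw [Finset.sum_const, nsmul_eq_mul, mul_comm]
        _ ≤ ∑ p ∈ O1.filter (fun p => p.2 = y),
            (((M.kids A y h p.1).filter (fun x => L < M.mult A y h x)).card : ℝ) :=
            Finset.sum_le_sum e5
        _ ≤ B.card := by
            have e6 : ∑ p ∈ O1.filter (fun p => p.2 = y),
                ((M.kids A y h p.1).filter (fun x => L < M.mult A y h x)).card ≤ B.card := by
              rw [← Finset.card_biUnion]
              · apply Finset.card_le_card
                intro x hx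
                obtain ⟨p, _, hx⟩ := Finset.mem_biUnion.mp hx
                exact Finset.mem_filter.mpr ⟨Finset.mem_univ _, (Finset.mem_filter.mp hx).2⟩
              · intro p hp p' hp' hne
                apply Finset.disjoint_left.mpr
                intro x hx hx'
                apply hne
                have h3 := (M.mem_kids.mp (Finset.mem_filter.mp hx).1).2.2
                have h4 := (M.mem_kids.mp (Finset.mem_filter.mp hx').1).2.2
                have h5 := (Finset.mem_filter.mp (Finset.mem_coe.mp hp)).2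
                have h6 := (Finset.mem_filter.mp (Finset.mem_coe.mp hp')).2
                exact Prod.ext (h3.symm.trans h4) (h5.trans h6.symm)
            exact_mod_cast e6
    calc (L : ℝ) * (D / 2) * ((O1.filter (fun p => p.2 = y)).card : ℝ)
        = L * ((D / 2) * ((O1.filter (fun p => p.2 = y)).card : ℝ)) := by ring
      _ ≤ L * B.card := mul_le_mul_of_nonneg_left e4 hL0
      _ ≤ _ := e3
  rw [e1]
  push_cast
  rw [Finset.mul_sum]
  calc _ ≤ ∑ y : V, A ^ 2 := Finset.sum_le_sum fun y _ => e2 y
    _ = _ := by rw [Finset.sum_const, nsmul_eq_mul, Finset.card_univ]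

lemma OO2_le (A D : ℝ) (hA : 0 ≤ A) (hD : 0 ≤ D) (L : ℕ) (h : ℕ) (hh : h ∈ Finset.Icc 1 ((M.d - 1) / 2))
    (hhd : h + 2 < M.d) :
    (D / 2) * D * (((M.OO A D h).filter
      (fun p => D / 2 ≤ ((M.goodKids A L p.2 h p.1).card : ℝ))).card : ℝ)
      ≤ L * A * M.Th := by
  set O2 := (M.OO A D h).filter
      (fun p => D / 2 ≤ ((M.goodKids A L p.2 h p.1).card : ℝ)) with hO2
  have hh' := Finset.mem_Icc.mp hh
  set Q : Finset (V × V × V × V) := univ.filter (fun q => (q.1, q.2.1) ∈ O2 ∧
    q.2.2.1 ∈ M.goodKids A L q.2.1 h q.1 ∧ q.2.2.2 ∈ M.kids A q.1 h q.2.1) with hQ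
  have hQm : ∀ w y x x' : V, (w, y, x, x') ∈ Q ↔ (w, y) ∈ O2 ∧
      x ∈ M.goodKids A L y h w ∧ x' ∈ M.kids A w h y := by
    intro w y x x'
    rw [hQ]
    simp only [Finset.mem_filter, Finset.mem_univ, true_and]
  have hO2m : ∀ w y, (w, y) ∈ O2 → y ∈ M.typ A ∧ w ∈ M.typ A ∧ M.δ w y = M.d - h ∧
      D / 2 ≤ ((M.goodKids A L y h w).card : ℝ) ∧ D ≤ ((M.kids A w h y).card : ℝ) := by
    intro w y hp
    rw [hO2] at hp
    simp only [Finset.mem_filter, OO] at hp
    obtain ⟨⟨h3, h4⟩, h5⟩ := hp
    have h6 := M.EE_prop hh h3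
    have h7 := M.EE_prop hh h4
    exact ⟨h6.1, h7.1, h6.2.1, h5, h7.2.2⟩
  -- lower bound for `Q`
  have h1 : (D / 2) * D * (O2.card : ℝ) ≤ (Q.card : ℝ) := by
    have e1 : Q.card = ∑ p ∈ O2, (Q.filter (fun q => (q.1, q.2.1) = p)).card := by
      apply Finset.card_eq_sum_card_fiberwise
      intro q hq
      rw [hQ] at hq
      exact (Finset.mem_filter.mp (Finset.mem_coe.mp hq)).2.1
    have e2 : ∀ p ∈ O2, (D / 2) * D ≤ ((Q.filter (fun q => (q.1, q.2.1) = p)).card : ℝ) := by
      rintro ⟨w, y⟩ hp
      obtain ⟨_, _, _, h5, h6⟩ := hO2m w y hp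
      have e3 : (M.goodKids A L y h w ×ˢ M.kids A w h y).card
          ≤ (Q.filter (fun q => (q.1, q.2.1) = (w, y))).card := by
        apply Finset.card_le_card_of_injOn (fun z => (w, y, z.1, z.2))
        · rintro ⟨x, x'⟩ hz
          have hz := Finset.mem_product.mp (Finset.mem_coe.mp hz)
          apply Finset.mem_coe.mpr
          rw [Finset.mem_filter]
          exact ⟨(hQm w y x x').mpr ⟨hp, hz.1, hz.2⟩, rfl⟩
        · rintro ⟨x, x'⟩ _ ⟨z, z'⟩ _ heq
          simp only [Prod.mk.injEq, true_and] at heq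
          exact Prod.ext heq.1 heq.2
      rw [Finset.card_product] at e3
      calc (D / 2) * D ≤ ((M.goodKids A L y h w).card : ℝ) * ((M.kids A w h y).card : ℝ) :=
            mul_le_mul h5 h6 hD (Nat.cast_nonneg _)
        _ ≤ _ := by exact_mod_cast e3
    rw [e1]
    push_cast
    calc (D / 2) * D * (O2.card : ℝ) = ∑ p ∈ O2, (D / 2) * D := by
          rw [Finset.sum_const, nsmul_eq_mul, mul_comm]
      _ ≤ _ := Finset.sum_le_sum e2
  refine h1.trans ?_
  -- the map to `(u, x, x')`
  set f : V × V × V × V → V × V × V := fun q => (M.P q.1 q.2.1, q.2.2.1, q.2.2.2) with hf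
  have h2 : Q.card ≤ L * (Q.image f).card := by
    apply Finset.card_le_mul_card_image
    intro t ht
    obtain ⟨⟨w0, y0, x, x'⟩, hq0, rfl⟩ := Finset.mem_image.mp ht
    rw [hQm] at hq0
    obtain ⟨h3, h4, h5⟩ := hq0
    have h6 := (Finset.mem_filter.mp h4).2
    refine le_trans ?_ h6
    unfold mult
    apply Finset.card_le_card_of_injOn (fun q => q.1)
    · rintro ⟨w, y, z, z'⟩ hq
      have hq := Finset.mem_filter.mp (Finset.mem_coe.mp hq)
      have e1 := (hQm _ _ _ _).mp hq.1
      have e2 := hq.2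
      rw [hf] at e2
      simp only [Prod.mk.injEq] at e2
      obtain ⟨e2, e3, e4⟩ := e2
      subst e3 e4
      obtain ⟨_, g2, g3, _, _⟩ := hO2m w y e1.1
      obtain ⟨_, _, _, _, _⟩ := hO2m w0 y0 h3
      apply Finset.mem_coe.mpr
      simp only
      refine Finset.mem_filter.mpr ⟨g2, ?_, ?_⟩
      · -- `δ w y0 ≤ δ w u + δ u y0`
        have k1 := M.down w y
        have k2 := M.step w0 y0
        have k3 := M.tri w (M.P w0 y0) y0
        rw [← e2] at k2 k3
        rw [M.symm w (M.P w y)] at k3
        rw [M.symm (M.P w y) y0] at k3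
        rw [M.symm y w, g3] at k1
        omega
      · have k1 := (M.mem_kids.mp (Finset.mem_filter.mp e1.2.1).1).2.2
        have k2 : M.δ z (M.anc y h z) ≤ h := M.anc_near
        rw [k1] at k2
        exact k2
    · rintro ⟨w, y, z, z'⟩ hq ⟨w2, y2, z2, z2'⟩ hq2 heq
      have hq := Finset.mem_filter.mp (Finset.mem_coe.mp hq)
      have hq2 := Finset.mem_filter.mp (Finset.mem_coe.mp hq2)
      simp only at heq
      subst heq
      have e1 := (hQm _ _ _ _).mp hq.1
      have e2 := (hQm _ _ _ _).mp hq2.1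
      have e3 := hq.2
      have e4 := hq2.2
      rw [hf] at e3 e4
      simp only [Prod.mk.injEq] at e3 e4
      obtain ⟨_, a1, a2⟩ := e3
      obtain ⟨_, b1, b2⟩ := e4
      subst a1 a2 b1 b2
      have k1 := (M.mem_kids.mp e1.2.2).2.2
      have k2 := (M.mem_kids.mp e2.2.2).2.2
      rw [k1] at k2
      rw [k2]
  -- the image
  have h3 : ((Q.image f).card : ℝ) ≤ A * M.Th := by
    have e1 : (Q.image f).card = ∑ u : V, ((Q.image f).filter (fun t => t.1 = u)).card := by
      apply Finset.card_eq_sum_card_fiberwise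
      intro q _
      exact Finset.mem_coe.mpr (Finset.mem_univ _)
    have e2 : ∀ u : V, (((Q.image f).filter (fun t => t.1 = u)).card : ℝ) ≤ A * M.cost u := by
      intro u
      have hFm : ∀ t ∈ (Q.image f).filter (fun t => t.1 = u), ∃ y, y ∈ M.typ A ∧ M.δ y u ≤ 1 ∧
          t ∈ ({u} : Finset V) ×ˢ (M.ball u (M.d - 1) ×ˢ M.ball u (h + 1)) := by
        intro t ht
        obtain ⟨ht, htu⟩ := Finset.mem_filter.mp ht
        obtain ⟨⟨w, y, x, x'⟩, hq, rfl⟩ := Finset.mem_image.mp ht
        have hq' := (hQm _ _ _ _).mp hq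
        obtain ⟨g1, g2, g3⟩ := hq'
        obtain ⟨k1, k2, k3, _, _⟩ := hO2m w y g1
        rw [hf] at htu
        simp only at htu
        have hst := M.step w y
        rw [htu] at hst
        refine ⟨y, k1, hst, ?_⟩
        rw [hf]
        simp only [Finset.mem_product, Finset.mem_singleton, mem_ball]
        have hdn := M.down w y
        rw [htu, M.symm y w, k3] at hdn
        have m1 := (M.mem_kids.mp (Finset.mem_filter.mp g2).1).2.2
        have m2 := (M.mem_kids.mp g3).2.2
        have m3 : M.δ x (M.anc y h x) ≤ h := M.anc_near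
        have m4 : M.δ x' (M.anc w h x') ≤ h := M.anc_near
        rw [m1] at m3
        rw [m2] at m4
        refine ⟨htu, ?_, ?_⟩
        · have m5 := M.tri u w x
          rw [M.symm w x] at m5
          omega
        · have m5 := M.tri u y x'
          rw [M.symm u y, M.symm y x'] at m5
          omega
      rcases ((Q.image f).filter (fun t => t.1 = u)).eq_empty_or_nonempty with h0 | ⟨t0, ht0⟩
      · rw [h0]
        simp only [Finset.card_empty, Nat.cast_zero]
        positivity
      · obtain ⟨y, hy1, hy2, _⟩ := hFm t0 ht0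
        have h4 : (Q.image f).filter (fun t => t.1 = u)
            ⊆ ({u} : Finset V) ×ˢ (M.ball u (M.d - 1) ×ˢ M.ball u (h + 1)) := by
          intro t ht
          obtain ⟨_, _, _, h5⟩ := hFm t ht
          exact h5
        have h5 := Finset.card_le_card h4
        rw [Finset.card_product, Finset.card_product, Finset.card_singleton, one_mul] at h5
        have h6 : ((M.ball u (h + 1)).card : ℝ) ≤ A := M.ball_card_le' hy1 hy2 (by omega)
        have h7 : ((M.ball u (M.d - 1)).card : ℝ) ≤ M.cost u := by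
          exact_mod_cast M.ball_card_le_cost u (by omega)
        calc _ ≤ ((M.ball u (M.d - 1)).card : ℝ) * ((M.ball u (h + 1)).card : ℝ) := by
              exact_mod_cast h5
          _ ≤ M.cost u * A := mul_le_mul h7 h6 (Nat.cast_nonneg _) (Nat.cast_nonneg _)
          _ = _ := by ring
    rw [e1]
    push_cast
    calc _ ≤ ∑ u : V, A * (M.cost u : ℝ) := Finset.sum_le_sum fun u _ => e2 u
      _ = _ := by rw [← Finset.mul_sum]; unfold Th; push_cast; rfl
  calc (Q.card : ℝ) ≤ ((L * (Q.image f).card : ℕ) : ℝ) := by exact_mod_cast h2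
    _ = L * ((Q.image f).card : ℝ) := by push_cast; ring
    _ ≤ L * (A * M.Th) := mul_le_mul_of_nonneg_left h3 (Nat.cast_nonneg _)
    _ = _ := by ring

end Met

end Pool.Agent.Lib.MP_b0a977_co.Sharp
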