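import Mathlib

/-!
# The potential function of the hierarchical optimum

`W m h = h² f(m/√h)`, subadditive in `m`, with `W m h - 2m²h - h²` antitone in `h`.
-/

namespace Pool.Agent.Lib.MP_b0a977_co.Sharp

open Finset Real

noncomputable section

/-- `q = (7 - √7)/6` -/
def qq : ℝ := (7 - √7) / 6

/-- the optimal normalised cell size -/
def x0 : ℝ := √qq

/-- `f₁(x) = 1 + 2x² - (2/7) x⁴` -/
def f1 (x : ℝ) : ℝ := 1 + 2 * x ^ 2 - (2 / 7) * x ^ 4

/-- `C* = f₁'(x₀) = f₁(x₀)/x₀` -/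
def Cs : ℝ := x0 * (4 - (8 / 7) * qq)

/-- the profile of the potential -/
def ff (x : ℝ) : ℝ := if x ^ 2 ≤ 2 then f1 x else if x ^ 2 ≤ 4 * qq then 2 * f1 (x / 2) else Cs * x

/-- the potential -/
def WW (m h : ℝ) : ℝ := h ^ 2 * ff (m / √h)

lemma s7_sq : (√7 : ℝ) ^ 2 = 7 := Real.sq_sqrt (by norm_num)

lemma s7_bd : (2.645 : ℝ) < √7 ∧ √7 < (2.646 : ℝ) := by
  constructor
  · exact Real.lt_sqrt_of_sq_lt (by norm_num)
  · rw [Real.sqrt_lt' (by norm_num)]; norm_num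

lemma qq_eq : 6 * qq ^ 2 - 14 * qq + 7 = 0 := by
  have := s7_sq
  unfold qq
  nlinarith

lemma qq_bd : (0.7256 : ℝ) < qq ∧ qq < 0.7260 := by
  have := s7_bd
  unfold qq
  constructor <;> linarith [this.1, this.2]

lemma qq_pos : 0 < qq := by linarith [qq_bd.1]

lemma x0_sq : x0 ^ 2 = qq := Real.sq_sqrt qq_pos.le

lemma x0_pos : 0 < x0 := Real.sqrt_pos.mpr qq_pos

lemma Cs_sq : Cs ^ 2 = (16 * qq + 448) / 63 := by
  have h1 := qq_eq
  have h2 := x0_sq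
  have h3 : qq ^ 2 = (14 * qq - 7) / 6 := by linarith
  have h4 : qq ^ 3 = (77 * qq - 49) / 18 := by
    have : qq ^ 3 = qq * qq ^ 2 := by ring
    rw [this, h3]
    have : qq * ((14 * qq - 7) / 6) = (14 * qq ^ 2 - 7 * qq) / 6 := by ring
    rw [this, h3]; ring
  unfold Cs
  have : (x0 * (4 - 8 / 7 * qq)) ^ 2 = x0 ^ 2 * (4 - 8 / 7 * qq) ^ 2 := by ring
  rw [this, h2]
  have : qq * (4 - 8 / 7 * qq) ^ 2 = 16 * qq - 64 / 7 * qq ^ 2 + 64 / 49 * qq ^ 3 := by ring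
  rw [this, h3, h4]; ring

lemma Cs_pos : 0 < Cs := by
  unfold Cs
  have := qq_bd
  apply mul_pos x0_pos
  linarith [this.2]

lemma Cs_sq_lt : Cs ^ 2 < 8 := by
  rw [Cs_sq]
  linarith [qq_bd.2]

lemma Cs_lt : Cs < 3 := by
  have := Cs_sq_lt
  nlinarith [Cs_pos]

lemma f1_sub (x : ℝ) :
    f1 x - Cs * x = (x - x0) ^ 2 * ((2 - 6 / 7 * qq) - 4 / 7 * x0 * x - 2 / 7 * x ^ 2) := by
  have h1 := qq_eq
  have h2 := x0_sq
  unfold f1 Cs
  have h3 : (x - x0) ^ 2 * ((2 - 6 / 7 * qq) - 4 / 7 * x0 * x - 2 / 7 * x ^ 2)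
      = -(2 / 7) * x ^ 4 + x ^ 2 * ((2 - 6 / 7 * qq) + 8 / 7 * x0 ^ 2 - 2 / 7 * x0 ^ 2)
        - x * x0 * (2 * (2 - 6 / 7 * qq) + 4 / 7 * x0 ^ 2) + x0 ^ 2 * (2 - 6 / 7 * qq) := by ring
  rw [h3, h2]
  nlinarith

lemma f1_ge {x : ℝ} (hx : x ^ 2 ≤ 2) : Cs * x ≤ f1 x := by
  have h := f1_sub x
  have h2 := x0_sq
  have h3 := qq_bd
  have : 0 ≤ (2 - 6 / 7 * qq) - 4 / 7 * x0 * x - 2 / 7 * x ^ 2 := by
    have : x0 * x ≤ (qq + x ^ 2) / 2 := by nlinarith [sq_nonneg (x0 - x)]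
    nlinarith [h3.2]
  nlinarith [mul_nonneg (sq_nonneg (x - x0)) this]

lemma ff_ge (x : ℝ) : Cs * x ≤ ff x := by
  unfold ff
  split_ifs with h1 h2
  · exact f1_ge h1
  · have : (x / 2) ^ 2 ≤ 2 := by
      have := qq_bd.2
      nlinarith
    have := f1_ge this
    linarith
  · exact le_rfl

lemma ff_of_le {x : ℝ} (h : x ^ 2 ≤ 2) : ff x = f1 x := by unfold ff; rw [if_pos h]

lemma ff_of_mid {x : ℝ} (h : 2 ≤ x ^ 2) (h' : x ^ 2 ≤ 4 * qq) : ff x = 2 * f1 (x / 2) := by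
  unfold ff
  split_ifs with h1
  · have hx : x ^ 2 = 2 := le_antisymm h1 h
    unfold f1
    have h4 : x ^ 4 = 4 := by
      have : x ^ 4 = (x ^ 2) ^ 2 := by ring
      rw [this, hx]; norm_num
    have : (x / 2) ^ 2 = x ^ 2 / 4 := by ring
    rw [this]
    have : (x / 2) ^ 4 = x ^ 4 / 16 := by ring
    rw [this, h4, hx]; norm_num
  · rfl

lemma ff_of_gt {x : ℝ} (h : 4 * qq < x ^ 2) : ff x = Cs * x := by
  unfold ff
  have := qq_bd.1
  rw [if_neg (by linarith), if_neg (by linarith)]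

lemma ff_of_ge {x : ℝ} (hx : 0 ≤ x) (h : 4 * qq ≤ x ^ 2) : ff x = Cs * x := by
  rcases lt_or_eq_of_le h with h1 | h1
  · exact ff_of_gt h1
  · have h0 : x = 2 * x0 := by
      have h2 := x0_sq
      have h3 := x0_pos
      have : (x - 2 * x0) * (x + 2 * x0) = 0 := by nlinarith
      rcases mul_eq_zero.mp this with h4 | h4
      · linarith
      · linarith
    rw [ff_of_mid (by linarith [qq_bd.1]) h1.ge]
    have h5 := f1_sub (x / 2)
    have : x / 2 = x0 := by linarith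
    rw [this] at h5 ⊢
    have h6 : f1 x0 = Cs * x0 := by nlinarith
    rw [h6, h0]; ring

lemma f1_one_le {x : ℝ} (hx : x ^ 2 ≤ 2) : 1 ≤ f1 x := by
  unfold f1
  nlinarith [sq_nonneg x, sq_nonneg (x ^ 2)]

/-- subadditivity of the profile -/
lemma ff_add {a b : ℝ} (ha : 0 ≤ a) (hb : 0 ≤ b) : ff (a + b) ≤ ff a + ff b := by
  have hq := qq_bd
  rcases le_or_gt ((a + b) ^ 2) 2 with h1 | h1
  · have h2 : a ^ 2 ≤ 2 := by nlinarith
    have h3 : b ^ 2 ≤ 2 := by nlinarith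
    rw [ff_of_le h1, ff_of_le h2, ff_of_le h3]
    unfold f1
    have hP : 0 ≤ a * b := mul_nonneg ha hb
    have hS : 4 * (a * b) ≤ (a + b) ^ 2 := by nlinarith [sq_nonneg (a - b)]
    have key : (1 + 2 * a ^ 2 - 2 / 7 * a ^ 4) + (1 + 2 * b ^ 2 - 2 / 7 * b ^ 4)
        - (1 + 2 * (a + b) ^ 2 - 2 / 7 * (a + b) ^ 4)
        = (1 - 2 * (a * b)) ^ 2 + (8 / 7) * (a * b) * ((a + b) ^ 2 - 4 * (a * b)) := by ring
    have : 0 ≤ (8 / 7) * (a * b) * ((a + b) ^ 2 - 4 * (a * b)) := by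
      apply mul_nonneg (by positivity); linarith
    nlinarith [sq_nonneg (1 - 2 * (a * b))]
  · rcases le_or_gt ((a + b) ^ 2) (4 * qq) with h2 | h2
    · rw [ff_of_mid h1.le h2]
      -- both at most √2, or one is larger
      have main : ∀ a b : ℝ, 0 ≤ a → 0 ≤ b → b ≤ a → (a + b) ^ 2 ≤ 4 * qq → 2 < (a + b) ^ 2 →
          2 * f1 ((a + b) / 2) ≤ ff a + ff b := by
        intro a b ha hb hba h2 h1
        have hb2 : b ^ 2 ≤ 2 := by nlinarith
        rw [ff_of_le hb2]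
        rcases le_or_gt (a ^ 2) 2 with h3 | h3
        · rw [ff_of_le h3]
          unfold f1
          have key : (1 + 2 * a ^ 2 - 2 / 7 * a ^ 4) + (1 + 2 * b ^ 2 - 2 / 7 * b ^ 4)
              - 2 * (1 + 2 * ((a + b) / 2) ^ 2 - 2 / 7 * ((a + b) / 2) ^ 4)
              = 4 * ((a - b) / 2) ^ 2 * (1 - (6 / 7) * ((a + b) / 2) ^ 2
                - (1 / 7) * ((a - b) / 2) ^ 2) := by ring
          have h4 : ((a - b) / 2) ^ 2 ≤ ((a + b) / 2) ^ 2 := by nlinarith [mul_nonneg ha hb]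
          have h5 : ((a + b) / 2) ^ 2 ≤ qq := by nlinarith
          have h6 : 0 ≤ 1 - (6 / 7) * ((a + b) / 2) ^ 2 - (1 / 7) * ((a - b) / 2) ^ 2 := by
            nlinarith
          have h7 := mul_nonneg (mul_nonneg (by norm_num : (0:ℝ) ≤ 4)
            (sq_nonneg ((a - b) / 2))) h6
          linarith
        · rw [ff_of_mid h3.le (by nlinarith)]
          unfold f1
          have ha1 : 1.414 < a := by
            by_contra hcon
            have : a ≤ 1.414 := not_lt.mp hcon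
            have : a ^ 2 ≤ 1.414 ^ 2 := pow_le_pow_left₀ ha this 2
            norm_num at this; linarith
          have hab : a + b < 1.7042 := by
            by_contra hcon
            have h0 : 1.7042 ≤ a + b := not_lt.mp hcon
            have : (1.7042 : ℝ) ^ 2 ≤ (a + b) ^ 2 := pow_le_pow_left₀ (by norm_num) h0 2
            norm_num at this; linarith
          have hb1 : b < 0.291 := by linarith
          have h8 : a * b ≤ (1.7042 - b) * b :=
            mul_le_mul_of_nonneg_right (by linarith) hb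
          have h9 : a ^ 4 ≤ (a + b) ^ 4 := pow_le_pow_left₀ ha (by linarith) 4
          have h10 : b ^ 4 ≤ b ^ 2 := by
            have h12 : b ^ 2 ≤ 1 := by nlinarith
            have : b ^ 4 = b ^ 2 * b ^ 2 := by ring
            rw [this]
            exact mul_le_of_le_one_right (sq_nonneg b) h12
          have e1 : ((a + b) / 2) ^ 4 = (a + b) ^ 4 / 16 := by ring
          have e2 : (a / 2) ^ 4 = a ^ 4 / 16 := by ring
          have e3 : ((a + b) / 2) ^ 2 = (a ^ 2 + 2 * (a * b) + b ^ 2) / 4 := by ring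
          have e4 : (a / 2) ^ 2 = a ^ 2 / 4 := by ring
          rw [e1, e2, e3, e4]
          have h13 : (1.7042 - b) * b = 1.7042 * b - b ^ 2 := by ring
          have h14 := sq_nonneg b
          linarith
      rcases le_total b a with h3 | h3
      · exact main a b ha hb h3 h2 h1
      · have := main b a hb ha h3 (by rw [add_comm]; exact h2) (by rw [add_comm]; exact h1)
        rw [add_comm a b]; linarith
    · rw [ff_of_gt h2]
      have := ff_ge a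
      have := ff_ge b
      linarith [mul_add Cs a b]

lemma WW_zero (m : ℝ) : WW m 0 = 0 := by unfold WW; simp

lemma WW_add {a b h : ℝ} (ha : 0 ≤ a) (hb : 0 ≤ b) : WW (a + b) h ≤ WW a h + WW b h := by
  unfold WW
  rw [← mul_add, add_div]
  apply mul_le_mul_of_nonneg_left _ (sq_nonneg h)
  exact ff_add (div_nonneg ha (Real.sqrt_nonneg h)) (div_nonneg hb (Real.sqrt_nonneg h))

lemma WW_ge (m h : ℝ) (hh : 0 ≤ h) : Cs * m * (h * √h) ≤ WW m h := by
  unfold WW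
  rcases hh.eq_or_lt with h0 | h0
  · rw [← h0]; simp
  · have h1 := ff_ge (m / √h)
    have hs : 0 < √h := Real.sqrt_pos.mpr h0
    have hss : √h * √h = h := Real.mul_self_sqrt hh
    have h3 : √h * (m / √h) = m := by field_simp
    calc Cs * m * (h * √h) = h ^ 2 * (Cs * (m / √h)) := by
          have : h ^ 2 * (Cs * (m / √h)) = h * (√h * √h) * (Cs * (m / √h)) := by rw [hss]; ring
          rw [this]
          have : h * (√h * √h) * (Cs * (m / √h)) = h * √h * Cs * (√h * (m / √h)) := by ring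
          rw [this, h3]; ring
      _ ≤ _ := mul_le_mul_of_nonneg_left h1 (sq_nonneg h)

lemma WW_I {m h : ℝ} (hh : 0 < h) (h1 : m ^ 2 ≤ 2 * h) :
    WW m h = h ^ 2 + 2 * m ^ 2 * h - 2 / 7 * m ^ 4 := by
  unfold WW
  have hss : (√h) ^ 2 = h := Real.sq_sqrt hh.le
  have e1 : (m / √h) ^ 2 = m ^ 2 / h := by rw [div_pow, hss]
  have e2 : (m / √h) ^ 4 = m ^ 4 / h ^ 2 := by
    rw [div_pow, show (√h) ^ 4 = ((√h) ^ 2) ^ 2 by ring, hss]
  rw [ff_of_le (by rw [e1, div_le_iff₀ hh]; exact h1)]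
  unfold f1
  rw [e1, e2]
  field_simp

lemma WW_II {m h : ℝ} (hh : 0 < h) (h1 : 2 * h ≤ m ^ 2) (h2 : m ^ 2 ≤ 4 * qq * h) :
    WW m h = 2 * h ^ 2 + m ^ 2 * h - m ^ 4 / 28 := by
  unfold WW
  have hss : (√h) ^ 2 = h := Real.sq_sqrt hh.le
  have e1 : (m / √h) ^ 2 = m ^ 2 / h := by rw [div_pow, hss]
  have e3 : (m / √h / 2) ^ 2 = m ^ 2 / h / 4 := by rw [div_pow, e1]; norm_num
  have e2 : (m / √h / 2) ^ 4 = m ^ 4 / h ^ 2 / 16 := by
    rw [div_pow, div_pow, show (√h) ^ 4 = ((√h) ^ 2) ^ 2 by ring, hss]; norm_num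
  rw [ff_of_mid (by rw [e1, le_div_iff₀ hh]; exact h1) (by rw [e1, div_le_iff₀ hh]; exact h2)]
  unfold f1
  rw [e3, e2]
  field_simp
  ring

lemma WW_III {m h : ℝ} (hm : 0 ≤ m) (hh : 0 ≤ h) (h1 : 4 * qq * h ≤ m ^ 2) :
    WW m h = Cs * m * (h * √h) := by
  rcases hh.eq_or_lt with h0 | h0
  · rw [← h0, WW_zero]; simp
  unfold WW
  have hss : (√h) ^ 2 = h := Real.sq_sqrt hh
  have hs : 0 < √h := Real.sqrt_pos.mpr h0
  have e1 : (m / √h) ^ 2 = m ^ 2 / h := by rw [div_pow, hss]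
  rw [ff_of_ge (div_nonneg hm (Real.sqrt_nonneg h)) (by rw [e1, le_div_iff₀ h0]; exact h1)]
  have h3 : √h * (m / √h) = m := by field_simp
  have : h ^ 2 * (Cs * (m / √h)) = h * ((√h) ^ 2) * (Cs * (m / √h)) := by rw [hss]; ring
  rw [this]
  have : h * ((√h) ^ 2) * (Cs * (m / √h)) = h * √h * Cs * (√h * (m / √h)) := by ring
  rw [this, h3]; ring

lemma step_I {m h h' : ℝ} (hh : 0 < h) (hle : h ≤ h') (h1 : m ^ 2 ≤ 2 * h) :
    WW m h' - 2 * m ^ 2 * h' - h' ^ 2 ≤ WW m h - 2 * m ^ 2 * h - h ^ 2 := by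
  rw [WW_I hh h1, WW_I (hh.trans_le hle) (by linarith)]
  linarith

lemma step_II {m h h' : ℝ} (hh : 0 < h) (hle : h ≤ h') (h1 : m ^ 2 ≤ 4 * qq * h)
    (h2 : 2 * h' ≤ m ^ 2) :
    WW m h' - 2 * m ^ 2 * h' - h' ^ 2 ≤ WW m h - 2 * m ^ 2 * h - h ^ 2 := by
  have hq := qq_pos
  rw [WW_II hh (by linarith) h1, WW_II (hh.trans_le hle) h2 (by nlinarith)]
  nlinarith [mul_nonneg (sub_nonneg.mpr hle) (by linarith : (0 : ℝ) ≤ m ^ 2 - h - h')]

lemma step_III {m h h' : ℝ} (hm : 0 < m) (hh : 0 ≤ h) (hle : h ≤ h') (h1 : 4 * qq * h' ≤ m ^ 2) :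
    WW m h' - 2 * m ^ 2 * h' - h' ^ 2 ≤ WW m h - 2 * m ^ 2 * h - h ^ 2 := by
  have hq := qq_bd
  have hh' := hh.trans hle
  rw [WW_III hm.le hh (by nlinarith), WW_III hm.le hh' h1]
  obtain ⟨u, hu, huh⟩ : ∃ u, 0 ≤ u ∧ u ^ 2 = h := ⟨√h, Real.sqrt_nonneg h, Real.sq_sqrt hh⟩
  obtain ⟨v, hv, hvh⟩ : ∃ v, 0 ≤ v ∧ v ^ 2 = h' := ⟨√h', Real.sqrt_nonneg h', Real.sq_sqrt hh'⟩
  have e1 : √h = u := by rw [← huh, Real.sqrt_sq hu]
  have e2 : √h' = v := by rw [← hvh, Real.sqrt_sq hv]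
  rw [e1, e2, ← huh, ← hvh]
  rw [← huh, ← hvh] at hle
  rw [← hvh] at h1
  have huv : u ≤ v := by
    by_contra hcon
    nlinarith
  set s := u + v with hs
  set p := u * v with hp
  have hp0 : 0 ≤ p := mul_nonneg hu hv
  have hs0 : 0 ≤ s := add_nonneg hu hv
  -- `2 x0 v ≤ m`
  have hx := x0_pos
  have hxs := x0_sq
  have h2 : 2 * x0 * v ≤ m := by
    have : (2 * x0 * v) ^ 2 ≤ m ^ 2 := by
      have : (2 * x0 * v) ^ 2 = 4 * (x0 ^ 2) * v ^ 2 := by ring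
      rw [this, hxs]; exact h1
    exact le_of_sq_le_sq this hm.le |> fun h => h
  have hC0 := Cs_pos
  have hC2 := Cs_sq_lt
  have hCx : 2 ≤ Cs * x0 := by
    have : Cs * x0 = x0 ^ 2 * (4 - 8 / 7 * qq) := by unfold Cs; ring
    rw [this, hxs]
    nlinarith [qq_eq]
  have h3 : 2 * s ≤ Cs * m := by
    have h4 : s ≤ 2 * v := by linarith
    have h5 : 2 * (2 * v) ≤ Cs * m := by
      have : Cs * (2 * x0 * v) ≤ Cs * m := mul_le_mul_of_nonneg_left h2 hC0.le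
      nlinarith
    linarith
  have h6 : 0 ≤ 2 * m ^ 2 - Cs * m * s + s ^ 2 := by
    nlinarith [sq_nonneg (s - Cs * m / 2), sq_nonneg m]
  have key : (Cs * m * (u ^ 2 * u) - 2 * m ^ 2 * u ^ 2 - (u ^ 2) ^ 2)
      - (Cs * m * (v ^ 2 * v) - 2 * m ^ 2 * v ^ 2 - (v ^ 2) ^ 2)
      = (v - u) * (s * (2 * m ^ 2 - Cs * m * s + s ^ 2) + p * (Cs * m - 2 * s)) := by
    rw [hs, hp]; ring
  have h7 : 0 ≤ (v - u) * (s * (2 * m ^ 2 - Cs * m * s + s ^ 2) + p * (Cs * m - 2 * s)) := by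
    apply mul_nonneg (by linarith)
    apply add_nonneg (mul_nonneg hs0 h6) (mul_nonneg hp0 (by linarith))
  linarith

/-- the potential minus `2m²h + h²` is antitone in `h` -/
lemma WW_step {m h h' : ℝ} (hm : 0 < m) (hh : 0 ≤ h) (hle : h ≤ h') :
    WW m h' - 2 * m ^ 2 * h' - h' ^ 2 ≤ WW m h - 2 * m ^ 2 * h - h ^ 2 := by
  have hq := qq_bd
  have hq0 := qq_pos
  have hm2 : 0 < m ^ 2 := by positivity
  set b1 := m ^ 2 / (4 * qq) with hb1
  set b2 := m ^ 2 / 2 with hb2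
  have hb1e : 4 * qq * b1 = m ^ 2 := by rw [hb1]; field_simp
  have hb2e : 2 * b2 = m ^ 2 := by rw [hb2]; ring
  have hb1p : 0 < b1 := by rw [hb1]; positivity
  have hb12 : b1 ≤ b2 := by nlinarith
  -- from b2 on
  have s2 : ∀ h h', b2 ≤ h → h ≤ h' →
      WW m h' - 2 * m ^ 2 * h' - h' ^ 2 ≤ WW m h - 2 * m ^ 2 * h - h ^ 2 := by
    intro h h' h1 h2
    exact step_I (by linarith) h2 (by linarith)
  have s1 : ∀ h h', b1 ≤ h → h ≤ h' →
      WW m h' - 2 * m ^ 2 * h' - h' ^ 2 ≤ WW m h - 2 * m ^ 2 * h - h ^ 2 := by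
    intro h h' h1 h2
    rcases le_total b2 h with h3 | h3
    · exact s2 h h' h3 h2
    · rcases le_total h' b2 with h4 | h4
      · exact step_II (by linarith) h2 (by nlinarith) (by linarith)
      · exact (s2 b2 h' le_rfl h4).trans (step_II (by linarith) h3 (by nlinarith) (by linarith))
  rcases le_total b1 h with h3 | h3
  · exact s1 h h' h3 hle
  · rcases le_total h' b1 with h4 | h4
    · exact step_III hm hh hle (by nlinarith)
    · exact (s1 b1 h' le_rfl h4).trans (step_III hm hh h3 (by linarith))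

end

end Pool.Agent.Lib.MP_b0a977_co.Sharp
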