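import Pool.Agent.Lib.MP_b0a977_co.Sharp.Met

/-!
# Fixed diameter: typical points, children, ancestor pairs, and the two counting lemmas
-/

set_option linter.unusedSectionVars false

namespace Pool.Agent.Lib.MP_b0a977_co.Sharp

open Finset

namespace Met

variable {V : Type*} [Fintype V] [DecidableEq V] (M : Met V)

/-- points of small cost -/
noncomputable def typ (A : ℝ) : Finset V := univ.filter (fun v => (M.cost v : ℝ) ≤ A)

lemma mem_typ {A : ℝ} {v : V} : v ∈ M.typ A ↔ (M.cost v : ℝ) ≤ A := by simp [typ]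

lemma ball_mono (v : V) {r s : ℕ} (h : r ≤ s) : M.ball v r ⊆ M.ball v s := by
  intro x hx
  rw [mem_ball] at hx ⊢
  omega

lemma ball_step {v w : V} (h : M.δ w v ≤ 1) (r : ℕ) : M.ball v r ⊆ M.ball w (r + 1) := by
  intro x hx
  rw [mem_ball] at hx ⊢
  have := M.tri w v x
  omega

/-- a ball of radius less than `d` is not larger than the cost of its centre -/
lemma ball_card_le_cost (v : V) {r : ℕ} (hr : r < M.d) : (M.ball v r).card ≤ M.cost v := by
  have h1 : (M.ball v r).card = ∑ x ∈ M.ball v r, 1 := by simp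
  rw [h1]
  calc ∑ x ∈ M.ball v r, 1 ≤ ∑ x ∈ M.ball v r, M.df x v := by
        apply Finset.sum_le_sum
        intro x hx
        rw [mem_ball] at hx
        have h2 := M.df_add x v
        rw [M.symm x v] at h2
        omega
    _ ≤ _ := Finset.sum_le_sum_of_subset (Finset.subset_univ _)

lemma ball_card_le {A : ℝ} {v : V} (hv : v ∈ M.typ A) {r : ℕ} (hr : r < M.d) :
    ((M.ball v r).card : ℝ) ≤ A := by
  have h1 := M.ball_card_le_cost v hr
  have h2 := M.mem_typ.mp hv
  have h3 : ((M.ball v r).card : ℝ) ≤ M.cost v := by exact_mod_cast h1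
  linarith

lemma ball_card_le' {A : ℝ} {v w : V} (hw : w ∈ M.typ A) (h : M.δ w v ≤ 1) {r : ℕ}
    (hr : r + 1 < M.d) : ((M.ball v r).card : ℝ) ≤ A := by
  have h1 := Finset.card_le_card (M.ball_step h r)
  have h2 := M.ball_card_le hw hr
  have h3 : ((M.ball v r).card : ℝ) ≤ ((M.ball w (r + 1)).card : ℝ) := by exact_mod_cast h1
  linarith

/-- the typical points at distance `d` from `y` -/
noncomputable def far (A : ℝ) (y : V) : Finset V := (M.typ A).filter (fun x => M.δ x y = M.d)

/-- the far points below `w` -/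
noncomputable def kids (A : ℝ) (y : V) (h : ℕ) (w : V) : Finset V :=
  (M.far A y).filter (fun x => M.anc y h x = w)

lemma mem_kids {A : ℝ} {y : V} {h : ℕ} {w x : V} :
    x ∈ M.kids A y h w ↔ x ∈ M.typ A ∧ M.δ x y = M.d ∧ M.anc y h x = w := by
  simp only [kids, far, Finset.mem_filter, and_assoc]

lemma df_zero {x y : V} (h : M.δ x y = M.d) : M.df x y = 0 := by unfold df; omega

open Classical in
/-- the far points all of whose ancestors have many children -/
noncomputable def core' (A D : ℝ) (y : V) : Finset V :=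
  (M.far A y).filter (fun x => ∀ h ∈ Finset.Icc 1 ((M.d - 1) / 2),
    D ≤ ((M.kids A y h (M.anc y h x)).card : ℝ))

/-- the ancestor pairs at height `h` -/
noncomputable def EE (A D : ℝ) (h : ℕ) : Finset (V × V) :=
  univ.filter (fun p => p.2 ∈ M.typ A ∧ p.1 ∈ (M.core' A D p.2).image (M.anc p.2 h))

lemma EE_prop {A D : ℝ} {h : ℕ} {w y : V} (hh : h ∈ Finset.Icc 1 ((M.d - 1) / 2))
    (hp : (w, y) ∈ M.EE A D h) :
    y ∈ M.typ A ∧ M.δ w y = M.d - h ∧ D ≤ ((M.kids A y h w).card : ℝ) := by
  simp only [EE, Finset.mem_filter, Finset.mem_univ, true_and, Finset.mem_image] at hp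
  obtain ⟨hy, x, hx, rfl⟩ := hp
  simp only [core', far, Finset.mem_filter] at hx
  refine ⟨hy, M.anc_dist ?_, hx.2 h hh⟩
  rw [M.df_zero hx.1.2]; omega

/-- cell triples: `w` is a typical ancestor of height `j` of `v`, and both have the same ancestor
of height `h` with respect to `y` -/
noncomputable def KC (A D : ℝ) (j h : ℕ) : Finset (V × V × V) :=
  univ.filter (fun t => (t.1, t.2.1) ∈ M.EE A D j ∧ t.1 ∈ M.typ A ∧ M.δ t.1 t.2.2 = M.d ∧
    M.δ t.2.1 t.2.2 = M.d ∧ M.anc t.2.2 h t.1 = M.anc t.2.2 h t.2.1)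

lemma anc_par {y w : V} {h : ℕ} (hw : M.δ w y = M.d) (hh : 1 ≤ h) (hd : h ≤ M.d) :
    M.δ (M.P y w) (M.anc y h w) ≤ h - 1 := by
  unfold anc
  rw [hw, show M.d - (M.d - h) = (h - 1) + 1 by omega, Function.iterate_succ_apply]
  exact M.iter_step y (h - 1) _

lemma KC_le (A D : ℝ) (j h : ℕ) (hj : j ∈ Finset.Icc 1 ((M.d - 1) / 2))
    (hj2 : j + 2 < M.d) (hh : h ∈ Finset.Icc 1 ((M.d - 1) / 2)) :
    D * (M.KC A D j h).card ≤ A ^ 2 * M.Th := by
  rw [Finset.mem_Icc] at hh
  -- the triples with a child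
  set Q : Finset (V × V × V) := univ.filter (fun t =>
    (M.anc t.2.1 j t.1, t.2.1, t.2.2) ∈ M.KC A D j h ∧ t.1 ∈ M.kids A t.2.1 j (M.anc t.2.1 j t.1))
    with hQ
  have h1 : D * (M.KC A D j h).card ≤ (Q.card : ℝ) := by
    have h2 : Q.card = ∑ t ∈ M.KC A D j h,
        (Q.filter (fun q => (M.anc q.2.1 j q.1, q.2.1, q.2.2) = t)).card := by
      apply Finset.card_eq_sum_card_fiberwise
      intro q hq
      rw [hQ] at hq
      exact (Finset.mem_filter.mp (Finset.mem_coe.mp hq)).2.1
    have h3 : ∀ t ∈ M.KC A D j h,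
        D ≤ ((Q.filter (fun q => (M.anc q.2.1 j q.1, q.2.1, q.2.2) = t)).card : ℝ) := by
      rintro ⟨w, v, y⟩ ht
      have h4 := ht
      simp only [KC, Finset.mem_filter, Finset.mem_univ, true_and] at h4
      have h5 := (M.EE_prop hj h4.1).2.2
      refine h5.trans ?_
      have h6 : (M.kids A v j w).card ≤
          (Q.filter (fun q => (M.anc q.2.1 j q.1, q.2.1, q.2.2) = (w, v, y))).card := by
        apply Finset.card_le_card_of_injOn (fun x => (x, v, y))
        · intro x hx
          have hx := Finset.mem_coe.mp hx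
          have hx2 := (M.mem_kids.mp hx).2.2
          apply Finset.mem_coe.mpr
          rw [hQ]
          simp only [Finset.mem_filter, Finset.mem_univ, true_and]
          rw [hx2]
          exact ⟨⟨ht, hx⟩, rfl⟩
        · intro x _ x' _ hxx
          exact (Prod.mk.inj hxx).1
      exact_mod_cast h6
    rw [h2]
    push_cast
    calc D * (M.KC A D j h).card = ∑ t ∈ M.KC A D j h, D := by
          rw [Finset.sum_const, nsmul_eq_mul, mul_comm]
      _ ≤ _ := Finset.sum_le_sum h3
  refine h1.trans ?_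
  -- through the parent of `w` toward `y`
  have h2 : Q.card = ∑ g : V, (Q.filter (fun q => M.P q.2.2 (M.anc q.2.1 j q.1) = g)).card := by
    apply Finset.card_eq_sum_card_fiberwise
    intro q _
    exact Finset.mem_coe.mpr (Finset.mem_univ _)
  have h3 : ∀ g : V, ((Q.filter (fun q => M.P q.2.2 (M.anc q.2.1 j q.1) = g)).card : ℝ)
      ≤ A ^ 2 * M.cost g := by
    intro g
    set F := Q.filter (fun q => M.P q.2.2 (M.anc q.2.1 j q.1) = g) with hF
    have hFm : ∀ q ∈ F, (M.anc q.2.1 j q.1) ∈ M.typ A ∧ M.δ (M.anc q.2.1 j q.1) g ≤ 1 ∧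
        q ∈ M.ball g (j + 1) ×ˢ (M.ball g (2 * h - 1) ×ˢ M.ball g (M.d - 1)) := by
      rintro ⟨x, v, y⟩ hq
      rw [hF, hQ] at hq
      simp only [KC, Finset.mem_filter, Finset.mem_univ, true_and] at hq
      obtain ⟨⟨⟨hE, hw, hwy, hvy, hanc⟩, hx⟩, hg⟩ := hq
      have hstep := M.step y (M.anc v j x)
      rw [hg] at hstep
      refine ⟨hw, hstep, ?_⟩
      rw [Finset.mem_product, Finset.mem_product, mem_ball, mem_ball, mem_ball]
      simp only
      refine ⟨?_, ?_, ?_⟩
      · have h4 : M.δ x (M.anc v j x) ≤ j := M.anc_near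
        have h5 := M.tri g (M.anc v j x) x
        rw [M.symm g (M.anc v j x), M.symm (M.anc v j x) x] at h5
        omega
      · have h4 := M.anc_par hwy hh.1 (by omega)
        rw [hg] at h4
        have h5 : M.δ v (M.anc y h v) ≤ h := M.anc_near
        rw [← hanc] at h5
        have h6 := M.tri g (M.anc y h (M.anc v j x)) v
        rw [M.symm (M.anc y h (M.anc v j x)) v] at h6
        omega
      · have h4 := M.down y (M.anc v j x)
        rw [hg, hwy] at h4
        omega
    rcases F.eq_empty_or_nonempty with h0 | ⟨q0, hq0⟩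
    · rw [h0]
      simp only [Finset.card_empty, Nat.cast_zero]
      positivity
    · obtain ⟨hw, hg, _⟩ := hFm q0 hq0
      have h4 : F ⊆ M.ball g (j + 1) ×ˢ (M.ball g (2 * h - 1) ×ˢ M.ball g (M.d - 1)) :=
        fun q hq => (hFm q hq).2.2
      have h5 := Finset.card_le_card h4
      rw [Finset.card_product, Finset.card_product] at h5
      have h6 : ((M.ball g (j + 1)).card : ℝ) ≤ A := M.ball_card_le' hw hg (by omega)
      have h7 : ((M.ball g (2 * h - 1)).card : ℝ) ≤ A := M.ball_card_le' hw hg (by omega)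
      have h8 : ((M.ball g (M.d - 1)).card : ℝ) ≤ M.cost g := by
        exact_mod_cast M.ball_card_le_cost g (by omega)
      have hA : 0 ≤ A := le_trans (Nat.cast_nonneg _) h6
      calc (F.card : ℝ) ≤ ((M.ball g (j + 1)).card : ℝ) * (((M.ball g (2 * h - 1)).card : ℝ)
            * ((M.ball g (M.d - 1)).card : ℝ)) := by exact_mod_cast h5
        _ ≤ A * (A * M.cost g) := by
            apply mul_le_mul h6 _ (by positivity) hA
            exact mul_le_mul h7 h8 (Nat.cast_nonneg _) hA
        _ = _ := by ring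
  rw [h2]
  push_cast
  calc _ ≤ ∑ g : V, A ^ 2 * (M.cost g : ℝ) := Finset.sum_le_sum fun g _ => h3 g
    _ = _ := by rw [← Finset.mul_sum]; unfold Th; push_cast; rfl

end Met

end Pool.Agent.Lib.MP_b0a977_co.Sharp
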