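import Pool.Agent.Lib.MP_b0a977_co.Sharp.CdFacts

/-!
# The uniform statement, from the four halves
-/

namespace Pool.Agent.Lib.MP_b0a977_co.Sharp

open Finset

lemma split_root (d n : ℕ) : ((d : ℝ) * n) * √((d : ℝ) * n) = (d * √(d : ℝ)) * (n * √(n : ℝ)) := by
  rw [Real.sqrt_mul (Nat.cast_nonneg d)]; ring

lemma split_root' (k : ℝ) (d n : ℕ) : k * ((d : ℝ) * n) * √((d : ℝ) * n)
    = (k * (d * √(d : ℝ))) * (n * √(n : ℝ)) := by
  rw [mul_assoc, split_root]; ring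

/-- `c_d = (κ + o(1)) d^(3/2)` -/
theorem cd_limit (hub : UBD) (ε : ℝ) (hε : 0 < ε) : ∃ K : ℕ, ∀ d : ℕ, K ≤ d →
    |cd d - kappa * (d * √(d : ℝ))| ≤ ε * (d * √(d : ℝ)) := by
  obtain ⟨K1, hK1⟩ := Pool.Agent.Lib.MP_b0a977_co.H62.ub ε hε
  obtain ⟨K2, hK2⟩ := lb ε hε
  refine ⟨K1 + K2 + 4, fun d hd => ?_⟩
  have hd4 : 4 ≤ d := by omega
  rw [abs_le]
  constructor
  · -- lower bound
    have h1 : ∀ η : ℝ, 0 < η → (kappa - ε) * (d * √(d : ℝ)) ≤ cd d + η := by
      intro η hη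
      obtain ⟨n0, hn0⟩ := hub d (by omega) η hη
      set n := n0 + K2 * d + 1 with hn
      obtain ⟨G, hG1, hG2, hG3⟩ := hn0 n (by omega)
      have h2 := hK2 n d (by omega) (by omega) G hG1 (fun x y => by
        have : Nonempty (Fin n) := ⟨x⟩
        rw [← hG2]
        exact SimpleGraph.dist_le_diam (SimpleGraph.connected_iff_ediam_ne_top.mp hG1))
      have h3 := h2.trans hG3
      rw [split_root'] at h3
      have hnp : (0 : ℝ) < n * √(n : ℝ) := by
        have : (0 : ℝ) < n := by exact_mod_cast (by omega : 0 < n)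
        exact mul_pos this (Real.sqrt_pos.mpr this)
      exact le_of_mul_le_mul_right h3 hnp
    have h2 : (kappa - ε) * (d * √(d : ℝ)) ≤ cd d := le_of_forall_pos_le_add h1
    linarith
  · -- upper bound
    have h1 : ∀ η : ℝ, 0 < η → cd d ≤ (kappa + ε) * (d * √(d : ℝ)) + η := by
      intro η hη
      obtain ⟨n0, hn0⟩ := lbD d hd4 η hη
      set n := n0 + K1 * d + 1 with hn
      obtain ⟨G, hG1, hG2, hG3⟩ := hK1 n d (by omega) (by omega)
      have h2 := hn0 n (by omega) G hG1 (fun x y => by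
        have : Nonempty (Fin n) := ⟨x⟩
        rw [← hG2]
        exact SimpleGraph.dist_le_diam (SimpleGraph.connected_iff_ediam_ne_top.mp hG1))
      have h3 := h2.trans hG3
      rw [split_root'] at h3
      have hnp : (0 : ℝ) < n * √(n : ℝ) := by
        have : (0 : ℝ) < n := by exact_mod_cast (by omega : 0 < n)
        exact mul_pos this (Real.sqrt_pos.mpr this)
      have h4 := le_of_mul_le_mul_right h3 hnp
      linarith
    have h2 : cd d ≤ (kappa + ε) * (d * √(d : ℝ)) := le_of_forall_pos_le_add h1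
    linarith

lemma kappa_ge : 1 / 2 ≤ kappa := by
  have h1 := kappa_sq
  have h2 := kappa_pos
  have h3 := s7_bd.2
  nlinarith

/-- the two bounds, uniformly in `d ≥ 4` -/
theorem uniform (hub : UBD) (ε : ℝ) (hε : 0 < ε) : ∃ K : ℕ, ∀ n d : ℕ, 4 ≤ d → K * d ≤ n →
    (∃ G : SimpleGraph (Fin n), G.Connected ∧ G.diam = d ∧
      ∑ x, ∑ y, ((d : ℝ) - G.dist x y) ≤ (1 + ε) * cd d * (n * √(n : ℝ))) ∧
    (∀ G : SimpleGraph (Fin n), G.Connected → (∀ x y, G.dist x y ≤ d) →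
      (1 - ε) * cd d * (n * √(n : ℝ)) ≤ ∑ x, ∑ y, ((d : ℝ) - G.dist x y)) := by
  set ε₁ : ℝ := min (ε / 8) (1 / 4) with hε₁
  have hε₁0 : 0 < ε₁ := lt_min (by positivity) (by norm_num)
  have hε₁a : ε₁ ≤ ε / 8 := min_le_left _ _
  have hε₁b : ε₁ ≤ 1 / 4 := min_le_right _ _
  obtain ⟨K1, hK1⟩ := Pool.Agent.Lib.MP_b0a977_co.H62.ub ε₁ hε₁0
  obtain ⟨K2, hK2⟩ := lb ε₁ hε₁0
  obtain ⟨K3, hK3⟩ := cd_limit hub ε₁ hε₁0
  set D := K1 + K2 + K3 + 4 with hD
  -- the thresholds for small `d`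
  have hex : ∀ d : ℕ, ∃ n₀ : ℕ, 4 ≤ d → ∀ n : ℕ, n₀ ≤ n →
      (∃ G : SimpleGraph (Fin n), G.Connected ∧ G.diam = d ∧
        ∑ x, ∑ y, ((d : ℝ) - G.dist x y) ≤ (1 + ε) * cd d * (n * √(n : ℝ))) ∧
      (∀ G : SimpleGraph (Fin n), G.Connected → (∀ x y, G.dist x y ≤ d) →
        (1 - ε) * cd d * (n * √(n : ℝ)) ≤ ∑ x, ∑ y, ((d : ℝ) - G.dist x y)) := by
    intro d
    by_cases hd : 4 ≤ d
    · have hc := cd_pos hd
      obtain ⟨n1, hn1⟩ := hub d (by omega) (ε * cd d) (by positivity)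
      obtain ⟨n2, hn2⟩ := lbD d hd (ε * cd d) (by positivity)
      refine ⟨n1 + n2, fun _ n hn => ⟨?_, ?_⟩⟩
      · obtain ⟨G, h1, h2, h3⟩ := hn1 n (by omega)
        refine ⟨G, h1, h2, h3.trans (le_of_eq ?_)⟩
        ring
      · intro G h1 h2
        refine le_trans (le_of_eq ?_) (hn2 n (by omega) G h1 h2)
        ring
    · exact ⟨0, fun h => absurd h hd⟩
  choose n₀ hn₀ using hex
  refine ⟨D + ∑ d ∈ range D, n₀ d, fun n d hd hn => ?_⟩
  have hc := cd_pos hd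
  have hd0 : (0 : ℝ) < d := by exact_mod_cast (by omega : 0 < d)
  have hs0 : 0 < √(d : ℝ) := Real.sqrt_pos.mpr hd0
  by_cases hdD : D ≤ d
  · have hnD : D * d ≤ n := (Nat.mul_le_mul_right d (by omega)).trans hn
    have hn1 : K1 * d ≤ n := (Nat.mul_le_mul_right d (by omega)).trans hnD
    have hn2 : K2 * d ≤ n := (Nat.mul_le_mul_right d (by omega)).trans hnD
    have h3 := abs_le.mp (hK3 d (by omega))
    have hk := kappa_ge
    have hdd : 0 < d * √(d : ℝ) := by positivity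
    have h4 : d * √(d : ℝ) ≤ 4 * cd d := by
      have h5 : (1 / 4) * (d * √(d : ℝ)) ≤ (kappa - ε₁) * (d * √(d : ℝ)) :=
        mul_le_mul_of_nonneg_right (by linarith) hdd.le
      linarith
    have h5 : 2 * ε₁ * (d * √(d : ℝ)) ≤ ε * cd d := by
      calc 2 * ε₁ * (d * √(d : ℝ)) ≤ 2 * (ε / 8) * (4 * cd d) :=
            mul_le_mul (by linarith) h4 hdd.le (by positivity)
        _ = _ := by ring
    have hn0 : (0 : ℝ) ≤ n * √(n : ℝ) := by positivity
    constructor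
    · obtain ⟨G, g1, g2, g3⟩ := hK1 n d (by omega) hn1
      refine ⟨G, g1, g2, g3.trans ?_⟩
      rw [split_root']
      apply mul_le_mul_of_nonneg_right _ hn0
      linarith
    · intro G g1 g2
      refine le_trans ?_ (hK2 n d (by omega) hn2 G g1 g2)
      rw [split_root']
      apply mul_le_mul_of_nonneg_right _ hn0
      linarith
  · have hdr : d ∈ range D := Finset.mem_range.mpr (not_le.mp hdD)
    have h1 : n₀ d ≤ ∑ d ∈ range D, n₀ d :=
      Finset.single_le_sum (f := n₀) (fun _ _ => Nat.zero_le _) hdr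
    have h2 : D + ∑ d ∈ range D, n₀ d ≤ n := (Nat.le_mul_of_pos_right _ (by omega)).trans hn
    exact hn₀ d hd n (by omega)

end Pool.Agent.Lib.MP_b0a977_co.Sharp
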